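import Pool.Agent.Helper5.TR.Use
import Pool.Agent.Helper33.CKC.Final
set_option autoImplicit false
open Complex MeasureTheory Metric Set Filter Topology
open scoped Real ComplexConjugate

/-! The half plane `Re t ≤ 0` from a certificate of project CKC for the whole arc. -/

namespace Pool.Agent.Helper5.TR

open Pool.Agent.Helper33.CKC in
/-- exactness for `|t| ≥ c + d`, `Re t ≤ 0`, from the arc `0 ≤ tan (φ / 2) ≤ 1` -/
theorem ex_arc {c d : ℝ} (hc : 0 < c) (hd : 0 ≤ d) (H : SecH c d (1/1)) {t : ℂ}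
    (ht : t.re ≤ 0) (hn : c + d ≤ ‖t‖) : Ex t := by
  apply Ex.of_weak
  intro e he
  have h0 : t ≠ 0 := by
    intro h
    rw [h, norm_zero] at hn
    linarith
  refine sector_of (a := c) (b := d) (T := 1/1) (by norm_num) H t h0 ?_ ?_ e he
  · nlinarith [norm_nonneg t]
  · nlinarith [mul_nonneg hd (neg_nonneg.2 ht), norm_nonneg t,
      mul_nonneg (sub_nonneg.2 hn) (norm_nonneg t),
      mul_nonneg (sub_nonneg.2 hn) (neg_nonneg.2 ht)]

end Pool.Agent.Helper5.TR
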