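import Pool.Agent.Helper5.TR.Arc
set_option autoImplicit false
open Complex MeasureTheory Metric Set Filter Topology
open scoped Real ComplexConjugate

/-! The half plane `Re t ≤ 0` from certificates of project CKC for two arcs. -/

namespace Pool.Agent.Helper5.TR

open Pool.Agent.Helper33.CKC Pool.Agent.Helper58.CKC in
/-- two arcs `0 ≤ ta ≤ T` and `T ≤ ta ≤ 1`, uniform threshold `k` -/
theorem secH_glue {c₁ d₁ c₂ d₂ T k : ℝ} (hd₁ : 0 ≤ d₁) (hd₂ : 0 ≤ d₂)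
    (h1 : c₁ + d₁ * T ^ 2 ≤ k) (h2 : c₂ + d₂ ≤ k) (H₁ : SecH c₁ d₁ T)
    (H₂ : ∀ ta : ℝ, T ≤ ta → ta ≤ 1 → ∀ t : ℂ, c₂ + d₂ * ta ^ 2 ≤ ‖t‖ →
      t = -((‖t‖ : ℂ) * (starRingEnd ℂ) ((1 + ta * I) / (1 - ta * I))) →
      ∀ e : ℝ, 0 < e → SigC t (‖t‖ - 1 + e)) : SecH k 0 (1/1) := by
  intro ta h0 ht1 t hn htt e he
  rw [zero_mul, add_zero] at hn
  rcases le_total ta T with h | h
  · refine H₁ ta h0 h t (le_trans ?_ hn) htt e he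
    refine le_trans ?_ h1
    have : ta ^ 2 ≤ T ^ 2 := pow_le_pow_left₀ h0 h 2
    nlinarith
  · have h3 : ta ≤ 1 := by linarith [show ((1:ℝ)/1) = 1 by norm_num]
    refine H₂ ta h h3 t (le_trans ?_ hn) htt e he
    refine le_trans ?_ h2
    have : ta ^ 2 ≤ 1 := pow_le_one₀ h0 h3
    nlinarith

open Pool.Agent.Helper33.CKC Pool.Agent.Helper58.CKC in
/-- exactness for `|t| ≥ k`, `Re t ≤ 0`, from two arcs -/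
theorem ex_arcs {c₁ d₁ c₂ d₂ T k : ℝ} (hk : 0 < k) (hd₁ : 0 ≤ d₁) (hd₂ : 0 ≤ d₂)
    (h1 : c₁ + d₁ * T ^ 2 ≤ k) (h2 : c₂ + d₂ ≤ k) (H₁ : SecH c₁ d₁ T)
    (H₂ : ∀ ta : ℝ, T ≤ ta → ta ≤ 1 → ∀ t : ℂ, c₂ + d₂ * ta ^ 2 ≤ ‖t‖ →
      t = -((‖t‖ : ℂ) * (starRingEnd ℂ) ((1 + ta * I) / (1 - ta * I))) →
      ∀ e : ℝ, 0 < e → SigC t (‖t‖ - 1 + e)) {t : ℂ} (ht : t.re ≤ 0) (hn : k ≤ ‖t‖) : Ex t :=
  ex_arc hk le_rfl (secH_glue hd₁ hd₂ h1 h2 H₁ H₂) ht (by rw [add_zero]; exact hn)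

end Pool.Agent.Helper5.TR
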