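import Pool.Agent.Helper39.EK.AreaForm
import Pool.Agent.Helper39.Area.Goluzin
set_option autoImplicit false
open Complex MeasureTheory Metric Set Polynomial
open scoped Real ComplexConjugate

/-! The area theorem for the coefficients, and the mean of `|β'|²`. -/

namespace Pool.Agent.Helper5.TR

open Pool.Agent.Helper39.Area Pool.Agent.Helper39.EK

variable {β : ℂ → ℂ}

/-- the area theorem -/
theorem area_coeff (h : Ext β) {ρ : ℝ} (hρ : 0 < ρ) (hρ1 : ρ < 1) (N : ℕ) :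
    ∑ n ∈ Finset.range N, (n:ℝ) * ρ ^ (2 * n) * ‖iteratedDeriv n β 0 / n.factorial‖ ^ 2 ≤
      1 / ρ ^ 2 := by
  obtain ⟨c, hc, hci⟩ := dirichlet_sum h.diff hρ hρ1
  obtain ⟨c2, hc2, hi⟩ := area_ineq h hρ hρ1 (Polynomial.X)
  refine (hc N).trans ?_
  have hρ0 : (ρ:ℂ) ≠ 0 := by exact_mod_cast hρ.ne'
  have hβc : ContinuousOn β (sphere 0 ρ) := h.diff.continuousOn.mono
    (fun ζ hζ => mem_ball_of_sphere hρ1 (sphere_subset_closedBall hζ))
  have hβd : ContinuousOn (deriv β) (sphere 0 ρ) := (h.diff.deriv isOpen_ball).continuousOn.mono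
    (fun ζ hζ => mem_ball_of_sphere hρ1 (sphere_subset_closedBall hζ))
  have hinv : ContinuousOn (fun ζ : ℂ => (ζ ^ 2)⁻¹) (sphere 0 ρ) := by
    apply ContinuousOn.inv₀ (by fun_prop)
    intro ζ hζ
    exact pow_ne_zero _ (sphere_ne hρ hζ)
  have hinv1 : ContinuousOn (fun ζ : ℂ => ζ⁻¹) (sphere 0 ρ) := by
    apply ContinuousOn.inv₀ (by fun_prop)
    intro ζ hζ
    exact sphere_ne hρ hζ
  have hcb : ContinuousOn (fun ζ => conj (β ζ)) (sphere 0 ρ) :=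
    Complex.continuous_conj.comp_continuousOn hβc
  -- the four integrals
  have i1 : (∮ ζ in C(0, ρ), -((ρ:ℂ) ^ 2)⁻¹ * ζ⁻¹) = -((ρ:ℂ) ^ 2)⁻¹ * (2 * π * I) := by
    rw [circleIntegral.integral_const_mul]
    have := circleIntegral.integral_sub_center_inv (0:ℂ) hρ.ne'
    simp only [sub_zero] at this
    rw [this]
  have i2 : (∮ ζ in C(0, ρ), ((ρ:ℂ) ^ 2)⁻¹ * (ζ * deriv β ζ)) = 0 := by
    rw [circleIntegral.integral_const_mul, cauchy_zero hρ hρ1, mul_zero]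
    exact differentiableOn_id.mul (h.diff.deriv isOpen_ball)
  have i3 : (∮ ζ in C(0, ρ), -(conj (β ζ) * (ζ ^ 2)⁻¹)) = 0 := by
    have h1 := conj_circle hρ (fun ζ => -(conj (β ζ) * (ζ ^ 2)⁻¹))
    have h2 : (∮ ζ in C(0, ρ), β ζ) = 0 := cauchy_zero hρ hρ1 h.diff
    have h3 : conj (∮ ζ in C(0, ρ), -(conj (β ζ) * (ζ ^ 2)⁻¹)) = 0 := by
      rw [h1]
      have h4 : (∮ ζ in C(0, ρ), -((ρ:ℂ) ^ 2 / ζ ^ 2) * conj (-(conj (β ζ) * (ζ ^ 2)⁻¹))) =
          ∮ ζ in C(0, ρ), ((ρ:ℂ) ^ 2)⁻¹ * β ζ := by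
        apply circleIntegral.integral_congr hρ.le
        intro ζ hζ
        have h5 := sphere_ne hρ hζ
        have h6 : conj ζ = (ρ:ℂ) ^ 2 / ζ := by
          rw [eq_div_iff h5, mul_comm, Complex.mul_conj, Complex.normSq_eq_norm_sq]
          rw [mem_sphere, dist_zero_right] at hζ
          rw [hζ]; push_cast; ring
        simp only
        rw [map_neg, map_mul, map_inv₀, map_pow, Complex.conj_conj, h6]
        field_simp
      rw [h4, circleIntegral.integral_const_mul, h2, mul_zero]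
    have h4 := congrArg conj h3
    simpa using h4
  have hsum : (∮ ζ in C(0, ρ), conj (Polynomial.X.eval (phi β ζ)) *
      ((derivative (Polynomial.X : ℂ[X])).eval (phi β ζ) * dphi β ζ)) =
      ∮ ζ in C(0, ρ), (-((ρ:ℂ) ^ 2)⁻¹ * ζ⁻¹ + ((ρ:ℂ) ^ 2)⁻¹ * (ζ * deriv β ζ) +
        -(conj (β ζ) * (ζ ^ 2)⁻¹) + conj (β ζ) * deriv β ζ) := by
    apply circleIntegral.integral_congr hρ.le
    intro ζ hζ
    have h5 := sphere_ne hρ hζ
    have h6 : conj ζ = (ρ:ℂ) ^ 2 / ζ := by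
      rw [eq_div_iff h5, mul_comm, Complex.mul_conj, Complex.normSq_eq_norm_sq]
      rw [mem_sphere, dist_zero_right] at hζ
      rw [hζ]; push_cast; ring
    simp only [Polynomial.eval_X, Polynomial.derivative_X, Polynomial.eval_one, one_mul]
    unfold phi dphi
    rw [map_add, map_inv₀, h6]
    field_simp
    ring
  rw [hsum] at hi
  have c1 : CircleIntegrable (fun ζ : ℂ => -((ρ:ℂ) ^ 2)⁻¹ * ζ⁻¹) 0 ρ :=
    (continuousOn_const.mul hinv1).circleIntegrable hρ.le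
  have c2' : CircleIntegrable (fun ζ : ℂ => ((ρ:ℂ) ^ 2)⁻¹ * (ζ * deriv β ζ)) 0 ρ :=
    (continuousOn_const.mul (continuousOn_id.mul hβd)).circleIntegrable hρ.le
  have c3 : CircleIntegrable (fun ζ : ℂ => -(conj (β ζ) * (ζ ^ 2)⁻¹)) 0 ρ :=
    ((hcb.mul hinv).neg).circleIntegrable hρ.le
  have c4 : CircleIntegrable (fun ζ : ℂ => conj (β ζ) * deriv β ζ) 0 ρ :=
    (hcb.mul hβd).circleIntegrable hρ.le
  have c12 : CircleIntegrable (fun ζ : ℂ => -((ρ:ℂ) ^ 2)⁻¹ * ζ⁻¹ +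
      ((ρ:ℂ) ^ 2)⁻¹ * (ζ * deriv β ζ)) 0 ρ := c1.add c2'
  have c123 : CircleIntegrable (fun ζ : ℂ => -((ρ:ℂ) ^ 2)⁻¹ * ζ⁻¹ +
      ((ρ:ℂ) ^ 2)⁻¹ * (ζ * deriv β ζ) + -(conj (β ζ) * (ζ ^ 2)⁻¹)) 0 ρ := c12.add c3
  rw [circleIntegral.integral_add c123 c4,
    circleIntegral.integral_add c12 c3, circleIntegral.integral_add c1 c2', i1, i2, i3,
    hci] at hi
  have h1 : (c : ℂ) = ((1 / ρ ^ 2 - c2 / π : ℝ) : ℂ) := by
    have hpi : (π : ℂ) ≠ 0 := by exact_mod_cast Real.pi_ne_zero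
    push_cast
    have hI : (I : ℂ) ≠ 0 := Complex.I_ne_zero
    have h2 : (2 * π * I : ℂ) * (1 / (ρ:ℂ) ^ 2 - c2 / π) =
        ((ρ:ℂ) ^ 2)⁻¹ * (2 * π * I) - 2 * I * c2 := by
      field_simp
    apply mul_left_cancel₀ (show (2 * π * I : ℂ) ≠ 0 by
      exact mul_ne_zero (mul_ne_zero two_ne_zero hpi) hI)
    rw [h2]
    linear_combination hi
  have h2 : c = 1 / ρ ^ 2 - c2 / π := by exact_mod_cast h1
  have h3 : 0 ≤ c2 / π := div_nonneg hc2 Real.pi_pos.le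
  linarith

end Pool.Agent.Helper5.TR
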