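import Pool.Agent.Helper5.TR.Conv
set_option autoImplicit false
open Complex MeasureTheory Metric Set Filter Topology
open scoped Real ComplexConjugate

/-! The second order of the spectrum at `2`: combination of the bound for real exponents below `2`
(strict), the bound for complex exponents and the exact value for real exponents above `2`. -/

namespace Pool.Agent.Helper5.TR

/-- combination of two exponents -/
theorem UpAt.comb {τ τ₁ τ₂ : ℂ} {b₁ b₂ b θ : ℝ} (H₁ : UpAt (2 - τ₁) b₁) (H₂ : UpAt (2 - τ₂) b₂)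
    (h0 : 0 ≤ θ) (h1 : θ ≤ 1) (hre : τ.re = (1 - θ) * τ₁.re + θ * τ₂.re)
    (him : τ.im = (1 - θ) * τ₁.im + θ * τ₂.im) (hb : (1 - θ) * b₁ + θ * b₂ ≤ b) :
    UpAt (2 - τ) b := by
  have h := (H₁.convex H₂ h0 h1).mono hb
  have e : ((1 - θ : ℝ) : ℂ) * (2 - τ₁) + (θ : ℂ) * (2 - τ₂) = 2 - τ := by
    apply Complex.ext
    · rw [Complex.add_re, Complex.re_ofReal_mul, Complex.re_ofReal_mul, Complex.sub_re,
        Complex.sub_re, Complex.sub_re, hre]
      ring
    · rw [Complex.add_im, Complex.im_ofReal_mul, Complex.im_ofReal_mul, Complex.sub_im,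
        Complex.sub_im, Complex.sub_im, him]
      simp only [Complex.im_ofNat]
      ring
  rwa [e] at h

/-- the sign of a real number, `±1` -/
theorem exists_sign (η : ℝ) : ∃ σ : ℝ, σ ^ 2 = 1 ∧ σ * η = |η| ∧ σ * |η| = η := by
  rcases le_or_gt 0 η with h | h
  · exact ⟨1, by norm_num, by rw [abs_of_nonneg h, one_mul], by rw [abs_of_nonneg h, one_mul]⟩
  · exact ⟨-1, by norm_num, by rw [abs_of_neg h]; ring, by rw [abs_of_neg h]; ring⟩

theorem second_order {k : ℝ} (hk0 : 0 < k) (hk1 : k < 1)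
    (G3 : ∃ d : ℝ, 0 < d ∧ ∀ x : ℝ, 0 < x → x < d →
      UpAt (2 - (x : ℂ)) (1 - x + k ^ 2 / 4 * x ^ 2))
    (G4 : ∀ ε : ℝ, 0 < ε → ∃ d : ℝ, 0 < d ∧ ∀ τ : ℂ, τ ≠ 0 → ‖τ‖ < d →
      UpAt (2 - τ) (1 - τ.re + (1 / 4 + ε) * ‖τ‖ ^ 2)) :
    ∀ ε : ℝ, 0 < ε → ∃ d : ℝ, 0 < d ∧ ∀ τ : ℂ, ‖τ‖ < d → ∀ N : ℝ,
      (∀ g : ℂ, ‖g‖ ≤ 1 → 0 ≤ g.re → g.re ≤ k → (τ * g).re ≤ N) →
      UpAt (2 - τ) (1 - τ.re + N ^ 2 / 4 + ε * ‖τ‖ ^ 2) := by
  obtain ⟨d₃, hd₃, G3⟩ := G3
  intro ε hε
  obtain ⟨d₄, hd₄, G4a⟩ := G4 ε hε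
  obtain ⟨d₅, hd₅, G4b⟩ := G4 (ε / 2) (by positivity)
  set s : ℝ := √(1 - k ^ 2) with hs
  have hk2 : 0 < 1 - k ^ 2 := by nlinarith
  have hs0 : 0 < s := Real.sqrt_pos.2 hk2
  have hs2 : s ^ 2 = 1 - k ^ 2 := Real.sq_sqrt hk2.le
  set e : ℝ := (ε / 2) / (1 / 4 + ε) with he
  have he0 : 0 < e := by positivity
  have heε : e * (1 / 4 + ε) = ε / 2 := by rw [he]; field_simp
  refine ⟨min (min (k * d₃) d₄) (min (d₅ / 2) (min e (1 / 2))), by positivity, ?_⟩
  intro τ hτ N hN
  have hτ3 : ‖τ‖ < k * d₃ := hτ.trans_le ((min_le_left _ _).trans (min_le_left _ _))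
  have hτ4 : ‖τ‖ < d₄ := hτ.trans_le ((min_le_left _ _).trans (min_le_right _ _))
  have hτ5 : ‖τ‖ < d₅ / 2 := hτ.trans_le ((min_le_right _ _).trans (min_le_left _ _))
  have hτe : ‖τ‖ < e :=
    hτ.trans_le ((min_le_right _ _).trans ((min_le_right _ _).trans (min_le_left _ _)))
  have hτh : ‖τ‖ < 1 / 2 :=
    hτ.trans_le ((min_le_right _ _).trans ((min_le_right _ _).trans (min_le_right _ _)))
  have hn2 : ‖τ‖ ^ 2 = τ.re ^ 2 + τ.im ^ 2 := by
    rw [← Complex.normSq_eq_norm_sq, Complex.normSq_apply]; ring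
  have hnn : 0 ≤ ‖τ‖ := norm_nonneg τ
  obtain ⟨σ, hσ1, hσ2, hσ3⟩ := exists_sign τ.im
  have habs : |τ.im| ^ 2 = τ.im ^ 2 := sq_abs _
  have hab0 : 0 ≤ |τ.im| := abs_nonneg _
  have habn : |τ.im| ≤ ‖τ‖ := Complex.abs_im_le_norm τ
  have harn : |τ.re| ≤ ‖τ‖ := Complex.abs_re_le_norm τ
  rcases le_or_gt τ.re 0 with h1 | h1
  · -- the left half plane
    have hNim : |τ.im| ≤ N := by
      have := hN ⟨0, -σ⟩ (by
        rw [← Real.sqrt_sq (norm_nonneg _), ← Complex.normSq_eq_norm_sq, Complex.normSq_apply]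
        rw [show (0:ℝ) * 0 + -σ * -σ = σ ^ 2 by ring, hσ1, Real.sqrt_one]) le_rfl hk0.le
      rw [Complex.mul_re] at this
      simp only [mul_zero, zero_sub, mul_neg, neg_neg] at this
      rwa [mul_comm, hσ2] at this
    have hN2 : τ.im ^ 2 ≤ N ^ 2 := by
      rw [← habs]; exact pow_le_pow_left₀ hab0 hNim 2
    by_cases him : τ.im = 0
    · have h2 := up_ge (y := -τ.re) (by linarith)
      have h3 : ((2 + -τ.re : ℝ) : ℂ) = 2 - τ := by
        apply Complex.ext
        · simp [sub_eq_add_neg]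
        · simp [him]
      rw [h3] at h2
      refine h2.mono ?_
      have : 0 ≤ ε * ‖τ‖ ^ 2 := by positivity
      nlinarith [sq_nonneg N]
    · set θ : ℝ := 1 + τ.re with hθ
      have hre : -τ.re ≤ ‖τ‖ := (neg_le_abs _).trans harn
      have hθ0 : 1 / 2 < θ := by rw [hθ]; linarith
      have hθ1 : θ ≤ 1 := by rw [hθ]; linarith
      have hθp : 0 < θ := by linarith
      have hz : ‖(⟨0, τ.im / θ⟩ : ℂ)‖ = |τ.im| / θ := by
        rw [← Real.sqrt_sq (norm_nonneg _), ← Complex.normSq_eq_norm_sq, Complex.normSq_apply]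
        rw [show (0:ℝ) * 0 + τ.im / θ * (τ.im / θ) = (τ.im / θ) ^ 2 by ring, Real.sqrt_sq_eq_abs,
          abs_div, abs_of_pos hθp]
      have hz1 : |τ.im| / θ < d₅ := by
        rw [div_lt_iff₀ hθp]
        nlinarith
      have A := up_ge (y := 1) zero_le_one
      have A' : UpAt (2 - (-1 : ℂ)) (1 + 1) := by
        have : (2 - (-1 : ℂ)) = ((2 + 1 : ℝ) : ℂ) := by push_cast; ring
        rw [this]; exact A
      have B := G4b ⟨0, τ.im / θ⟩ (by
        intro h0
        have := congrArg Complex.im h0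
        simp only [Complex.zero_im] at this
        rcases div_eq_zero_iff.1 this with h | h
        · exact him h
        · exact hθp.ne' h) (by rw [hz]; exact hz1)
      apply A'.comb B hθp.le hθ1
      · simp only [Complex.neg_re, Complex.one_re]
        rw [hθ]; ring
      · simp only [Complex.neg_im, Complex.one_im]
        field_simp
        ring
      · rw [hz]
        simp only
        have e1 : θ * (1 - 0 + (1 / 4 + ε / 2) * (|τ.im| / θ) ^ 2) =
            θ + (1 / 4 + ε / 2) * (τ.im ^ 2 / θ) := by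
          rw [div_pow, habs]; field_simp
          ring
        have e2 : (1 / 4 + ε / 2) * (τ.im ^ 2 / θ) ≤ (1 / 4 + ε) * τ.im ^ 2 := by
          rw [← mul_div_assoc, div_le_iff₀ hθp]
          have e3 : 1 / 4 + ε / 2 ≤ (1 / 4 + ε) * θ := by
            rw [hθ]
            nlinarith
          nlinarith [sq_nonneg τ.im]
        rw [e1]
        have e4 : (1 - θ) * (1 + 1) + θ = 1 - τ.re := by rw [hθ]; ring
        have e5 : ε * τ.im ^ 2 ≤ ε * ‖τ‖ ^ 2 :=
          mul_le_mul_of_nonneg_left (by rw [hn2]; nlinarith [sq_nonneg τ.re]) hε.le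
        linarith
  · have hτ0 : τ ≠ 0 := by
      intro h; rw [h] at h1; simp at h1
    have hnp : 0 < ‖τ‖ := norm_pos_iff.2 hτ0
    rcases le_or_gt (s * τ.re) (k * |τ.im|) with h2 | h2
    · -- outside the sector
      have hkn : τ.re ≤ k * ‖τ‖ := by
        refine (sq_le_sq₀ h1.le (by positivity)).1 ?_
        rw [mul_pow, hn2]
        have : (s * τ.re) ^ 2 ≤ (k * |τ.im|) ^ 2 := pow_le_pow_left₀ (by positivity) h2 2
        rw [mul_pow, mul_pow, habs, hs2] at this
        nlinarith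
      have hNn : ‖τ‖ ≤ N := by
        have h3 := hN (conj τ / ‖τ‖) (by
          rw [norm_div, Complex.norm_conj, Complex.norm_real, norm_norm, div_self hnp.ne'])
          (by rw [Complex.div_ofReal_re, Complex.conj_re]; positivity)
          (by rw [Complex.div_ofReal_re, Complex.conj_re, div_le_iff₀ hnp]; exact hkn)
        have h4 : τ * (conj τ / ‖τ‖) = ((‖τ‖ : ℝ) : ℂ) := by
          rw [← mul_div_assoc, Complex.mul_conj, Complex.normSq_eq_norm_sq]
          have : (‖τ‖ : ℂ) ≠ 0 := by exact_mod_cast hnp.ne'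
          push_cast
          field_simp
        rw [h4, Complex.ofReal_re] at h3
        exact h3
      refine (G4a τ hτ0 hτ4).mono ?_
      have : ‖τ‖ ^ 2 ≤ N ^ 2 := pow_le_pow_left₀ hnn hNn 2
      linarith
    · -- in the sector
      set P : ℝ := k * τ.re + s * |τ.im| with hP
      have hP0 : 0 < P := by positivity
      have hPn : P ≤ ‖τ‖ := by
        refine (sq_le_sq₀ hP0.le hnn).1 ?_
        rw [hn2, hP, ← habs]
        have : (k * |τ.im| - s * τ.re) ^ 2 ≥ 0 := sq_nonneg _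
        nlinarith [sq_nonneg τ.re, sq_nonneg |τ.im|]
      have hPN : P ≤ N := by
        have h3 := hN ⟨k, -(σ * s)⟩ (by
          rw [← Real.sqrt_sq (norm_nonneg _), ← Complex.normSq_eq_norm_sq, Complex.normSq_apply]
          rw [show k * k + -(σ * s) * -(σ * s) = k ^ 2 + σ ^ 2 * s ^ 2 by ring, hσ1, hs2]
          rw [show k ^ 2 + 1 * (1 - k ^ 2) = 1 by ring, Real.sqrt_one]) hk0.le le_rfl
        rw [Complex.mul_re] at h3
        simp only at h3
        have h4 : τ.im * (-(σ * s)) = -(s * |τ.im|) := by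
          rw [← hσ2]; ring
        rw [h4] at h3
        rw [hP]; linarith
      have hP2 : P ^ 2 ≤ N ^ 2 := pow_le_pow_left₀ hP0.le hPN 2
      have hP3 : P ^ 2 ≤ ‖τ‖ ^ 2 := pow_le_pow_left₀ hP0.le hPn 2
      set θ : ℝ := |τ.im| / (s * P) with hθ
      have hsP : 0 < s * P := by positivity
      have hθ0 : 0 ≤ θ := by positivity
      have hθ1 : θ ≤ 1 := by
        rw [hθ, div_le_one hsP, hP]
        have : s * (k * τ.re + s * |τ.im|) = k * (s * τ.re) + s ^ 2 * |τ.im| := by ring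
        rw [this, hs2]
        nlinarith
      have hθm : θ * (s * P) = |τ.im| := by rw [hθ]; field_simp
      have hzn : ‖(⟨P * k, P * (σ * s)⟩ : ℂ)‖ = P := by
        rw [← Real.sqrt_sq (norm_nonneg _), ← Complex.normSq_eq_norm_sq, Complex.normSq_apply]
        rw [show P * k * (P * k) + P * (σ * s) * (P * (σ * s)) =
          P ^ 2 * (k ^ 2 + σ ^ 2 * s ^ 2) by ring, hσ1, hs2]
        rw [show P ^ 2 * (k ^ 2 + 1 * (1 - k ^ 2)) = P ^ 2 by ring, Real.sqrt_sq hP0.le]
      have A := G3 (P / k) (by positivity) (by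
        rw [div_lt_iff₀ hk0]; linarith [mul_comm k d₃])
      have B := G4a ⟨P * k, P * (σ * s)⟩ (by
        intro h0
        have := congrArg Complex.re h0
        simp only [Complex.zero_re] at this
        rcases mul_eq_zero.1 this with h | h
        · exact hP0.ne' h
        · exact hk0.ne' h) (by rw [hzn]; exact lt_of_le_of_lt hPn hτ4)
      apply A.comb B hθ0 hθ1
      · rw [Complex.ofReal_re]
        simp only
        have e1 : (1 - θ) * (P / k) + θ * (P * k) = (P - θ * (s * P) * s) / k := by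
          field_simp
          rw [hs2]
          ring
        rw [e1, hθm, hP]
        field_simp
        ring
      · rw [Complex.ofReal_im]
        simp only
        have e1 : (1 - θ) * 0 + θ * (P * (σ * s)) = σ * (θ * (s * P)) := by ring
        rw [e1, hθm, hσ3]
      · rw [hzn]
        simp only
        have e1 : (1 - θ) * (P / k) + θ * (P * k) = τ.re := by
          have e2 : (1 - θ) * (P / k) + θ * (P * k) = (P - θ * (s * P) * s) / k := by
            field_simp
            rw [hs2]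
            ring
          rw [e2, hθm, hP]
          field_simp
          ring
        have e3 : (1 - θ) * (1 - P / k + k ^ 2 / 4 * (P / k) ^ 2) +
            θ * (1 - P * k + (1 / 4 + ε) * P ^ 2) =
            1 - ((1 - θ) * (P / k) + θ * (P * k)) + P ^ 2 / 4 + θ * (ε * P ^ 2) := by
          field_simp
          ring
        rw [e3, e1]
        have e4 : θ * (ε * P ^ 2) ≤ 1 * (ε * P ^ 2) :=
          mul_le_mul_of_nonneg_right hθ1 (by positivity)
        have e5 : ε * P ^ 2 ≤ ε * ‖τ‖ ^ 2 := mul_le_mul_of_nonneg_left hP3 hε.le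
        linarith

end Pool.Agent.Helper5.TR
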