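import Pool.Agent.Helper5.TR.Local
set_option autoImplicit false
open Complex MeasureTheory Metric Set Filter Topology
open scoped Real ComplexConjugate

/-! Convexity of the integral means spectrum and the exponents `t ≥ 2`. -/

namespace Pool.Agent.Helper5.TR

theorem UpAt.pos {t : ℂ} {b : ℝ} (H : UpAt t b) :
    ∃ C : ℝ, 0 < C ∧ ∀ ψ h : ℂ → ℂ, Sg ψ h → ∀ R : ℝ, 1 < R →
      (2 * π)⁻¹ * (∫ θ in (0:ℝ)..(2 * π), ‖Complex.exp (t * h (R * Complex.exp (θ * I)))‖) ≤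
        C * (R ^ 2 / (R ^ 2 - 1)) ^ b := by
  obtain ⟨C, hC⟩ := H
  refine ⟨max C 1, lt_of_lt_of_le one_pos (le_max_right _ _), ?_⟩
  intro ψ h hs R hR
  refine (hC ψ h hs R hR).trans ?_
  have : 0 ≤ (R ^ 2 / (R ^ 2 - 1)) ^ b :=
    Real.rpow_nonneg (by linarith [one_lt_quot hR]) _
  exact mul_le_mul_of_nonneg_right (le_max_left _ _) this

/-- The integral means spectrum is convex (Hölder's inequality). -/
theorem UpAt.convex {t₁ t₂ : ℂ} {b₁ b₂ θ : ℝ} (H₁ : UpAt t₁ b₁) (H₂ : UpAt t₂ b₂) (h0 : 0 ≤ θ)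
    (h1 : θ ≤ 1) : UpAt ((1 - θ : ℝ) * t₁ + (θ : ℝ) * t₂) ((1 - θ) * b₁ + θ * b₂) := by
  obtain ⟨C₁, hC₁, H₁⟩ := H₁.pos
  obtain ⟨C₂, hC₂, H₂⟩ := H₂.pos
  refine ⟨C₁ ^ (1 - θ) * C₂ ^ θ, ?_⟩
  intro ψ h hs R hR
  set X : ℝ := R ^ 2 / (R ^ 2 - 1) with hX
  have hX1 : 1 < X := one_lt_quot hR
  have hX0 : 0 < X := by linarith
  set M₁ : ℝ := C₁ * X ^ b₁ with hM₁
  set M₂ : ℝ := C₂ * X ^ b₂ with hM₂
  have hM₁0 : 0 < M₁ := by positivity
  have hM₂0 : 0 < M₂ := by positivity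
  have h1θ : 0 ≤ 1 - θ := by linarith
  have hcont := hs.cont hR
  set F : ℝ → ℝ := fun s => ‖Complex.exp (t₁ * h (R * Complex.exp (s * I)))‖ with hF
  set G : ℝ → ℝ := fun s => ‖Complex.exp (t₂ * h (R * Complex.exp (s * I)))‖ with hG
  have hFc : Continuous F := (Complex.continuous_exp.comp (continuous_const.mul hcont)).norm
  have hGc : Continuous G := (Complex.continuous_exp.comp (continuous_const.mul hcont)).norm
  have hpt : ∀ s : ℝ, ‖Complex.exp (((1 - θ : ℝ) * t₁ + (θ : ℝ) * t₂) *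
      h (R * Complex.exp (s * I)))‖ ≤
      M₁ ^ (1 - θ) * M₂ ^ θ * ((1 - θ) * (F s / M₁) + θ * (G s / M₂)) := by
    intro s
    have e1 : ‖Complex.exp (((1 - θ : ℝ) * t₁ + (θ : ℝ) * t₂) * h (R * Complex.exp (s * I)))‖ =
        F s ^ (1 - θ) * G s ^ θ := by
      simp only [hF, hG]
      rw [Complex.norm_exp, Complex.norm_exp, Complex.norm_exp, ← Real.exp_mul, ← Real.exp_mul,
        ← Real.exp_add]
      congr 1
      rw [add_mul, Complex.add_re, mul_assoc, Complex.re_ofReal_mul, mul_assoc,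
        Complex.re_ofReal_mul]
      ring
    have hF0 : 0 ≤ F s := norm_nonneg _
    have hG0 : 0 ≤ G s := norm_nonneg _
    have e2 := Real.geom_mean_le_arith_mean2_weighted h1θ h0 (div_nonneg hF0 hM₁0.le)
      (div_nonneg hG0 hM₂0.le) (by ring)
    have e3 : F s ^ (1 - θ) * G s ^ θ =
        M₁ ^ (1 - θ) * M₂ ^ θ * ((F s / M₁) ^ (1 - θ) * (G s / M₂) ^ θ) := by
      rw [Real.div_rpow hF0 hM₁0.le, Real.div_rpow hG0 hM₂0.le]
      have : M₁ ^ (1 - θ) ≠ 0 := (Real.rpow_pos_of_pos hM₁0 _).ne'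
      have : M₂ ^ θ ≠ 0 := (Real.rpow_pos_of_pos hM₂0 _).ne'
      field_simp
    rw [e1, e3]
    exact mul_le_mul_of_nonneg_left e2 (by positivity)
  have hI : (∫ s in (0:ℝ)..(2 * π), ‖Complex.exp (((1 - θ : ℝ) * t₁ + (θ : ℝ) * t₂) *
      h (R * Complex.exp (s * I)))‖) ≤
      ∫ s in (0:ℝ)..(2 * π), M₁ ^ (1 - θ) * M₂ ^ θ * ((1 - θ) * (F s / M₁) + θ * (G s / M₂)) := by
    apply intervalIntegral.integral_mono_on (by positivity)
    · exact (((Complex.continuous_exp.comp (continuous_const.mul hcont)).norm).intervalIntegrable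
        _ _)
    · exact (Continuous.intervalIntegrable (by fun_prop) _ _)
    · intro s _
      exact hpt s
  have hJ : (∫ s in (0:ℝ)..(2 * π), M₁ ^ (1 - θ) * M₂ ^ θ *
      ((1 - θ) * (F s / M₁) + θ * (G s / M₂))) =
      M₁ ^ (1 - θ) * M₂ ^ θ * ((1 - θ) * ((∫ s in (0:ℝ)..(2 * π), F s) / M₁) +
        θ * ((∫ s in (0:ℝ)..(2 * π), G s) / M₂)) := by
    rw [intervalIntegral.integral_const_mul, intervalIntegral.integral_add,
      intervalIntegral.integral_const_mul, intervalIntegral.integral_const_mul,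
      intervalIntegral.integral_div, intervalIntegral.integral_div]
    · exact (Continuous.intervalIntegrable (by fun_prop) _ _)
    · exact (Continuous.intervalIntegrable (by fun_prop) _ _)
  have hπ : (0:ℝ) < (2 * π)⁻¹ := by positivity
  have g1 := H₁ ψ h hs R hR
  have g2 := H₂ ψ h hs R hR
  have k1 : (2 * π)⁻¹ * ((∫ s in (0:ℝ)..(2 * π), F s) / M₁) ≤ 1 := by
    rw [← mul_div_assoc, div_le_one hM₁0]
    exact g1
  have k2 : (2 * π)⁻¹ * ((∫ s in (0:ℝ)..(2 * π), G s) / M₂) ≤ 1 := by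
    rw [← mul_div_assoc, div_le_one hM₂0]
    exact g2
  calc (2 * π)⁻¹ * (∫ s in (0:ℝ)..(2 * π), ‖Complex.exp (((1 - θ : ℝ) * t₁ + (θ : ℝ) * t₂) *
      h (R * Complex.exp (s * I)))‖)
      ≤ (2 * π)⁻¹ * (M₁ ^ (1 - θ) * M₂ ^ θ * ((1 - θ) * ((∫ s in (0:ℝ)..(2 * π), F s) / M₁) +
        θ * ((∫ s in (0:ℝ)..(2 * π), G s) / M₂))) := by
        rw [← hJ]
        exact mul_le_mul_of_nonneg_left hI hπ.le
    _ = M₁ ^ (1 - θ) * M₂ ^ θ * ((1 - θ) * ((2 * π)⁻¹ * ((∫ s in (0:ℝ)..(2 * π), F s) / M₁)) +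
        θ * ((2 * π)⁻¹ * ((∫ s in (0:ℝ)..(2 * π), G s) / M₂))) := by ring
    _ ≤ M₁ ^ (1 - θ) * M₂ ^ θ * ((1 - θ) * 1 + θ * 1) := by
        apply mul_le_mul_of_nonneg_left _ (by positivity)
        exact add_le_add (mul_le_mul_of_nonneg_left k1 h1θ) (mul_le_mul_of_nonneg_left k2 h0)
    _ = C₁ ^ (1 - θ) * C₂ ^ θ * X ^ ((1 - θ) * b₁ + θ * b₂) := by
        rw [hM₁, hM₂, Real.mul_rpow hC₁.le (by positivity), Real.mul_rpow hC₂.le (by positivity),
          ← Real.rpow_mul hX0.le, ← Real.rpow_mul hX0.le, Real.rpow_add hX0]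
        rw [mul_comm b₁, mul_comm b₂]
        ring

/-- a larger exponent -/
theorem UpAt.mono {t : ℂ} {b b' : ℝ} (H : UpAt t b) (h : b ≤ b') : UpAt t b' := by
  obtain ⟨C, hC, H⟩ := H.pos
  refine ⟨C, ?_⟩
  intro ψ g hs R hR
  refine (H ψ g hs R hR).trans ?_
  exact mul_le_mul_of_nonneg_left
    (Real.rpow_le_rpow_of_exponent_le (one_lt_quot hR).le h) hC.le

/-- moments `2 + y`, `y ≥ 0` -/
theorem up_ge {y : ℝ} (hy : 0 ≤ y) : UpAt ((2 + y : ℝ) : ℂ) (1 + y) := by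
  obtain ⟨C, hC, H⟩ := up_two.pos
  refine ⟨C, ?_⟩
  intro ψ h hs R hR
  set X : ℝ := R ^ 2 / (R ^ 2 - 1) with hX
  have hX1 : 1 < X := one_lt_quot hR
  have hX0 : 0 < X := by linarith
  have hcont := hs.cont hR
  have hpt : ∀ s : ℝ, ‖Complex.exp (((2 + y : ℝ) : ℂ) * h (R * Complex.exp (s * I)))‖ ≤
      X ^ y * ‖Complex.exp (2 * h (R * Complex.exp (s * I)))‖ := by
    intro s
    have e1 : ((2 + y : ℝ) : ℂ) * h (R * Complex.exp (s * I)) =
        (y : ℂ) * h (R * Complex.exp (s * I)) + 2 * h (R * Complex.exp (s * I)) := by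
      push_cast
      ring
    rw [e1, Complex.exp_add, norm_mul]
    apply mul_le_mul_of_nonneg_right _ (norm_nonneg _)
    rw [Complex.norm_exp, Real.rpow_def_of_pos hX0, mul_comm (Real.log X)]
    apply Real.exp_le_exp.2
    rw [Complex.re_ofReal_mul]
    apply mul_le_mul_of_nonneg_left _ hy
    exact (Complex.re_le_norm _).trans (hs.le hR s)
  have hI : (∫ s in (0:ℝ)..(2 * π), ‖Complex.exp (((2 + y : ℝ) : ℂ) *
      h (R * Complex.exp (s * I)))‖) ≤
      ∫ s in (0:ℝ)..(2 * π), X ^ y * ‖Complex.exp (2 * h (R * Complex.exp (s * I)))‖ := by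
    apply intervalIntegral.integral_mono_on (by positivity)
    · exact (((Complex.continuous_exp.comp (continuous_const.mul hcont)).norm).intervalIntegrable
        _ _)
    · exact ((continuous_const.mul
        (Complex.continuous_exp.comp (continuous_const.mul hcont)).norm).intervalIntegrable _ _)
    · intro s _
      exact hpt s
  rw [intervalIntegral.integral_const_mul] at hI
  calc (2 * π)⁻¹ * (∫ s in (0:ℝ)..(2 * π), ‖Complex.exp (((2 + y : ℝ) : ℂ) *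
      h (R * Complex.exp (s * I)))‖)
      ≤ (2 * π)⁻¹ * (X ^ y * ∫ s in (0:ℝ)..(2 * π),
        ‖Complex.exp (2 * h (R * Complex.exp (s * I)))‖) :=
        mul_le_mul_of_nonneg_left hI (by positivity)
    _ = X ^ y * ((2 * π)⁻¹ * ∫ s in (0:ℝ)..(2 * π),
        ‖Complex.exp (2 * h (R * Complex.exp (s * I)))‖) := by ring
    _ ≤ X ^ y * (C * X ^ (1:ℝ)) := mul_le_mul_of_nonneg_left (H ψ h hs R hR) (by positivity)
    _ = C * X ^ (1 + y) := by
        rw [Real.rpow_add hX0]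
        ring

end Pool.Agent.Helper5.TR
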