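import Pool.Agent.Helper5.TR.Use
import Pool.Agent.Helper71.EKC.Oct
set_option autoImplicit false
open Complex MeasureTheory Metric Set Filter Topology
open scoped Real ComplexConjugate

/-! The region of `ExactSpectrum` (landed): `9 (3|t| - Re t) ≤ 4 |t| (|t| - Re t)`. -/

namespace Pool.Agent.Helper5.TR

theorem ex_landed {t : ℂ} (ht : t ≠ 0) (hreg : 9 * (3 * ‖t‖ - t.re) ≤ 4 * ‖t‖ * (‖t‖ - t.re)) :
    Ex t :=
  Ex.of_raw (Pool.Agent.Helper96.EKC.upper Pool.Agent.Helper71.EKC.cover ht hreg)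

/-- every `a < 1`, the set `|h| ≥ (1 - (1 - a)²/13) L` -/
theorem landed_all : ∀ a : ℝ, 0 < a → a < 1 → ∃ C : ℝ, ∀ ψ h : ℂ → ℂ,
      DifferentiableOn ℂ ψ {z : ℂ | 1 < ‖z‖} →
      InjOn ψ {z : ℂ | 1 < ‖z‖} →
      (∃ b : ℂ, Tendsto (fun z => ψ z - z) (Bornology.cobounded ℂ) (𝓝 b)) →
      DifferentiableOn ℂ h {z : ℂ | 1 < ‖z‖} →
      (∀ z : ℂ, 1 < ‖z‖ → Complex.exp (h z) = deriv ψ z) →
      Tendsto h (Bornology.cobounded ℂ) (𝓝 0) →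
      ∀ R : ℝ, 1 < R →
        (1 / (2 * π)) * (∫ θ in (0:ℝ)..(2 * π),
          if (1 - 1 / 13 * (1 - a) ^ 2) * Real.log (R ^ 2 / (R ^ 2 - 1)) ≤
              ‖h ((R:ℂ) * Complex.exp ((θ:ℂ) * I))‖ then
            Real.exp (a * ‖h ((R:ℂ) * Complex.exp ((θ:ℂ) * I))‖ ^ 2 /
              Real.log (R ^ 2 / (R ^ 2 - 1)))
          else 0) ≤ C := by
  apply marshall_all (p := 9 / 4) (q := 9 / 4) (η := 1 / 13) (τ := 21 / 25)
  · norm_num
  · norm_num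
  · norm_num
  · norm_num
  · norm_num
  · norm_num
  · intro t ht hreg
    apply ex_landed
    · intro h0
      rw [h0] at ht
      simp at ht
    · nlinarith

/-- the contracting half plane, explicit threshold -/
theorem landed_left : ∀ a ρ : ℝ, a ≤ 1 → 0 < ρ → a * ρ ^ 2 < 1 - 27 / 4 * (1 - ρ) →
    ∃ C : ℝ, ∀ ψ h : ℂ → ℂ,
      DifferentiableOn ℂ ψ {z : ℂ | 1 < ‖z‖} →
      InjOn ψ {z : ℂ | 1 < ‖z‖} →
      (∃ b : ℂ, Tendsto (fun z => ψ z - z) (Bornology.cobounded ℂ) (𝓝 b)) →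
      DifferentiableOn ℂ h {z : ℂ | 1 < ‖z‖} →
      (∀ z : ℂ, 1 < ‖z‖ → Complex.exp (h z) = deriv ψ z) →
      Tendsto h (Bornology.cobounded ℂ) (𝓝 0) →
      ∀ R : ℝ, 1 < R →
        (1 / (2 * π)) * (∫ θ in (0:ℝ)..(2 * π),
          if ρ * Real.log (R ^ 2 / (R ^ 2 - 1)) ≤ ‖h ((R:ℂ) * Complex.exp ((θ:ℂ) * I))‖ ∧
              (h ((R:ℂ) * Complex.exp ((θ:ℂ) * I))).re ≤ 0 then
            Real.exp (a * ‖h ((R:ℂ) * Complex.exp ((θ:ℂ) * I))‖ ^ 2 /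
              Real.log (R ^ 2 / (R ^ 2 - 1)))
          else 0) ≤ C := by
  apply marshall_left (k := 27 / 4) (by norm_num)
  intro t ht hn
  apply ex_landed
  · intro h0
    rw [h0] at hn
    norm_num at hn
  · rw [hn]; nlinarith

end Pool.Agent.Helper5.TR
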