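import Pool.Agent.Helper5.TR.Union
import Pool.Agent.Helper5.TR.Landed

set_option autoImplicit false

/-! Draft of the Result file `MP_16b0ee_an/MarshallExtreme` (with the region of `ExactSpectrum`). -/

namespace Pool.Agent.Helper5.TR.Draft

/-- The integral of Q1 restricted to the set where `|h| ≥ (1 - (1 - a)²/13) L`, or `Re h ≤ 0` and
`|h| ≥ s L`, is bounded, uniformly in the class Sigma and in `R > 1`, for every `a < 1` and every
`s > 0` with `a s² < 1 - (27/4) (1 - s)`; here `h = log ψ'` and `L = log (R² / (R² - 1))`. -/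
theorem result :
    ∀ a s : ℝ, 0 < a → a < 1 → 0 < s → a * s ^ 2 < 1 - 27 / 4 * (1 - s) →
      ∃ C : ℝ, ∀ ψ h : ℂ → ℂ,
      DifferentiableOn ℂ ψ {z : ℂ | 1 < ‖z‖} →
      Set.InjOn ψ {z : ℂ | 1 < ‖z‖} →
      (∃ b : ℂ, Filter.Tendsto (fun z => ψ z - z) (Bornology.cobounded ℂ) (nhds b)) →
      DifferentiableOn ℂ h {z : ℂ | 1 < ‖z‖} →
      (∀ z : ℂ, 1 < ‖z‖ → Complex.exp (h z) = deriv ψ z) →
      Filter.Tendsto h (Bornology.cobounded ℂ) (nhds 0) →
      ∀ R : ℝ, 1 < R →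
        (1 / (2 * Real.pi)) * (∫ θ in (0:ℝ)..(2 * Real.pi),
          if (1 - 1 / 13 * (1 - a) ^ 2) * Real.log (R ^ 2 / (R ^ 2 - 1)) ≤
              ‖h ((R:ℂ) * Complex.exp ((θ:ℂ) * Complex.I))‖ ∨
              (h ((R:ℂ) * Complex.exp ((θ:ℂ) * Complex.I))).re ≤ 0 ∧
              s * Real.log (R ^ 2 / (R ^ 2 - 1)) ≤
                ‖h ((R:ℂ) * Complex.exp ((θ:ℂ) * Complex.I))‖ then
            Real.exp (a * ‖h ((R:ℂ) * Complex.exp ((θ:ℂ) * Complex.I))‖ ^ 2 /
              Real.log (R ^ 2 / (R ^ 2 - 1)))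
          else 0) ≤ C := by
  have H := marshall_extreme (p := 9 / 4) (q := 9 / 4) (c := 9 / 2) (d := 9 / 4) (η := 1 / 13)
    (τ := 21 / 25) (by norm_num) (by norm_num) (by norm_num) (by norm_num) (by norm_num)
    (by norm_num) (by norm_num) (by norm_num) (by norm_num) (by norm_num)
    (by
      intro t _ ht hreg
      apply ex_landed
      · intro h0
        rw [h0] at ht
        simp at ht
      · nlinarith)
    (by
      intro t _ h0 hreg
      exact ex_landed h0 (by nlinarith))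
  intro a s ha0 ha1 hs h
  exact H a s ha0 ha1 hs (by rw [show (9:ℝ) / 2 + 9 / 4 = 27 / 4 by norm_num]; exact h)

end Pool.Agent.Helper5.TR.Draft
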