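import Pool.Agent.Helper5.TR.Four
import Pool.Agent.Helper99.CKC.A9.Main
import Pool.Agent.Helper99.CKC.B9.Main
import Pool.Agent.Helper98.CKY.S4.Main

set_option autoImplicit false

/-! Root of the hand-in `MarshallExtreme` (constants of ExactSpectrum v6) for the slim / merge
tools. -/

namespace Pool.Agent.Results.MP_16b0ee_an.MarshallExtreme

open Pool.Agent.Helper5.TR in
/-- The integral of Q1 restricted to the set where `|h| ≥ (1 - 3 (1 - a)²/25) L`, or `Re h ≤ 0` and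
`|h| ≥ s L`, is bounded, uniformly in the class Sigma and in `R > 1`, for every `a < 1` and every
`s > 0` with `a s² < 1 - 2.6459 (1 - s)`; here `h = log ψ'` and `L = log (R² / (R² - 1))`. -/
theorem result :
    ∀ a s : ℝ, 0 < a → a < 1 → 0 < s → a * s ^ 2 < 1 - 26459 / 10000 * (1 - s) →
      ∃ C : ℝ, ∀ ψ h : ℂ → ℂ,
      DifferentiableOn ℂ ψ {z : ℂ | 1 < ‖z‖} →
      Set.InjOn ψ {z : ℂ | 1 < ‖z‖} →
      (∃ b : ℂ, Filter.Tendsto (fun z => ψ z - z) (Bornology.cobounded ℂ) (nhds b)) →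
      DifferentiableOn ℂ h {z : ℂ | 1 < ‖z‖} →
      (∀ z : ℂ, 1 < ‖z‖ → Complex.exp (h z) = deriv ψ z) →
      Filter.Tendsto h (Bornology.cobounded ℂ) (nhds 0) →
      ∀ R : ℝ, 1 < R →
        (1 / (2 * Real.pi)) * (∫ θ in (0:ℝ)..(2 * Real.pi),
          if (1 - 3 / 25 * (1 - a) ^ 2) * Real.log (R ^ 2 / (R ^ 2 - 1)) ≤
              ‖h ((R:ℂ) * Complex.exp ((θ:ℂ) * Complex.I))‖ ∨
              (h ((R:ℂ) * Complex.exp ((θ:ℂ) * Complex.I))).re ≤ 0 ∧
              s * Real.log (R ^ 2 / (R ^ 2 - 1)) ≤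
                ‖h ((R:ℂ) * Complex.exp ((θ:ℂ) * Complex.I))‖ then
            Real.exp (a * ‖h ((R:ℂ) * Complex.exp ((θ:ℂ) * Complex.I))‖ ^ 2 /
              Real.log (R ^ 2 / (R ^ 2 - 1)))
          else 0) ≤ C :=
  extreme_four Pool.Agent.Helper99.CKC.A9.secH Pool.Agent.Helper99.CKC.B9.secI
    Pool.Agent.Helper98.CKY.S4.secU

end Pool.Agent.Results.MP_16b0ee_an.MarshallExtreme
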