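import Pool.Agent.Helper5.TR.Trunc
set_option autoImplicit false
open Complex MeasureTheory Metric Set Filter Topology
open scoped Real ComplexConjugate

/-! Conversion from the raw form of the moment bounds. -/

namespace Pool.Agent.Helper5.TR

/-- raw form of the moment bound (the same proposition as `Helper58.CKC.SigC t b`) -/
def Raw (t : ℂ) (b : ℝ) : Prop :=
  ∃ C : ℝ, ∀ ψ h : ℂ → ℂ, DifferentiableOn ℂ ψ {z : ℂ | 1 < ‖z‖} →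
    InjOn ψ {z : ℂ | 1 < ‖z‖} →
    (∃ b : ℂ, Filter.Tendsto (fun z => ψ z - z) (Bornology.cobounded ℂ) (nhds b)) →
    DifferentiableOn ℂ h {z : ℂ | 1 < ‖z‖} →
    (∀ z : ℂ, 1 < ‖z‖ → Complex.exp (h z) = deriv ψ z) →
    Filter.Tendsto h (Bornology.cobounded ℂ) (nhds 0) →
    ∀ R : ℝ, 1 < R →
    (2 * π)⁻¹ * (∫ θ in (0:ℝ)..(2 * π), ‖Complex.exp (t * h (R * Complex.exp (θ * I)))‖) ≤
      C * (R ^ 2 / (R ^ 2 - 1)) ^ b

theorem UpAt.of_raw {t : ℂ} {b : ℝ} (H : Raw t b) : UpAt t b := by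
  obtain ⟨C, hC⟩ := H
  exact ⟨C, fun ψ h hs R hR => hC ψ h hs.diff hs.inj hs.lim hs.hdiff hs.hexp hs.hlim R hR⟩

/-- exactness with or without loss gives `Ex` -/
theorem Ex.of_raw {t : ℂ} (H : Raw t (‖t‖ - 1)) : Ex t := by
  obtain ⟨C, hC⟩ := H
  intro e he
  refine ⟨|C|, fun ψ h hs R hR => ?_⟩
  refine (hC ψ h hs.diff hs.inj hs.lim hs.hdiff hs.hexp hs.hlim R hR).trans ?_
  have h1 := one_lt_quot hR
  have h2 : (R ^ 2 / (R ^ 2 - 1)) ^ (‖t‖ - 1) ≤ (R ^ 2 / (R ^ 2 - 1)) ^ (‖t‖ - 1 + e) :=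
    Real.rpow_le_rpow_of_exponent_le h1.le (by linarith)
  have h3 : 0 ≤ (R ^ 2 / (R ^ 2 - 1)) ^ (‖t‖ - 1) := by positivity
  calc C * (R ^ 2 / (R ^ 2 - 1)) ^ (‖t‖ - 1)
      ≤ |C| * (R ^ 2 / (R ^ 2 - 1)) ^ (‖t‖ - 1) := mul_le_mul_of_nonneg_right (le_abs_self C) h3
    _ ≤ |C| * (R ^ 2 / (R ^ 2 - 1)) ^ (‖t‖ - 1 + e) :=
        mul_le_mul_of_nonneg_left h2 (abs_nonneg C)

theorem Ex.of_weak {t : ℂ} (H : ∀ e : ℝ, 0 < e → Raw t (‖t‖ - 1 + e)) : Ex t :=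
  fun e he => UpAt.of_raw (H e he)

end Pool.Agent.Helper5.TR
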