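import Pool.Agent.Helper5.TR.Union3
import Pool.Agent.Helper5.TR.Use
import Pool.Agent.Helper96.CKF.Two
import Pool.Agent.Helper96.CKF.Cone
set_option autoImplicit false
open Complex MeasureTheory Metric Set Filter Topology
open scoped Real ComplexConjugate

/-! The extreme part of the integral of Q1 from three certificates of the arcs. -/

namespace Pool.Agent.Helper5.TR

open Pool.Agent.Helper33.CKC (SecH)
open Pool.Agent.Helper65.CKC (SecI)
open Pool.Agent.Helper65.CKY (SecU)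

theorem extreme_four (HA : SecH (21865/10000) (2702/10000) (1/2))
    (HB : SecI (21401/10000) (5058/10000) (1/2) (1/1))
    (HU : SecU (15150/10000) (15150/10000) (1/1)) :
    ∀ a s : ℝ, 0 < a → a < 1 → 0 < s → a * s ^ 2 < 1 - 26459 / 10000 * (1 - s) →
      ∃ C : ℝ, ∀ ψ h : ℂ → ℂ,
      DifferentiableOn ℂ ψ {z : ℂ | 1 < ‖z‖} →
      InjOn ψ {z : ℂ | 1 < ‖z‖} →
      (∃ b : ℂ, Tendsto (fun z => ψ z - z) (Bornology.cobounded ℂ) (𝓝 b)) →
      DifferentiableOn ℂ h {z : ℂ | 1 < ‖z‖} →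
      (∀ z : ℂ, 1 < ‖z‖ → Complex.exp (h z) = deriv ψ z) →
      Tendsto h (Bornology.cobounded ℂ) (𝓝 0) →
      ∀ R : ℝ, 1 < R →
        (1 / (2 * π)) * (∫ θ in (0:ℝ)..(2 * π),
          if (1 - 3 / 25 * (1 - a) ^ 2) * Real.log (R ^ 2 / (R ^ 2 - 1)) ≤
              ‖h ((R:ℂ) * Complex.exp ((θ:ℂ) * I))‖ ∨
              (h ((R:ℂ) * Complex.exp ((θ:ℂ) * I))).re ≤ 0 ∧
              s * Real.log (R ^ 2 / (R ^ 2 - 1)) ≤ ‖h ((R:ℂ) * Complex.exp ((θ:ℂ) * I))‖ then
            Real.exp (a * ‖h ((R:ℂ) * Complex.exp ((θ:ℂ) * I))‖ ^ 2 /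
              Real.log (R ^ 2 / (R ^ 2 - 1)))
          else 0) ≤ C := by
  have H := marshall_union (p := 0) (q := 15150 / 10000) (k := 26459 / 10000) (η := 3 / 25)
    (τ := 37 / 50) (d₀ := 1) (by norm_num) (by norm_num) (by norm_num) (by norm_num) (by norm_num)
    (by norm_num) (by norm_num) (by norm_num) (by norm_num) (by norm_num)
    (by
      intro t h0 ht hreg
      have hn : 0 < ‖t‖ := h0.trans ht
      have ht0 : t ≠ 0 := norm_pos_iff.1 hn
      have h1 : 2 * (15150 / 10000) ≤ ‖t‖ - t.re := by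
        have h2 : ‖t‖ * (2 * (15150 / 10000)) ≤ ‖t‖ * (‖t‖ - t.re) := by linarith
        exact le_of_mul_le_mul_left h2 hn
      apply Ex.of_weak
      intro e he
      exact (Pool.Agent.Helper96.CKF.cone (by norm_num) HU ht0 h0.le h1 he).1)
    (by
      intro t ht hn
      have hn0 : 0 < ‖t‖ := by rw [hn]; norm_num
      have ht0 : t ≠ 0 := norm_pos_iff.1 hn0
      have h3 : -t.re ≤ ‖t‖ := (neg_le_abs _).trans (Complex.abs_re_le_norm t)
      apply Ex.of_weak
      intro e he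
      refine (Pool.Agent.Helper96.CKF.two_arcs (by norm_num) (by norm_num) (by norm_num)
        (by norm_num) HA HB ht0 ht ?_ ?_ he).1
      · rw [hn] at h3 ⊢
        nlinarith
      · rw [hn] at h3 ⊢
        nlinarith)
  intro a s ha0 ha1 hs h
  exact H a s (by linarith) ha1 hs h

end Pool.Agent.Helper5.TR
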