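import Pool.Agent.Helper5.TR.Comb
import Pool.Agent.Helper39.G4L.Two
import Pool.Agent.Helper26.G4.Defs2
set_option autoImplicit false
open Complex MeasureTheory Metric Set Filter Topology
open scoped Real ComplexConjugate

/-! The second order of the spectrum at `2`: one statement for all directions. `gauge`: from the bound
for all complex exponents and the strict bound in the sectors of the right half plane; `gauge_real`:
from the bound for all complex exponents and the strict bound for real exponents below `2`;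
`near_two`, `near_two_real`: together with the lower bound. -/

namespace Pool.Agent.Helper5.TR

open Pool.Agent.Helper39.G4L (Low low_near Upper)

/-- closed left half plane: from the bound for complex exponents and Hölder's inequality -/
theorem left_half
    (G4 : ∀ ε : ℝ, 0 < ε → ∃ d : ℝ, 0 < d ∧ ∀ τ : ℂ, τ ≠ 0 → ‖τ‖ < d →
      UpAt (2 - τ) (1 - τ.re + (1 / 4 + ε) * ‖τ‖ ^ 2)) :
    ∀ ε : ℝ, 0 < ε → ∃ d : ℝ, 0 < d ∧ ∀ τ : ℂ, ‖τ‖ < d → τ.re ≤ 0 →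
      UpAt (2 - τ) (1 - τ.re + τ.im ^ 2 / 4 + ε * ‖τ‖ ^ 2) := by
  intro ε hε
  obtain ⟨d₅, hd₅, G4b⟩ := G4 (ε / 2) (by positivity)
  set e : ℝ := (ε / 2) / (1 / 4 + ε) with he
  have he0 : 0 < e := by positivity
  have heε : e * (1 / 4 + ε) = ε / 2 := by rw [he]; field_simp
  refine ⟨min (d₅ / 2) (min e (1 / 2)), by positivity, ?_⟩
  intro τ hτ h1
  have hτ5 : ‖τ‖ < d₅ / 2 := hτ.trans_le (min_le_left _ _)
  have hτe : ‖τ‖ < e := hτ.trans_le ((min_le_right _ _).trans (min_le_left _ _))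
  have hτh : ‖τ‖ < 1 / 2 := hτ.trans_le ((min_le_right _ _).trans (min_le_right _ _))
  have hn2 : ‖τ‖ ^ 2 = τ.re ^ 2 + τ.im ^ 2 := by
    rw [← Complex.normSq_eq_norm_sq, Complex.normSq_apply]; ring
  have hnn : 0 ≤ ‖τ‖ := norm_nonneg τ
  have habs : |τ.im| ^ 2 = τ.im ^ 2 := sq_abs _
  have hab0 : 0 ≤ |τ.im| := abs_nonneg _
  have habn : |τ.im| ≤ ‖τ‖ := Complex.abs_im_le_norm τ
  have harn : |τ.re| ≤ ‖τ‖ := Complex.abs_re_le_norm τ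
  by_cases him : τ.im = 0
  · have h2 := up_ge (y := -τ.re) (by linarith)
    have h3 : ((2 + -τ.re : ℝ) : ℂ) = 2 - τ := by
      apply Complex.ext
      · simp [sub_eq_add_neg]
      · simp [him]
    rw [h3] at h2
    refine h2.mono ?_
    have : 0 ≤ ε * ‖τ‖ ^ 2 := by positivity
    nlinarith [sq_nonneg τ.im]
  · set θ : ℝ := 1 + τ.re with hθ
    have hre : -τ.re ≤ ‖τ‖ := (neg_le_abs _).trans harn
    have hθ0 : 1 / 2 < θ := by rw [hθ]; linarith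
    have hθ1 : θ ≤ 1 := by rw [hθ]; linarith
    have hθp : 0 < θ := by linarith
    have hz : ‖(⟨0, τ.im / θ⟩ : ℂ)‖ = |τ.im| / θ := by
      rw [← Real.sqrt_sq (norm_nonneg _), ← Complex.normSq_eq_norm_sq, Complex.normSq_apply]
      rw [show (0:ℝ) * 0 + τ.im / θ * (τ.im / θ) = (τ.im / θ) ^ 2 by ring, Real.sqrt_sq_eq_abs,
        abs_div, abs_of_pos hθp]
    have hz1 : |τ.im| / θ < d₅ := by
      rw [div_lt_iff₀ hθp]
      nlinarith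
    have A := up_ge (y := 1) zero_le_one
    have A' : UpAt (2 - (-1 : ℂ)) (1 + 1) := by
      have : (2 - (-1 : ℂ)) = ((2 + 1 : ℝ) : ℂ) := by push_cast; ring
      rw [this]; exact A
    have B := G4b ⟨0, τ.im / θ⟩ (by
      intro h0
      have := congrArg Complex.im h0
      simp only [Complex.zero_im] at this
      rcases div_eq_zero_iff.1 this with h | h
      · exact him h
      · exact hθp.ne' h) (by rw [hz]; exact hz1)
    apply A'.comb B hθp.le hθ1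
    · simp only [Complex.neg_re, Complex.one_re]
      rw [hθ]; ring
    · simp only [Complex.neg_im, Complex.one_im]
      field_simp
      ring
    · rw [hz]
      simp only
      have e1 : θ * (1 - 0 + (1 / 4 + ε / 2) * (|τ.im| / θ) ^ 2) =
          θ + (1 / 4 + ε / 2) * (τ.im ^ 2 / θ) := by
        rw [div_pow, habs]; field_simp
        ring
      have e2 : (1 / 4 + ε / 2) * (τ.im ^ 2 / θ) ≤ (1 / 4 + ε) * τ.im ^ 2 := by
        rw [← mul_div_assoc, div_le_iff₀ hθp]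
        have e3 : 1 / 4 + ε / 2 ≤ (1 / 4 + ε) * θ := by
          rw [hθ]
          nlinarith
        nlinarith [sq_nonneg τ.im]
      rw [e1]
      have e4 : (1 - θ) * (1 + 1) + θ = 1 - τ.re := by rw [hθ]; ring
      have e5 : ε * τ.im ^ 2 ≤ ε * ‖τ‖ ^ 2 :=
        mul_le_mul_of_nonneg_left (by rw [hn2]; nlinarith [sq_nonneg τ.re]) hε.le
      linarith

/-- a positive lower bound for finitely many positive numbers -/
theorem exists_low (d : ℕ → ℝ) (hd : ∀ n, 0 < d n) (N : ℕ) :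
    ∃ D : ℝ, 0 < D ∧ ∀ n < N, D ≤ d n := by
  induction N with
  | zero => exact ⟨1, one_pos, fun n hn => absurd hn (Nat.not_lt_zero n)⟩
  | succ N ih =>
    obtain ⟨D, hD, h⟩ := ih
    refine ⟨min D (d N), lt_min hD (hd N), fun n hn => ?_⟩
    rcases Nat.lt_succ_iff_lt_or_eq.1 hn with h1 | h1
    · exact (min_le_left _ _).trans (h n h1)
    · rw [h1]; exact min_le_right _ _

/-- all directions, from the bound for complex exponents and the strict bound in the sectors of the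
right half plane -/
theorem gauge
    (G4 : ∀ ε : ℝ, 0 < ε → ∃ d : ℝ, 0 < d ∧ ∀ τ : ℂ, τ ≠ 0 → ‖τ‖ < d →
      UpAt (2 - τ) (1 - τ.re + (1 / 4 + ε) * ‖τ‖ ^ 2))
    (G5 : ∀ e : ℝ, 0 < e → ∃ c : ℝ, 0 < c ∧ ∃ d : ℝ, 0 < d ∧ ∀ τ : ℂ, τ ≠ 0 → ‖τ‖ < d →
      e * ‖τ‖ ≤ τ.re → UpAt (2 - τ) (1 - τ.re + (1 / 4 - c) * ‖τ‖ ^ 2)) :
    ∃ q : ℝ → ℝ, (∀ s : ℝ, s ≤ 0 → q s = 1 - s ^ 2) ∧ (∀ s : ℝ, 0 < s → q s < 1) ∧
      ∀ ε : ℝ, 0 < ε → ∃ d : ℝ, 0 < d ∧ ∀ τ : ℂ, τ ≠ 0 → ‖τ‖ < d →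
        UpAt (2 - τ) (1 - τ.re + (q (τ.re / ‖τ‖) / 4 + ε) * ‖τ‖ ^ 2) := by
  have H : ∀ n : ℕ, ∃ c : ℝ, 0 < c ∧ ∃ d : ℝ, 0 < d ∧ ∀ τ : ℂ, τ ≠ 0 → ‖τ‖ < d →
      1 / ((n : ℝ) + 1) * ‖τ‖ ≤ τ.re → UpAt (2 - τ) (1 - τ.re + (1 / 4 - c) * ‖τ‖ ^ 2) :=
    fun n => G5 _ (by positivity)
  choose c hc d hd H using H
  refine ⟨fun s => if s ≤ 0 then 1 - s ^ 2 else
    1 - 4 * min (c ⌈1 / s⌉₊) (1 / ((⌈1 / s⌉₊ : ℝ) + 1)), ?_, ?_, ?_⟩
  · intro s hs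
    simp only [if_pos hs]
  · intro s hs
    simp only [if_neg (not_le.2 hs)]
    have : 0 < min (c ⌈1 / s⌉₊) (1 / ((⌈1 / s⌉₊ : ℝ) + 1)) := lt_min (hc _) (by positivity)
    linarith
  · intro ε hε
    obtain ⟨N, hN⟩ := exists_nat_one_div_lt (K := ℝ) (show (0:ℝ) < ε / 2 by positivity)
    obtain ⟨D, hD, hDd⟩ := exists_low d hd N
    obtain ⟨d₁, hd₁, h₁⟩ := left_half G4 ε hε
    obtain ⟨d₂, hd₂, h₂⟩ := G4 (ε / 2) (by positivity)
    refine ⟨min D (min d₁ d₂), lt_min hD (lt_min hd₁ hd₂), ?_⟩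
    intro τ h0 hτ
    have hτD : ‖τ‖ < D := hτ.trans_le (min_le_left _ _)
    have hτ1 : ‖τ‖ < d₁ := hτ.trans_le ((min_le_right _ _).trans (min_le_left _ _))
    have hτ2 : ‖τ‖ < d₂ := hτ.trans_le ((min_le_right _ _).trans (min_le_right _ _))
    have hn : 0 < ‖τ‖ := norm_pos_iff.2 h0
    have hn2 : ‖τ‖ ^ 2 = τ.re ^ 2 + τ.im ^ 2 := by
      rw [← Complex.normSq_eq_norm_sq, Complex.normSq_apply]; ring
    rcases le_or_gt τ.re 0 with h | h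
    · have hs : τ.re / ‖τ‖ ≤ 0 := div_nonpos_of_nonpos_of_nonneg h hn.le
      simp only [if_pos hs]
      refine (h₁ τ hτ1 h).mono (le_of_eq ?_)
      have : (τ.re / ‖τ‖) ^ 2 * ‖τ‖ ^ 2 = τ.re ^ 2 := by
        rw [div_pow]; field_simp
      have e1 : ((1 - (τ.re / ‖τ‖) ^ 2) / 4 + ε) * ‖τ‖ ^ 2 =
          (‖τ‖ ^ 2 - (τ.re / ‖τ‖) ^ 2 * ‖τ‖ ^ 2) / 4 + ε * ‖τ‖ ^ 2 := by ring
      rw [e1, this, hn2]
      ring
    · have hs : 0 < τ.re / ‖τ‖ := div_pos h hn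
      simp only [if_neg (not_le.2 hs)]
      set s : ℝ := τ.re / ‖τ‖ with hsd
      set n : ℕ := ⌈1 / s⌉₊ with hnd
      have hns : 1 / s ≤ (n : ℝ) := Nat.le_ceil _
      have hsec : 1 / ((n : ℝ) + 1) * ‖τ‖ ≤ τ.re := by
        have e1 : τ.re = s * ‖τ‖ := by rw [hsd]; field_simp
        rw [e1]
        apply mul_le_mul_of_nonneg_right _ hn.le
        rw [div_le_iff₀ (by positivity)]
        rw [div_le_iff₀ hs] at hns
        nlinarith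
      rcases lt_or_ge n N with hnN | hnN
      · refine (H n τ h0 (hτD.trans_le (hDd n hnN)) hsec).mono ?_
        have e1 : min (c n) (1 / ((n : ℝ) + 1)) ≤ c n := min_le_left _ _
        have e2 : (1 / 4 - c n) * ‖τ‖ ^ 2 ≤
            ((1 - 4 * min (c n) (1 / ((n : ℝ) + 1))) / 4 + ε) * ‖τ‖ ^ 2 :=
          mul_le_mul_of_nonneg_right (by linarith) (by positivity)
        linarith
      · refine (h₂ τ h0 hτ2).mono ?_
        have e0 : 1 / ((n : ℝ) + 1) ≤ 1 / ((N : ℝ) + 1) := by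
          apply one_div_le_one_div_of_le (by positivity)
          have : (N : ℝ) ≤ n := by exact_mod_cast hnN
          linarith
        have e1 : min (c n) (1 / ((n : ℝ) + 1)) ≤ 1 / ((n : ℝ) + 1) := min_le_right _ _
        have e2 : (1 / 4 + ε / 2) * ‖τ‖ ^ 2 ≤
            ((1 - 4 * min (c n) (1 / ((n : ℝ) + 1))) / 4 + ε) * ‖τ‖ ^ 2 :=
          mul_le_mul_of_nonneg_right (by linarith) (by positivity)
        linarith

/-- conversion: my class with `h` differentiable to the form with all conditions written out -/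
theorem UpAt.upper {t : ℂ} {s : ℝ} (H : UpAt t s) : Upper t s := by
  obtain ⟨C, hC⟩ := H
  exact ⟨C, fun ψ h a1 a2 a3 a4 a5 a6 R hR => hC ψ h ⟨a1, a2, a3, a4, a5, a6⟩ R hR⟩

/-- conversion from the class with `h` continuous -/
theorem upAt_of_sg {t : ℂ} {s : ℝ}
    (H : ∃ C : ℝ, ∀ ψ h : ℂ → ℂ, Pool.Agent.Helper26.G4.Sg ψ h → ∀ R : ℝ, 1 < R →
      (1 / (2 * π)) * ∫ θ in (0:ℝ)..(2 * π),
        ‖Complex.exp (t * h ((R : ℂ) * Complex.exp ((θ : ℂ) * Complex.I)))‖ ≤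
      C * (R ^ 2 / (R ^ 2 - 1)) ^ s) : UpAt t s := by
  obtain ⟨C, hC⟩ := H
  refine ⟨C, fun ψ h a R hR => ?_⟩
  refine le_of_eq_of_le ?_
    (hC ψ h ⟨a.diff, a.inj, a.lim, a.hdiff.continuousOn, a.hexp, a.hlim⟩ R hR)
  rw [one_div]

/-- The behaviour of the spectrum near `2` in all directions. -/
theorem near_two
    (H4 : ∀ ε : ℝ, 0 < ε → ∃ δ₀ : ℝ, 0 < δ₀ ∧ ∀ τ : ℂ, τ ≠ 0 → ‖τ‖ < δ₀ → ∃ C : ℝ,
      ∀ ψ h : ℂ → ℂ, Pool.Agent.Helper26.G4.Sg ψ h → ∀ R : ℝ, 1 < R →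
        (1 / (2 * π)) * ∫ θ in (0:ℝ)..(2 * π),
          ‖Complex.exp ((2 - τ) * h ((R : ℂ) * Complex.exp ((θ : ℂ) * Complex.I)))‖ ≤
        C * (R ^ 2 / (R ^ 2 - 1)) ^ (1 - τ.re + (1 / 4 + ε) * ‖τ‖ ^ 2))
    (H5 : ∀ e : ℝ, 0 < e → ∃ c : ℝ, 0 < c ∧ ∃ δ₀ : ℝ, 0 < δ₀ ∧ ∀ τ : ℂ, τ ≠ 0 → ‖τ‖ < δ₀ →
      e * ‖τ‖ ≤ τ.re → ∃ C : ℝ,
      ∀ ψ h : ℂ → ℂ, Pool.Agent.Helper26.G4.Sg ψ h → ∀ R : ℝ, 1 < R →
        (1 / (2 * π)) * ∫ θ in (0:ℝ)..(2 * π),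
          ‖Complex.exp ((2 - τ) * h ((R : ℂ) * Complex.exp ((θ : ℂ) * Complex.I)))‖ ≤
        C * (R ^ 2 / (R ^ 2 - 1)) ^ (1 - τ.re + (1 / 4 - c) * ‖τ‖ ^ 2)) :
    ∃ q : ℝ → ℝ, (∀ s : ℝ, s ≤ 0 → q s = 1 - s ^ 2) ∧ (∀ s : ℝ, 0 < s → q s < 1) ∧
      ∀ ε : ℝ, 0 < ε → ∃ d : ℝ, 0 < d ∧ ∀ τ : ℂ, τ ≠ 0 → ‖τ‖ < d →
        Upper (2 - τ) (1 - τ.re + (q (τ.re / ‖τ‖) / 4 + ε) * ‖τ‖ ^ 2) ∧
        Low (2 - τ) (1 - τ.re + τ.im ^ 2 / 4 - ε * ‖τ‖ ^ 2) := by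
  obtain ⟨q, q1, q2, h⟩ := gauge
    (fun ε hε => by
      obtain ⟨d, hd, h⟩ := H4 ε hε
      exact ⟨d, hd, fun τ h0 hτ => upAt_of_sg (h τ h0 hτ)⟩)
    (fun e he => by
      obtain ⟨c, hc, d, hd, h⟩ := H5 e he
      exact ⟨c, hc, d, hd, fun τ h0 hτ hs => upAt_of_sg (h τ h0 hτ hs)⟩)
  refine ⟨q, q1, q2, fun ε hε => ?_⟩
  obtain ⟨d₁, hd₁, h₁⟩ := h ε hε
  obtain ⟨d₂, hd₂, h₂⟩ := low_near hε
  exact ⟨min d₁ d₂, lt_min hd₁ hd₂, fun τ h0 hτ =>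
    ⟨(h₁ τ h0 (hτ.trans_le (min_le_left _ _))).upper,
      h₂ τ h0 (hτ.trans_le (min_le_right _ _))⟩⟩

end Pool.Agent.Helper5.TR
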