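import Pool.Agent.Helper5.TR.Mean2
set_option autoImplicit false
open Complex MeasureTheory Metric Set Filter Topology
open scoped Real ComplexConjugate

/-! From moments to the truncated exponential integrals of `|h|²`. -/

namespace Pool.Agent.Helper5.TR

open Pool.Agent.Helper39.Area

/-- the class Sigma with the logarithm of the derivative -/
structure Sg (ψ h : ℂ → ℂ) : Prop where
  diff : DifferentiableOn ℂ ψ {z : ℂ | 1 < ‖z‖}
  inj : InjOn ψ {z : ℂ | 1 < ‖z‖}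
  lim : ∃ b : ℂ, Tendsto (fun z => ψ z - z) (Bornology.cobounded ℂ) (𝓝 b)
  hdiff : DifferentiableOn ℂ h {z : ℂ | 1 < ‖z‖}
  hexp : ∀ z : ℂ, 1 < ‖z‖ → Complex.exp (h z) = deriv ψ z
  hlim : Tendsto h (Bornology.cobounded ℂ) (𝓝 0)

/-- the exponent `b` is admissible at `t` -/
def UpAt (t : ℂ) (b : ℝ) : Prop :=
  ∃ C : ℝ, ∀ ψ h : ℂ → ℂ, Sg ψ h → ∀ R : ℝ, 1 < R →
    (2 * π)⁻¹ * (∫ θ in (0:ℝ)..(2 * π), ‖Complex.exp (t * h (R * Complex.exp (θ * I)))‖) ≤
      C * (R ^ 2 / (R ^ 2 - 1)) ^ b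

theorem one_lt_quot {R : ℝ} (hR : 1 < R) : 1 < R ^ 2 / (R ^ 2 - 1) := by
  have : 0 < R ^ 2 - 1 := by nlinarith
  rw [one_lt_div this]; linarith

theorem log_pos' {R : ℝ} (hR : 1 < R) : 0 < Real.log (R ^ 2 / (R ^ 2 - 1)) :=
  Real.log_pos (one_lt_quot hR)

theorem norm_pt {R : ℝ} (hR : 1 < R) (θ : ℝ) : ‖(R:ℂ) * Complex.exp (θ * I)‖ = R := by
  rw [norm_mul, Complex.norm_exp_ofReal_mul_I, mul_one, Complex.norm_real,
    Real.norm_of_nonneg (by linarith)]

theorem Sg.cont {ψ h : ℂ → ℂ} (hs : Sg ψ h) {R : ℝ} (hR : 1 < R) :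
    Continuous fun θ : ℝ => h ((R:ℂ) * Complex.exp (θ * I)) := by
  apply hs.hdiff.continuousOn.comp_continuous (by fun_prop)
  intro θ
  show 1 < ‖(R:ℂ) * Complex.exp (θ * I)‖
  rw [norm_pt hR]; exact hR

theorem Sg.le {ψ h : ℂ → ℂ} (hs : Sg ψ h) {R : ℝ} (hR : 1 < R) (θ : ℝ) :
    ‖h ((R:ℂ) * Complex.exp (θ * I))‖ ≤ Real.log (R ^ 2 / (R ^ 2 - 1)) := by
  have h1 := goluzin_ext hs.diff hs.inj hs.lim hs.hdiff hs.hexp hs.hlim
    (z := (R:ℂ) * Complex.exp (θ * I)) (by rw [norm_pt hR]; exact hR)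
  rwa [norm_pt hR] at h1

/-- the second moment -/
theorem up_two : UpAt 2 1 := by
  refine ⟨6, ?_⟩
  intro ψ h hs R hR
  obtain ⟨b, hb⟩ := hs.lim
  obtain ⟨hE, hexp⟩ := ext_data hs.diff hs.inj hb hs.hexp
  set β : ℂ → ℂ := toDisc b (fun z => ψ z - z) with hβ
  have hR0 : R ≠ 0 := by linarith
  have hRi : 0 < R⁻¹ := by positivity
  have hRi1 : R⁻¹ < 1 := inv_lt_one_of_one_lt₀ hR
  set k : ℝ → ℝ := fun θ => ‖1 - (((R⁻¹ : ℝ) : ℂ) * Complex.exp ((θ : ℂ) * I)) ^ 2 *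
    deriv β (((R⁻¹ : ℝ) : ℂ) * Complex.exp ((θ : ℂ) * I))‖ ^ 2 with hk
  have h1 : ∀ θ : ℝ, ‖Complex.exp (2 * h (R * Complex.exp (θ * I)))‖ = k (-θ) := by
    intro θ
    have hne : ((R⁻¹ : ℝ) : ℂ) * Complex.exp (((-θ : ℝ) : ℂ) * I) ≠ 0 := by
      apply mul_ne_zero _ (Complex.exp_ne_zero _)
      exact_mod_cast inv_ne_zero hR0
    have h2 : (((R⁻¹ : ℝ) : ℂ) * Complex.exp (((-θ : ℝ) : ℂ) * I))⁻¹ =
        (R : ℂ) * Complex.exp ((θ : ℂ) * I) := by
      rw [mul_inv, ← Complex.exp_neg]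
      push_cast
      rw [inv_inv]
      congr 2
      ring
    have hm : ((R⁻¹ : ℝ) : ℂ) * Complex.exp (((-θ : ℝ) : ℂ) * I) ∈ ball (0:ℂ) 1 := by
      rw [mem_ball, dist_zero_right, norm_mul, Complex.norm_exp_ofReal_mul_I, mul_one,
        Complex.norm_real, Real.norm_of_nonneg hRi.le]
      exact hRi1
    have h3 := hexp _ hm
    have h4 : toDisc 0 h (((R⁻¹ : ℝ) : ℂ) * Complex.exp (((-θ : ℝ) : ℂ) * I)) =
        h ((R : ℂ) * Complex.exp ((θ : ℂ) * I)) := by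
      simp only [toDisc]
      rw [if_neg hne, h2]
    rw [h4] at h3
    simp only [hk]
    rw [← h3, two_mul, Complex.exp_add, norm_mul, pow_two]
  have hper : Function.Periodic k (2 * π) := by
    intro θ
    simp only [hk]
    have : Complex.exp (((θ + 2 * π : ℝ) : ℂ) * I) = Complex.exp ((θ : ℂ) * I) := by
      push_cast
      rw [add_mul, Complex.exp_add, Complex.exp_two_pi_mul_I, mul_one]
    rw [this]
  have h2 : (∫ θ in (0:ℝ)..(2 * π), ‖Complex.exp (2 * h (R * Complex.exp (θ * I)))‖) =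
      ∫ θ in (-π)..π, k θ := by
    rw [intervalIntegral.integral_congr (g := fun θ => k (-θ)) (fun θ _ => h1 θ),
      intervalIntegral.integral_comp_neg (fun θ => k θ)]
    have h3 := hper.intervalIntegral_add_eq (-(2 * π)) (-π)
    rw [show -(2 * π) + 2 * π = -0 by ring, show -π + 2 * π = π by ring] at h3
    exact h3
  rw [h2, inv_eq_one_div]
  refine (mean_N hE hRi hRi1).trans (le_of_eq ?_)
  rw [Real.rpow_one]
  have h4 : R ^ 2 - 1 ≠ 0 := by nlinarith
  field_simp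

/-- the local bound -/
theorem local_bound {a : ℝ} {K : Set ℂ} (hK : IsCompact K)
    (H : ∀ ζ ∈ K, ∃ (t : ℂ) (b : ℝ), UpAt t b ∧ a * ‖ζ‖ ^ 2 < (t * ζ).re - b) :
    ∃ C : ℝ, ∀ ψ h : ℂ → ℂ, Sg ψ h → ∀ R : ℝ, 1 < R →
      (2 * π)⁻¹ * (∫ θ in (0:ℝ)..(2 * π), {θ : ℝ | h (R * Complex.exp (θ * I)) /
          (Real.log (R ^ 2 / (R ^ 2 - 1)) : ℂ) ∈ K}.indicator
        (fun θ : ℝ => Real.exp (a * ‖h (R * Complex.exp (θ * I))‖ ^ 2 /
          Real.log (R ^ 2 / (R ^ 2 - 1)))) θ) ≤ C := by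
  classical
  obtain ⟨F, hFT, hFf, hFK⟩ := hK.elim_finite_subcover_image
    (b := {p : ℂ × ℝ | UpAt p.1 p.2})
    (c := fun p : ℂ × ℝ => {w : ℂ | a * ‖w‖ ^ 2 < (p.1 * w).re - p.2})
    (fun p _ => isOpen_lt (by fun_prop) (by fun_prop))
    (by
      intro ζ hζ
      obtain ⟨t, b, h1, h2⟩ := H ζ hζ
      exact mem_iUnion₂.2 ⟨(t, b), h1, h2⟩)
  have hC : ∀ p : ℂ × ℝ, ∃ C : ℝ, UpAt p.1 p.2 → ∀ ψ h : ℂ → ℂ, Sg ψ h → ∀ R : ℝ, 1 < R →
      (2 * π)⁻¹ * (∫ θ in (0:ℝ)..(2 * π), ‖Complex.exp (p.1 * h (R * Complex.exp (θ * I)))‖) ≤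
        C * (R ^ 2 / (R ^ 2 - 1)) ^ p.2 := by
    intro p
    by_cases hp : UpAt p.1 p.2
    · obtain ⟨C, hC⟩ := hp
      exact ⟨C, fun _ => hC⟩
    · exact ⟨0, fun h => absurd h hp⟩
  choose Cf hCf using hC
  refine ⟨∑ p ∈ hFf.toFinset, Cf p, ?_⟩
  intro ψ h hs R hR
  set Q : ℝ := R ^ 2 / (R ^ 2 - 1) with hQ
  have hQ1 : 1 < Q := one_lt_quot hR
  have hQ0 : 0 < Q := by linarith
  have hL : 0 < Real.log Q := log_pos' hR
  have hcont := hs.cont hR
  set g : ℝ → ℝ := fun θ => ∑ p ∈ hFf.toFinset,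
    ‖Complex.exp (p.1 * h (R * Complex.exp (θ * I)))‖ * Q ^ (-p.2) with hg
  have hgc : Continuous g := by
    apply continuous_finset_sum
    intro p _
    exact (continuous_norm.comp (Complex.continuous_exp.comp
      (continuous_const.mul hcont))).mul continuous_const
  have hpi : (0:ℝ) ≤ 2 * π := by positivity
  have hpt : ∀ θ : ℝ, {θ : ℝ | h (R * Complex.exp (θ * I)) / (Real.log Q : ℂ) ∈ K}.indicator
      (fun θ : ℝ => Real.exp (a * ‖h (R * Complex.exp (θ * I))‖ ^ 2 / Real.log Q)) θ ≤ g θ := by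
    intro θ
    by_cases hθ : θ ∈ {θ : ℝ | h (R * Complex.exp (θ * I)) / (Real.log Q : ℂ) ∈ K}
    · rw [indicator_of_mem hθ]
      obtain ⟨p, hpF, hp⟩ := mem_iUnion₂.1 (hFK hθ)
      have h0 : a * ‖h (R * Complex.exp (θ * I)) / (Real.log Q : ℂ)‖ ^ 2 <
          (p.1 * (h (R * Complex.exp (θ * I)) / (Real.log Q : ℂ))).re - p.2 := hp
      have h1 : a * ‖h (R * Complex.exp (θ * I))‖ ^ 2 / Real.log Q ≤
          (p.1 * h (R * Complex.exp (θ * I))).re - p.2 * Real.log Q := by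
        have h2 : ‖h (R * Complex.exp (θ * I)) / (Real.log Q : ℂ)‖ =
            ‖h (R * Complex.exp (θ * I))‖ / Real.log Q := by
          rw [norm_div, Complex.norm_real, Real.norm_of_nonneg hL.le]
        have h3 : (p.1 * (h (R * Complex.exp (θ * I)) / (Real.log Q : ℂ))).re =
            (p.1 * h (R * Complex.exp (θ * I))).re / Real.log Q := by
          rw [← mul_div_assoc, Complex.div_ofReal_re]
        rw [h2, h3] at h0
        have h4 := mul_lt_mul_of_pos_right h0 hL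
        have h5 : a * (‖h (R * Complex.exp (θ * I))‖ / Real.log Q) ^ 2 * Real.log Q =
            a * ‖h (R * Complex.exp (θ * I))‖ ^ 2 / Real.log Q := by
          field_simp
        have h6 : ((p.1 * h (R * Complex.exp (θ * I))).re / Real.log Q - p.2) * Real.log Q =
            (p.1 * h (R * Complex.exp (θ * I))).re - p.2 * Real.log Q := by
          field_simp
        rw [h5, h6] at h4
        exact h4.le
      calc Real.exp (a * ‖h (R * Complex.exp (θ * I))‖ ^ 2 / Real.log Q)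
          ≤ Real.exp ((p.1 * h (R * Complex.exp (θ * I))).re - p.2 * Real.log Q) :=
            Real.exp_le_exp.2 h1
        _ = ‖Complex.exp (p.1 * h (R * Complex.exp (θ * I)))‖ * Q ^ (-p.2) := by
            rw [Complex.norm_exp, Real.rpow_def_of_pos hQ0, ← Real.exp_add]
            congr 1
            ring
        _ ≤ g θ := by
            rw [hg]
            exact Finset.single_le_sum (f := fun p : ℂ × ℝ =>
              ‖Complex.exp (p.1 * h (R * Complex.exp (θ * I)))‖ * Q ^ (-p.2))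
              (fun q _ => by positivity) (hFf.mem_toFinset.2 hpF)
    · rw [indicator_of_notMem hθ]
      exact Finset.sum_nonneg (fun q _ => by positivity)
  have h1 : (∫ θ in (0:ℝ)..(2 * π), {θ : ℝ | h (R * Complex.exp (θ * I)) /
      (Real.log Q : ℂ) ∈ K}.indicator
      (fun θ : ℝ => Real.exp (a * ‖h (R * Complex.exp (θ * I))‖ ^ 2 / Real.log Q)) θ) ≤
      ∫ θ in (0:ℝ)..(2 * π), g θ := by
    rw [intervalIntegral.integral_of_le hpi, intervalIntegral.integral_of_le hpi]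
    apply integral_mono_of_nonneg
    · exact Eventually.of_forall fun θ => indicator_nonneg (fun _ _ => (Real.exp_pos _).le) θ
    · exact (hgc.integrableOn_Icc).mono_set Ioc_subset_Icc_self
    · exact Eventually.of_forall hpt
  have h2 : (∫ θ in (0:ℝ)..(2 * π), g θ) = ∑ p ∈ hFf.toFinset,
      (∫ θ in (0:ℝ)..(2 * π), ‖Complex.exp (p.1 * h (R * Complex.exp (θ * I)))‖) * Q ^ (-p.2) := by
    rw [hg, intervalIntegral.integral_finset_sum]
    · apply Finset.sum_congr rfl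
      intro p _
      rw [intervalIntegral.integral_mul_const]
    · intro p _
      exact ((continuous_norm.comp (Complex.continuous_exp.comp
        (continuous_const.mul hcont))).mul continuous_const).intervalIntegrable _ _
  calc (2 * π)⁻¹ * _ ≤ (2 * π)⁻¹ * (∫ θ in (0:ℝ)..(2 * π), g θ) :=
        mul_le_mul_of_nonneg_left h1 (by positivity)
    _ = ∑ p ∈ hFf.toFinset, ((2 * π)⁻¹ *
      (∫ θ in (0:ℝ)..(2 * π), ‖Complex.exp (p.1 * h (R * Complex.exp (θ * I)))‖)) * Q ^ (-p.2) := by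
        rw [h2, Finset.mul_sum]
        exact Finset.sum_congr rfl fun p _ => by ring
    _ ≤ ∑ p ∈ hFf.toFinset, Cf p := by
        apply Finset.sum_le_sum
        intro p hp
        have h3 := hCf p (hFT (hFf.mem_toFinset.1 hp)) ψ h hs R hR
        have h4 : 0 < Q ^ (-p.2) := by positivity
        calc _ ≤ (Cf p * Q ^ p.2) * Q ^ (-p.2) := mul_le_mul_of_nonneg_right h3 h4.le
          _ = Cf p := by
            rw [mul_assoc, ← Real.rpow_add hQ0, add_neg_cancel, Real.rpow_zero, mul_one]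

end Pool.Agent.Helper5.TR
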