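import Pool.Agent.Helper5.TR.Area2
import Pool.Agent.Helper39.Area.Exterior
set_option autoImplicit false
open Complex MeasureTheory Metric Set Filter Topology
open scoped Real ComplexConjugate

/-! The circle means of `|ψ'|²` over the class Sigma. -/

namespace Pool.Agent.Helper5.TR

open Pool.Agent.Helper39.Area Pool.Agent.Helper39.EK

variable {β : ℂ → ℂ}

theorem nat_pow_le {s : ℝ} (h0 : 0 < s) (h1 : s < 1) (n : ℕ) :
    ((n:ℝ) + 1) * s ^ (n + 1) ≤ 1 / (1 - s) := by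
  have h2 : 0 < 1 - s := by linarith
  rw [le_div_iff₀ h2]
  have h3 : ∀ k : ℕ, k ≤ n → s ^ (n + 1) ≤ s ^ k := fun k hk =>
    pow_le_pow_of_le_one h0.le h1.le (by omega)
  have h4 : ((n:ℝ) + 1) * s ^ (n + 1) ≤ ∑ k ∈ Finset.range (n + 1), s ^ k := by
    have : ((n:ℝ) + 1) * s ^ (n + 1) = ∑ _k ∈ Finset.range (n + 1), s ^ (n + 1) := by
      rw [Finset.sum_const, Finset.card_range, nsmul_eq_mul]; push_cast; ring
    rw [this]
    apply Finset.sum_le_sum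
    intro k hk
    exact h3 k (by rw [Finset.mem_range] at hk; omega)
  have h5 : (∑ k ∈ Finset.range (n + 1), s ^ k) * (1 - s) = 1 - s ^ (n + 1) := by
    have := geom_sum_mul s (n + 1)
    linear_combination -this
  have h6 : 0 ≤ s ^ (n + 1) := by positivity
  calc ((n:ℝ) + 1) * s ^ (n + 1) * (1 - s) ≤ (∑ k ∈ Finset.range (n + 1), s ^ k) * (1 - s) :=
        mul_le_mul_of_nonneg_right h4 h2.le
    _ ≤ 1 := by rw [h5]; linarith

/-- the mean of `|β'|²` -/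
theorem mean_deriv (h : Ext β) {s : ℝ} (hs : 0 < s) (hs1 : s < 1) :
    (1 / (2 * π)) * ∫ θ in (-π)..π, ‖deriv β ((s:ℂ) * Complex.exp (θ * I))‖ ^ 2 ≤
      1 / ((1 - s) * s ^ 3) := by
  have hp := parseval_deriv h.diff hs.le hs1
  refine hp.tsum_eq ▸ ?_
  have h1s : 0 < 1 - s := by linarith
  apply Real.tsum_le_of_sum_range_le
  · intro n; positivity
  intro N
  set ρ : ℝ := Real.sqrt s with hρ
  have hρ0 : 0 < ρ := Real.sqrt_pos.mpr hs
  have hρ1 : ρ < 1 := by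
    rw [hρ, Real.sqrt_lt' one_pos]; linarith
  have hρ2 : ρ ^ 2 = s := Real.sq_sqrt hs.le
  have ha := area_coeff h hρ0 hρ1 (N + 1)
  rw [hρ2] at ha
  have h1 : ∀ n : ℕ, ‖((n:ℂ) + 1) * (iteratedDeriv (n + 1) β 0 / (n + 1).factorial)‖ ^ 2 *
      s ^ (2 * n) ≤ (1 / ((1 - s) * s ^ 2)) * (((n + 1 : ℕ):ℝ) * ρ ^ (2 * (n + 1)) *
        ‖iteratedDeriv (n + 1) β 0 / (n + 1).factorial‖ ^ 2) := by
    intro n
    have h2 : ‖((n:ℂ) + 1)‖ = (n:ℝ) + 1 := by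
      have : ((n:ℂ) + 1) = (((n:ℝ) + 1 : ℝ) : ℂ) := by push_cast; rfl
      rw [this, Complex.norm_real, Real.norm_of_nonneg (by positivity)]
    rw [norm_mul, h2, pow_mul ρ 2 (n + 1), hρ2]
    set e : ℝ := ‖iteratedDeriv (n + 1) β 0 / (n + 1).factorial‖ with he
    have h3 := nat_pow_le hs hs1 n
    have h4 : (((n:ℝ) + 1) * e) ^ 2 * s ^ (2 * n) =
        (((n:ℝ) + 1) * s ^ (n + 1)) * (((n:ℝ) + 1) * s ^ (n + 1) * e ^ 2) * (1 / s ^ 2) := by
      field_simp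
      ring
    rw [h4]
    have h5 : 0 ≤ ((n:ℝ) + 1) * s ^ (n + 1) * e ^ 2 := by positivity
    calc (((n:ℝ) + 1) * s ^ (n + 1)) * (((n:ℝ) + 1) * s ^ (n + 1) * e ^ 2) * (1 / s ^ 2)
        ≤ (1 / (1 - s)) * (((n:ℝ) + 1) * s ^ (n + 1) * e ^ 2) * (1 / s ^ 2) := by
          apply mul_le_mul_of_nonneg_right _ (by positivity)
          exact mul_le_mul_of_nonneg_right h3 h5
      _ = _ := by push_cast; field_simp
  calc ∑ n ∈ Finset.range N, ‖((n:ℂ) + 1) * (iteratedDeriv (n + 1) β 0 / (n + 1).factorial)‖ ^ 2 *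
        s ^ (2 * n)
      ≤ ∑ n ∈ Finset.range N, (1 / ((1 - s) * s ^ 2)) * (((n + 1 : ℕ):ℝ) * ρ ^ (2 * (n + 1)) *
        ‖iteratedDeriv (n + 1) β 0 / (n + 1).factorial‖ ^ 2) := Finset.sum_le_sum fun n _ => h1 n
    _ = (1 / ((1 - s) * s ^ 2)) * ∑ n ∈ Finset.range N, (((n + 1 : ℕ):ℝ) * ρ ^ (2 * (n + 1)) *
        ‖iteratedDeriv (n + 1) β 0 / (n + 1).factorial‖ ^ 2) := by rw [Finset.mul_sum]
    _ ≤ (1 / ((1 - s) * s ^ 2)) * (1 / s) := by
        apply mul_le_mul_of_nonneg_left _ (by positivity)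
        refine le_trans ?_ ha
        rw [Finset.sum_range_succ']
        simp
    _ = 1 / ((1 - s) * s ^ 3) := by field_simp

/-- mean of `|1 - z² β'|²` -/
theorem mean_N (h : Ext β) {s : ℝ} (hs : 0 < s) (hs1 : s < 1) :
    (1 / (2 * π)) * ∫ θ in (-π)..π, ‖1 - ((s:ℂ) * Complex.exp (θ * I)) ^ 2 *
      deriv β ((s:ℂ) * Complex.exp (θ * I))‖ ^ 2 ≤ 6 / (1 - s ^ 2) := by
  have hd : ContinuousOn (deriv β) (ball 0 1) := (h.diff.deriv isOpen_ball).continuousOn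
  have hn : ∀ θ : ℝ, ‖(s:ℂ) * Complex.exp (θ * I)‖ = s := by
    intro θ
    rw [norm_mul, Complex.norm_exp_ofReal_mul_I, mul_one, Complex.norm_real,
      Real.norm_of_nonneg hs.le]
  have hm : ∀ θ : ℝ, (s:ℂ) * Complex.exp (θ * I) ∈ ball (0:ℂ) 1 := by
    intro θ; rw [mem_ball, dist_zero_right, hn]; exact hs1
  have hcz : Continuous fun θ : ℝ => (s:ℂ) * Complex.exp (θ * I) := by fun_prop
  have hcd : Continuous fun θ : ℝ => deriv β ((s:ℂ) * Complex.exp (θ * I)) :=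
    hd.comp_continuous hcz hm
  have h1 : ∀ θ : ℝ, ‖1 - ((s:ℂ) * Complex.exp (θ * I)) ^ 2 *
      deriv β ((s:ℂ) * Complex.exp (θ * I))‖ ^ 2 ≤
      2 + 2 * s ^ 4 * ‖deriv β ((s:ℂ) * Complex.exp (θ * I))‖ ^ 2 := by
    intro θ
    have h2 := norm_sub_le (1:ℂ) (((s:ℂ) * Complex.exp (θ * I)) ^ 2 *
      deriv β ((s:ℂ) * Complex.exp (θ * I)))
    rw [norm_one, norm_mul, norm_pow, hn] at h2
    set d := ‖deriv β ((s:ℂ) * Complex.exp (θ * I))‖ with hdd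
    have hd0 : 0 ≤ d := norm_nonneg _
    calc _ ≤ (1 + s ^ 2 * d) ^ 2 := pow_le_pow_left₀ (norm_nonneg _) h2 2
      _ ≤ _ := by nlinarith [sq_nonneg (1 - s ^ 2 * d)]
  have h2 : ∫ θ in (-π)..π, ‖1 - ((s:ℂ) * Complex.exp (θ * I)) ^ 2 *
      deriv β ((s:ℂ) * Complex.exp (θ * I))‖ ^ 2 ≤
      ∫ θ in (-π)..π, (2 + 2 * s ^ 4 * ‖deriv β ((s:ℂ) * Complex.exp (θ * I))‖ ^ 2) := by
    apply intervalIntegral.integral_mono_on (by linarith [Real.pi_pos])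
    · apply Continuous.intervalIntegrable
      fun_prop
    · apply Continuous.intervalIntegrable
      fun_prop
    · intro θ _; exact h1 θ
  have h3 : ∫ θ in (-π)..π, (2 + 2 * s ^ 4 * ‖deriv β ((s:ℂ) * Complex.exp (θ * I))‖ ^ 2) =
      4 * π + 2 * s ^ 4 * ∫ θ in (-π)..π, ‖deriv β ((s:ℂ) * Complex.exp (θ * I))‖ ^ 2 := by
    rw [intervalIntegral.integral_add (by simp) (by
      apply Continuous.intervalIntegrable; fun_prop), intervalIntegral.integral_const,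
      intervalIntegral.integral_const_mul]
    simp only [smul_eq_mul]
    ring
  have h4 := mean_deriv h hs hs1
  have hpi := Real.pi_pos
  set J := ∫ θ in (-π)..π, ‖deriv β ((s:ℂ) * Complex.exp (θ * I))‖ ^ 2 with hJ
  have h1s : 0 < 1 - s := by linarith
  have h5 : s ^ 4 * ((1 / (2 * π)) * J) ≤ 1 / (1 - s) := by
    calc s ^ 4 * ((1 / (2 * π)) * J) ≤ s ^ 4 * (1 / ((1 - s) * s ^ 3)) :=
          mul_le_mul_of_nonneg_left h4 (by positivity)
      _ = s / (1 - s) := by field_simp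
      _ ≤ 1 / (1 - s) := div_le_div_of_nonneg_right hs1.le h1s.le
  have h6 : (1 / (2 * π)) * (4 * π + 2 * s ^ 4 * J) = 2 + 2 * (s ^ 4 * ((1 / (2 * π)) * J)) := by
    field_simp
    ring
  have h7 : 1 / (1 - s) ≤ 2 / (1 - s ^ 2) := by
    rw [div_le_div_iff₀ h1s (by nlinarith)]
    nlinarith
  have h8 : 2 ≤ 2 / (1 - s ^ 2) := by
    rw [le_div_iff₀ (by nlinarith)]
    nlinarith
  calc (1 / (2 * π)) * _ ≤ (1 / (2 * π)) * (4 * π + 2 * s ^ 4 * J) := by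
        apply mul_le_mul_of_nonneg_left _ (by positivity)
        rw [← h3]; exact h2
    _ = 2 + 2 * (s ^ 4 * ((1 / (2 * π)) * J)) := h6
    _ ≤ 2 / (1 - s ^ 2) + 2 * (2 / (1 - s ^ 2)) := by
        have := h5.trans h7
        linarith
    _ = 6 / (1 - s ^ 2) := by ring

end Pool.Agent.Helper5.TR
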