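import Pool.Agent.Helper5.TR.Gauge
import Pool.Agent.Helper12.G5.Ray
set_option autoImplicit false
open Complex MeasureTheory Metric Set Filter Topology
open scoped Real ComplexConjugate

/-! The spectrum near the ray `[2, ∞)`, one statement: with `w = max (2 - |t|) 0` the conjectured
value is `|t| - 1 + w² / 4`; the true value is at most `|t| - 1 + p (|arg t| / w) w² / 4` up to
`o (w² + (arg t)²)`, where `p` is monotone and smaller than `1`. -/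

namespace Pool.Agent.Helper5.TR

open Pool.Agent.Helper39.G4L (Low low_all Upper)

theorem exists_anti (c : ℕ → ℝ) (hc : ∀ n, 0 < c n) :
    ∃ m : ℕ → ℝ, Antitone m ∧ (∀ n, 0 < m n) ∧ (∀ n, m n ≤ c n) ∧ ∀ n, m n ≤ 1 / 8 := by
  let m : ℕ → ℝ := fun n => Nat.rec (min (c 0) (1 / 8)) (fun k x => min x (c (k + 1))) n
  have h0 : m 0 = min (c 0) (1 / 8) := rfl
  have hs : ∀ n, m (n + 1) = min (m n) (c (n + 1)) := fun n => rfl
  refine ⟨m, antitone_nat_of_succ_le fun n => ?_, fun n => ?_, fun n => ?_, fun n => ?_⟩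
  · rw [hs]; exact min_le_left _ _
  · induction n with
    | zero => rw [h0]; exact lt_min (hc 0) (by norm_num)
    | succ n ih => rw [hs]; exact lt_min ih (hc _)
  · cases n with
    | zero => rw [h0]; exact min_le_left _ _
    | succ n => rw [hs]; exact min_le_right _ _
  · induction n with
    | zero => rw [h0]; exact min_le_right _ _
    | succ n ih => rw [hs]; exact (min_le_left _ _).trans ih

/-- the upper bound near the ray -/
theorem shape_up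
    (G4 : ∀ ε : ℝ, 0 < ε → ∃ d : ℝ, 0 < d ∧ ∀ τ : ℂ, τ ≠ 0 → ‖τ‖ < d →
      UpAt (2 - τ) (1 - τ.re + (1 / 4 + ε) * ‖τ‖ ^ 2))
    (G5 : ∀ e : ℝ, 0 < e → ∃ c : ℝ, 0 < c ∧ ∃ d : ℝ, 0 < d ∧ ∀ τ : ℂ, τ ≠ 0 → ‖τ‖ < d →
      e * ‖τ‖ ≤ τ.re → UpAt (2 - τ) (1 - τ.re + (1 / 4 - c) * ‖τ‖ ^ 2)) :
    ∃ p : ℝ → ℝ, Monotone p ∧ (∀ r : ℝ, p r < 1) ∧
      ∀ ε : ℝ, 0 < ε → ∃ d : ℝ, 0 < d ∧ d ≤ 1 ∧ ∀ (t : ℂ) (w : ℝ), w = max (2 - ‖t‖) 0 →
        w < d → |t.arg| < d →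
        UpAt t (‖t‖ - 1 + p (|t.arg| / w) * w ^ 2 / 4 + ε * (w ^ 2 + t.arg ^ 2)) := by
  have H : ∀ n : ℕ, ∃ c : ℝ, 0 < c ∧ ∃ d : ℝ, 0 < d ∧ ∀ τ : ℂ, τ ≠ 0 → ‖τ‖ < d →
      1 / (1 + 2 * (n : ℝ)) * ‖τ‖ ≤ τ.re → UpAt (2 - τ) (1 - τ.re + (1 / 4 - c) * ‖τ‖ ^ 2) :=
    fun n => G5 _ (by positivity)
  choose c hc d hd H using H
  obtain ⟨m, hm, hm0, hmc, hm8⟩ := exists_anti c hc
  refine ⟨fun r => 1 - 4 * m ⌈r⌉₊, ?_, ?_, ?_⟩
  · intro r r' h
    have := hm (Nat.ceil_mono h)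
    simp only
    linarith
  · intro r
    have := hm0 ⌈r⌉₊
    simp only
    linarith
  · intro ε hε
    obtain ⟨N, hN⟩ := exists_nat_one_div_lt (K := ℝ) hε
    obtain ⟨D, hD, hDd⟩ := exists_low d hd (N + 2)
    obtain ⟨d₁, hd₁, h₁⟩ := ray G4 ε hε
    obtain ⟨d₂, hd₂, h₂⟩ := G4 (ε / 8) (by positivity)
    refine ⟨min (min d₁ 1) (min (D / 3) (d₂ / 3)), by positivity,
      (min_le_left _ _).trans (min_le_right _ _), ?_⟩
    intro t w hw hwd hφd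
    have f1 : |t.arg| < d₁ := hφd.trans_le ((min_le_left _ _).trans (min_le_left _ _))
    have f2 : |t.arg| < D / 3 := hφd.trans_le ((min_le_right _ _).trans (min_le_left _ _))
    have f3 : |t.arg| < d₂ / 3 := hφd.trans_le ((min_le_right _ _).trans (min_le_right _ _))
    have w2 : w < D / 3 := hwd.trans_le ((min_le_right _ _).trans (min_le_left _ _))
    have w3 : w < d₂ / 3 := hwd.trans_le ((min_le_right _ _).trans (min_le_right _ _))
    simp only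
    rcases le_or_gt 2 ‖t‖ with ht | ht
    · have hw0 : w = 0 := by rw [hw, max_eq_right (by linarith)]
      rw [hw0]
      refine (h₁ t ht f1).mono (le_of_eq ?_)
      ring
    · have hwe : w = 2 - ‖t‖ := by rw [hw, max_eq_left (by linarith)]
      have hw0 : 0 < w := by linarith
      set φ : ℝ := t.arg with hφ
      set τ : ℂ := 2 - t with hτ
      have hτt : 2 - τ = t := by rw [hτ]; ring
      have htre : ‖t‖ * Real.cos φ = t.re := Complex.norm_mul_cos_arg t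
      have htn : ‖t‖ ^ 2 = t.re ^ 2 + t.im ^ 2 := by
        rw [← Complex.normSq_eq_norm_sq, Complex.normSq_apply]; ring
      have hτre : τ.re = 2 - t.re := by rw [hτ]; simp
      have hτn : ‖τ‖ ^ 2 = 4 - 4 * t.re + ‖t‖ ^ 2 := by
        rw [htn, ← Complex.normSq_eq_norm_sq, Complex.normSq_apply, hτ]
        simp only [Complex.sub_re, Complex.sub_im, Complex.re_ofNat, Complex.im_ofNat]
        ring
      have htp : 0 ≤ ‖t‖ := norm_nonneg t
      have hcos1 : Real.cos φ ≤ 1 := Real.cos_le_one φ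
      have hcos2 : 1 - Real.cos φ ≤ φ ^ 2 / 2 := by
        have := Real.one_sub_sq_div_two_le_cos (x := φ)
        linarith
      have hτw : w ≤ τ.re := by rw [hτre, hwe]; nlinarith
      have hτ0 : τ ≠ 0 := by
        intro h
        rw [h] at hτw
        simp at hτw
        linarith
      have hup : ‖τ‖ ^ 2 ≤ w ^ 2 + 4 * φ ^ 2 := by
        rw [hτn, hwe, ← htre]
        nlinarith
      have hlo : w ^ 2 ≤ ‖τ‖ ^ 2 := by
        rw [hτn, hwe, ← htre]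
        nlinarith
      have hnn : 0 ≤ ‖τ‖ := norm_nonneg τ
      have hφ2 : |φ| ^ 2 = φ ^ 2 := sq_abs φ
      have hφ0 : 0 ≤ |φ| := abs_nonneg φ
      have hle : ‖τ‖ ≤ w + 2 * |φ| := by
        refine (sq_le_sq₀ hnn (by positivity)).1 (hup.trans ?_)
        rw [← hφ2]
        nlinarith [mul_nonneg hw0.le hφ0]
      have key : 1 - τ.re + 1 / 4 * ‖τ‖ ^ 2 = ‖t‖ - 1 + w ^ 2 / 4 := by
        rw [hτn, hτre, hwe]
        ring
      have hN0 : (0:ℝ) < (N : ℝ) + 1 := by positivity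
      rcases le_or_gt (|φ| / w) ((N : ℝ) + 1) with hr | hr
      · -- a sector
        set n : ℕ := ⌈|φ| / w⌉₊ with hn
        have hnN : n < N + 2 := by
          have : n ≤ N + 1 := by
            rw [hn]
            apply Nat.ceil_le.2
            push_cast
            exact hr
          omega
        have hrn : |φ| ≤ n * w := by
          have : |φ| / w ≤ n := Nat.le_ceil _
          rwa [div_le_iff₀ hw0] at this
        have hsec : 1 / (1 + 2 * (n : ℝ)) * ‖τ‖ ≤ τ.re := by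
          rw [one_div, inv_mul_le_iff₀ (by positivity)]
          have : ‖τ‖ ≤ (1 + 2 * (n : ℝ)) * w := by nlinarith
          exact this.trans (mul_le_mul_of_nonneg_left hτw (by positivity))
        have hτd : ‖τ‖ < d n := by
          refine lt_of_lt_of_le ?_ (hDd n hnN)
          linarith
        have h3 := H n τ hτ0 hτd hsec
        rw [hτt] at h3
        refine h3.mono ?_
        have e1 : m n * w ^ 2 ≤ c n * ‖τ‖ ^ 2 :=
          mul_le_mul (hmc n) hlo (sq_nonneg _) (hc n).le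
        have e2 : 0 ≤ ε * (w ^ 2 + φ ^ 2) := by positivity
        have e3 : (1 / 4 - c n) * ‖τ‖ ^ 2 = 1 / 4 * ‖τ‖ ^ 2 - c n * ‖τ‖ ^ 2 := by ring
        have e4 : (1 - 4 * m n) * w ^ 2 / 4 = w ^ 2 / 4 - m n * w ^ 2 := by ring
        rw [e3, e4]
        linarith
      · -- near the circle
        have h3 := h₂ τ hτ0 (by linarith)
        rw [hτt] at h3
        refine h3.mono ?_
        have e1 : ((N : ℝ) + 1) * w < |φ| := by
          rwa [lt_div_iff₀ hw0] at hr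
        have e2 : m ⌈|φ| / w⌉₊ * w ^ 2 ≤ 1 / 8 * w ^ 2 :=
          mul_le_mul_of_nonneg_right (hm8 _) (sq_nonneg _)
        have hN1 : (1:ℝ) ≤ (N : ℝ) + 1 := by
          have : (0:ℝ) ≤ N := Nat.cast_nonneg N
          linarith
        have hε1 : 1 < ε * ((N : ℝ) + 1) := by
          rwa [div_lt_iff₀ hN0] at hN
        have e3 : w ^ 2 ≤ ε * φ ^ 2 := by
          have g1 : (((N : ℝ) + 1) * w) ^ 2 ≤ φ ^ 2 := by
            rw [← hφ2]
            exact pow_le_pow_left₀ (by positivity) e1.le 2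
          have g2 : w ^ 2 ≤ ε * ((N : ℝ) + 1) * w ^ 2 := by
            nlinarith [sq_nonneg w]
          have g3 : ε * ((N : ℝ) + 1) * w ^ 2 ≤ ε * (((N : ℝ) + 1) * w) ^ 2 := by
            have : ((N : ℝ) + 1) * w ^ 2 ≤ (((N : ℝ) + 1) * w) ^ 2 := by
              rw [mul_pow]
              exact mul_le_mul_of_nonneg_right (by nlinarith) (sq_nonneg _)
            rw [mul_assoc]
            exact mul_le_mul_of_nonneg_left this hε.le
          exact g2.trans (g3.trans (mul_le_mul_of_nonneg_left g1 hε.le))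
        have e4 : (1 / 4 + ε / 8) * ‖τ‖ ^ 2 = 1 / 4 * ‖τ‖ ^ 2 + ε / 8 * ‖τ‖ ^ 2 := by ring
        have e5 : ε / 8 * ‖τ‖ ^ 2 ≤ ε / 8 * (w ^ 2 + 4 * φ ^ 2) :=
          mul_le_mul_of_nonneg_left hup (by positivity)
        have e6 : (1 - 4 * m ⌈|φ| / w⌉₊) * w ^ 2 / 4 =
            w ^ 2 / 4 - m ⌈|φ| / w⌉₊ * w ^ 2 := by ring
        rw [e4, e6]
        have e7 : 0 ≤ ε * w ^ 2 := by positivity
        have e8 : 0 ≤ ε * φ ^ 2 := by positivity
        nlinarith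

/-- The spectrum near the ray `[2, ∞)`. -/
theorem shape
    (H4 : ∀ ε : ℝ, 0 < ε → ∃ δ₀ : ℝ, 0 < δ₀ ∧ ∀ τ : ℂ, τ ≠ 0 → ‖τ‖ < δ₀ → ∃ C : ℝ,
      ∀ ψ h : ℂ → ℂ, Pool.Agent.Helper26.G4.Sg ψ h → ∀ R : ℝ, 1 < R →
        (1 / (2 * π)) * ∫ θ in (0:ℝ)..(2 * π),
          ‖Complex.exp ((2 - τ) * h ((R : ℂ) * Complex.exp ((θ : ℂ) * Complex.I)))‖ ≤
        C * (R ^ 2 / (R ^ 2 - 1)) ^ (1 - τ.re + (1 / 4 + ε) * ‖τ‖ ^ 2))
    (H5 : ∀ e : ℝ, 0 < e → ∃ c : ℝ, 0 < c ∧ ∃ δ₀ : ℝ, 0 < δ₀ ∧ ∀ τ : ℂ, τ ≠ 0 → ‖τ‖ < δ₀ →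
      e * ‖τ‖ ≤ τ.re → ∃ C : ℝ,
      ∀ ψ h : ℂ → ℂ, Pool.Agent.Helper26.G4.Sg ψ h → ∀ R : ℝ, 1 < R →
        (1 / (2 * π)) * ∫ θ in (0:ℝ)..(2 * π),
          ‖Complex.exp ((2 - τ) * h ((R : ℂ) * Complex.exp ((θ : ℂ) * Complex.I)))‖ ≤
        C * (R ^ 2 / (R ^ 2 - 1)) ^ (1 - τ.re + (1 / 4 - c) * ‖τ‖ ^ 2)) :
    ∃ p : ℝ → ℝ, Monotone p ∧ (∀ r : ℝ, p r < 1) ∧
      ∀ ε : ℝ, 0 < ε → ∃ d : ℝ, 0 < d ∧ ∀ (t : ℂ) (w : ℝ), w = max (2 - ‖t‖) 0 →
        w < d → |t.arg| < d →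
        Upper t (‖t‖ - 1 + p (|t.arg| / w) * w ^ 2 / 4 + ε * (w ^ 2 + t.arg ^ 2)) ∧
        ∀ s : ℝ, s < ‖t‖ - 1 → Low t s := by
  obtain ⟨p, p1, p2, h⟩ := shape_up
    (fun ε hε => by
      obtain ⟨d, hd, h⟩ := H4 ε hε
      exact ⟨d, hd, fun τ h0 hτ => upAt_of_sg (h τ h0 hτ)⟩)
    (fun e he => by
      obtain ⟨c, hc, d, hd, h⟩ := H5 e he
      exact ⟨c, hc, d, hd, fun τ h0 hτ hs => upAt_of_sg (h τ h0 hτ hs)⟩)
  refine ⟨p, p1, p2, fun ε hε => ?_⟩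
  obtain ⟨d, hd, hd1, h⟩ := h ε hε
  refine ⟨d, hd, fun t w hw hwd hφ => ⟨(h t w hw hwd hφ).upper, fun s hs => low_all ?_ hs⟩⟩
  have : 2 - ‖t‖ ≤ w := by rw [hw]; exact le_max_left _ _
  linarith

end Pool.Agent.Helper5.TR
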