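import Pool.Agent.Helper5.TR.Gauge
import Pool.Agent.Helper12.G5.Ray
set_option autoImplicit false
open Complex MeasureTheory Metric Set Filter Topology
open scoped Real ComplexConjugate

/-! The spectrum near the ray `[2, ∞)`, with a constant: with `w = max (2 - |t|) 0` the true value
is at most `|t| - 1 + (1 / 4 - c) w² + ε (arg t)²`. The hypothesis is a strict bound in every sector
`Re τ ≥ e |τ|` of the right half plane, with a gain of the order `e²`. -/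

namespace Pool.Agent.Helper5.TR

open Pool.Agent.Helper39.G4L (Low low_all Upper)

/-- the upper bound near the ray, with a constant -/
theorem shape6_up
    (G4 : ∀ ε : ℝ, 0 < ε → ∃ d : ℝ, 0 < d ∧ ∀ τ : ℂ, τ ≠ 0 → ‖τ‖ < d →
      UpAt (2 - τ) (1 - τ.re + (1 / 4 + ε) * ‖τ‖ ^ 2))
    {c : ℝ} (hc : 0 < c) (hc8 : c ≤ 1 / 8)
    (G6 : ∀ e : ℝ, 0 < e → e ≤ 1 → ∃ d : ℝ, 0 < d ∧ ∀ τ : ℂ, τ ≠ 0 → ‖τ‖ < d →
      e * ‖τ‖ ≤ τ.re → UpAt (2 - τ) (1 - τ.re + (1 / 4 - c * e ^ 2) * ‖τ‖ ^ 2)) :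
    ∀ ε : ℝ, 0 < ε → ∃ d : ℝ, 0 < d ∧ d ≤ 1 ∧ ∀ (t : ℂ) (w : ℝ), w = max (2 - ‖t‖) 0 →
      w < d → |t.arg| < d →
      UpAt t (‖t‖ - 1 + (1 / 4 - c / 4) * w ^ 2 + ε * t.arg ^ 2) := by
  intro ε hε
  obtain ⟨n, hn⟩ := exists_nat_gt (max 2 (2 / ε))
  have hn2 : (2:ℝ) < n := (le_max_left _ _).trans_lt hn
  have hnε : 2 / ε < n := (le_max_right _ _).trans_lt hn
  have hn0 : (0:ℝ) < n := by linarith
  have hnN : 0 < n := by exact_mod_cast hn0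
  have hε2 : 2 < ε * n := by rwa [div_lt_iff₀ hε, mul_comm] at hnε
  have H : ∀ j : ℕ, ∃ d : ℝ, 0 < d ∧ ∀ τ : ℂ, τ ≠ 0 → ‖τ‖ < d → 0 < j → j ≤ n →
      ((j : ℝ) / n) * ‖τ‖ ≤ τ.re →
      UpAt (2 - τ) (1 - τ.re + (1 / 4 - c * ((j : ℝ) / n) ^ 2) * ‖τ‖ ^ 2) := by
    intro j
    by_cases hj : 0 < j ∧ j ≤ n
    · have h1 : (0:ℝ) < (j : ℝ) / n := div_pos (by exact_mod_cast hj.1) hn0
      have h2 : (j : ℝ) / n ≤ 1 := by
        rw [div_le_one hn0]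
        exact_mod_cast hj.2
      obtain ⟨d, hd, h⟩ := G6 _ h1 h2
      exact ⟨d, hd, fun τ h0 hτ _ _ hs => h τ h0 hτ hs⟩
    · exact ⟨1, one_pos, fun τ _ _ h1 h2 _ => absurd ⟨h1, h2⟩ hj⟩
  choose d hd H using H
  obtain ⟨D, hD, hDd⟩ := exists_low d hd (n + 1)
  obtain ⟨d₁, hd₁, h₁⟩ := ray G4 ε hε
  obtain ⟨d₂, hd₂, h₂⟩ := G4 (ε / 8) (by positivity)
  refine ⟨min (min d₁ 1) (min (D / 3) (d₂ / 3)), by positivity,
    (min_le_left _ _).trans (min_le_right _ _), ?_⟩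
  intro t w hw hwd hφd
  have f1 : |t.arg| < d₁ := hφd.trans_le ((min_le_left _ _).trans (min_le_left _ _))
  have f2 : |t.arg| < D / 3 := hφd.trans_le ((min_le_right _ _).trans (min_le_left _ _))
  have f3 : |t.arg| < d₂ / 3 := hφd.trans_le ((min_le_right _ _).trans (min_le_right _ _))
  have w2 : w < D / 3 := hwd.trans_le ((min_le_right _ _).trans (min_le_left _ _))
  have w3 : w < d₂ / 3 := hwd.trans_le ((min_le_right _ _).trans (min_le_right _ _))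
  rcases le_or_gt 2 ‖t‖ with ht | ht
  · have hw0 : w = 0 := by rw [hw, max_eq_right (by linarith)]
    rw [hw0]
    refine (h₁ t ht f1).mono (le_of_eq ?_)
    ring
  · have hwe : w = 2 - ‖t‖ := by rw [hw, max_eq_left (by linarith)]
    have hw0 : 0 < w := by linarith
    set φ : ℝ := t.arg with hφ
    set τ : ℂ := 2 - t with hτ
    have hτt : 2 - τ = t := by rw [hτ]; ring
    have htre : ‖t‖ * Real.cos φ = t.re := Complex.norm_mul_cos_arg t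
    have htn : ‖t‖ ^ 2 = t.re ^ 2 + t.im ^ 2 := by
      rw [← Complex.normSq_eq_norm_sq, Complex.normSq_apply]; ring
    have hτre : τ.re = 2 - t.re := by rw [hτ]; simp
    have hτn : ‖τ‖ ^ 2 = 4 - 4 * t.re + ‖t‖ ^ 2 := by
      rw [htn, ← Complex.normSq_eq_norm_sq, Complex.normSq_apply, hτ]
      simp only [Complex.sub_re, Complex.sub_im, Complex.re_ofNat, Complex.im_ofNat]
      ring
    have htp : 0 ≤ ‖t‖ := norm_nonneg t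
    have hcos1 : Real.cos φ ≤ 1 := Real.cos_le_one φ
    have hcos2 : 1 - Real.cos φ ≤ φ ^ 2 / 2 := by
      have := Real.one_sub_sq_div_two_le_cos (x := φ)
      linarith
    have hτw : w ≤ τ.re := by
      have h1 : ‖t‖ * Real.cos φ ≤ ‖t‖ * 1 := mul_le_mul_of_nonneg_left hcos1 htp
      rw [hτre, hwe]
      linarith
    have hτ0 : τ ≠ 0 := by
      intro h
      rw [h] at hτw
      simp at hτw
      linarith
    have hnp : 0 < ‖τ‖ := norm_pos_iff.2 hτ0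
    have hup : ‖τ‖ ^ 2 ≤ w ^ 2 + 4 * φ ^ 2 := by
      have h1 : ‖t‖ * (1 - Real.cos φ) ≤ 2 * (φ ^ 2 / 2) :=
        mul_le_mul ht.le hcos2 (by linarith) (by norm_num)
      rw [hτn, hwe, ← htre]
      linarith [show (2 - ‖t‖) ^ 2 = 4 - 4 * ‖t‖ + ‖t‖ ^ 2 by ring]
    have hnn : 0 ≤ ‖τ‖ := norm_nonneg τ
    have hφ2 : |φ| ^ 2 = φ ^ 2 := sq_abs φ
    have hφ0 : 0 ≤ |φ| := abs_nonneg φ
    have hle : ‖τ‖ ≤ w + 2 * |φ| := by
      refine (sq_le_sq₀ hnn (by positivity)).1 (hup.trans ?_)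
      rw [← hφ2, show (w + 2 * |φ|) ^ 2 = w ^ 2 + 4 * |φ| ^ 2 + 4 * (w * |φ|) by ring]
      linarith [mul_nonneg hw0.le hφ0]
    have key : 1 - τ.re + 1 / 4 * ‖τ‖ ^ 2 = ‖t‖ - 1 + w ^ 2 / 4 := by
      rw [hτn, hτre, hwe]
      ring
    have hre1 : τ.re ≤ ‖τ‖ := Complex.re_le_norm τ
    have hre0 : 0 < τ.re := hw0.trans_le hτw
    -- the square of `1 / n`
    set y : ℝ := 1 / (n : ℝ) with hy
    have hy0 : 0 < y := by positivity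
    have hy2 : y < 1 / 2 := by
      rw [hy]
      exact one_div_lt_one_div_of_lt (by norm_num) hn2
    have hyε : 2 * y < ε := by
      rw [hy, mul_one_div, div_lt_iff₀ hn0]
      exact hε2
    have hy4 : y ^ 2 < 1 / 4 := by
      have := pow_lt_pow_left₀ hy2 hy0.le two_ne_zero
      norm_num at this
      linarith
    have hyy : 2 * y ^ 2 < ε := by
      have h1 : y ^ 2 ≤ y * 1 := by
        rw [pow_two]
        exact mul_le_mul_of_nonneg_left (by linarith) hy0.le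
      linarith
    have hw2 : 0 ≤ w ^ 2 := sq_nonneg w
    have hf2 : 0 ≤ φ ^ 2 := sq_nonneg φ
    have p1 : y ^ 2 * w ^ 2 ≤ 1 / 4 * w ^ 2 := mul_le_mul_of_nonneg_right hy4.le hw2
    have p2 : y ^ 2 * φ ^ 2 ≤ 1 / 4 * φ ^ 2 := mul_le_mul_of_nonneg_right hy4.le hf2
    have p3 : 2 * y ^ 2 * φ ^ 2 ≤ ε * φ ^ 2 := mul_le_mul_of_nonneg_right hyy.le hf2
    have p4 : y ^ 2 * ‖τ‖ ^ 2 ≤ y ^ 2 * w ^ 2 + 4 * (y ^ 2 * φ ^ 2) := by
      have := mul_le_mul_of_nonneg_left hup (sq_nonneg y)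
      linarith
    have p5 : c / 4 * w ^ 2 ≤ 1 / 32 * w ^ 2 :=
      mul_le_mul_of_nonneg_right (by linarith) hw2
    have p6 : 0 ≤ ε * φ ^ 2 := by positivity
    have p7 : 0 ≤ ε * w ^ 2 := by positivity
    set s : ℝ := τ.re / ‖τ‖ with hs
    have hs0 : 0 < s := div_pos hre0 hnp
    have hs1 : s ≤ 1 := (div_le_one hnp).2 hre1
    have hsn : s * ‖τ‖ = τ.re := by rw [hs]; field_simp
    set j : ℕ := ⌊s * n⌋₊ with hj
    have hj1 : (j : ℝ) ≤ s * n := Nat.floor_le (by positivity)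
    have hj2 : s * n < (j : ℝ) + 1 := Nat.lt_floor_add_one _
    have hjn : j ≤ n := by
      have h1 : (j : ℝ) ≤ n := hj1.trans (mul_le_of_le_one_left hn0.le hs1)
      exact_mod_cast h1
    have hjy : (j : ℝ) / n = j * y := by rw [hy]; ring
    have hjs : (j : ℝ) / n ≤ s := by rw [div_le_iff₀ hn0]; exact hj1
    have hjs2 : s < (j : ℝ) / n + y := by
      rw [hy, ← add_div, lt_div_iff₀ hn0]; exact hj2
    rcases Nat.eq_zero_or_pos j with h0 | h0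
    · -- near the circle
      have h3 := h₂ τ hτ0 (by linarith)
      rw [hτt] at h3
      refine h3.mono ?_
      have e0 : s < y := by
        rw [h0] at hjs2
        simpa using hjs2
      have e1 : w ≤ y * ‖τ‖ := by
        have : s * ‖τ‖ ≤ y * ‖τ‖ := mul_le_mul_of_nonneg_right e0.le hnn
        linarith
      have e2 : w ^ 2 ≤ y ^ 2 * ‖τ‖ ^ 2 := by
        rw [← mul_pow]
        exact pow_le_pow_left₀ hw0.le e1 2
      have e5 : w ^ 2 ≤ 16 / 3 * (y ^ 2 * φ ^ 2) := by linarith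
      have e6 : (1 / 4 + ε / 8) * ‖τ‖ ^ 2 = 1 / 4 * ‖τ‖ ^ 2 + ε / 8 * ‖τ‖ ^ 2 := by ring
      have e7 : ε / 8 * ‖τ‖ ^ 2 ≤ ε / 8 * (w ^ 2 + 4 * φ ^ 2) :=
        mul_le_mul_of_nonneg_left hup (by positivity)
      have e9 : w ^ 2 ≤ 4 / 3 * φ ^ 2 := by linarith
      have e10 : w ^ 2 ≤ 8 / 3 * (ε * φ ^ 2) := by linarith
      have e11 : ε * w ^ 2 ≤ ε * (4 / 3 * φ ^ 2) := mul_le_mul_of_nonneg_left e9 hε.le
      have e12 : (1 / 4 - c / 4) * w ^ 2 = w ^ 2 / 4 - c / 4 * w ^ 2 := by ring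
      rw [e6, e12]
      linarith
    · -- a sector
      have hsec : ((j : ℝ) / n) * ‖τ‖ ≤ τ.re := by
        rw [← hsn]
        exact mul_le_mul_of_nonneg_right hjs hnn
      have hτd : ‖τ‖ < d j := by
        refine lt_of_lt_of_le ?_ (hDd j (by omega))
        linarith
      have h3 := H j τ hτ0 hτd h0 hjn hsec
      rw [hτt] at h3
      refine h3.mono ?_
      set x : ℝ := (j : ℝ) / n with hx
      have hx0 : 0 ≤ x := by positivity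
      -- `x ≥ s - y`
      have e1 : τ.re ≤ (x + y) * ‖τ‖ := by
        rw [← hsn]
        exact mul_le_mul_of_nonneg_right hjs2.le hnn
      have e2 : w ≤ x * ‖τ‖ + y * ‖τ‖ := by
        have := hτw.trans e1
        linarith
      have e3 : w ^ 2 ≤ 2 * (x * ‖τ‖) ^ 2 + 2 * (y * ‖τ‖) ^ 2 := by
        have h1 : w ^ 2 ≤ (x * ‖τ‖ + y * ‖τ‖) ^ 2 := pow_le_pow_left₀ hw0.le e2 2
        have h2 : (x * ‖τ‖ + y * ‖τ‖) ^ 2 =
            2 * (x * ‖τ‖) ^ 2 + 2 * (y * ‖τ‖) ^ 2 - (x * ‖τ‖ - y * ‖τ‖) ^ 2 := by ring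
        have h3 := sq_nonneg (x * ‖τ‖ - y * ‖τ‖)
        linarith
      have e4 : (y * ‖τ‖) ^ 2 = y ^ 2 * ‖τ‖ ^ 2 := mul_pow _ _ _
      have e8 : w ^ 2 / 4 - 2 * (ε * φ ^ 2) ≤ (x * ‖τ‖) ^ 2 := by linarith
      have e9 : (1 / 4 - c * x ^ 2) * ‖τ‖ ^ 2 = 1 / 4 * ‖τ‖ ^ 2 - c * (x * ‖τ‖) ^ 2 := by ring
      have e10 : c * (w ^ 2 / 4 - 2 * (ε * φ ^ 2)) ≤ c * (x * ‖τ‖) ^ 2 :=
        mul_le_mul_of_nonneg_left e8 hc.le
      have e12 : c * (ε * φ ^ 2) ≤ 1 / 8 * (ε * φ ^ 2) := mul_le_mul_of_nonneg_right hc8 p6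
      have e13 : (1 / 4 - c / 4) * w ^ 2 = w ^ 2 / 4 - c / 4 * w ^ 2 := by ring
      rw [e9, e13]
      linarith

/-- The spectrum near the ray `[2, ∞)`, with a constant. -/
theorem shape6
    (H4 : ∀ ε : ℝ, 0 < ε → ∃ δ₀ : ℝ, 0 < δ₀ ∧ ∀ τ : ℂ, τ ≠ 0 → ‖τ‖ < δ₀ → ∃ C : ℝ,
      ∀ ψ h : ℂ → ℂ, Pool.Agent.Helper26.G4.Sg ψ h → ∀ R : ℝ, 1 < R →
        (1 / (2 * π)) * ∫ θ in (0:ℝ)..(2 * π),
          ‖Complex.exp ((2 - τ) * h ((R : ℂ) * Complex.exp ((θ : ℂ) * Complex.I)))‖ ≤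
        C * (R ^ 2 / (R ^ 2 - 1)) ^ (1 - τ.re + (1 / 4 + ε) * ‖τ‖ ^ 2))
    (H6 : ∃ c : ℝ, 0 < c ∧ c ≤ 1 / 8 ∧ ∀ e : ℝ, 0 < e → e ≤ 1 → ∃ δ₀ : ℝ, 0 < δ₀ ∧
      ∀ τ : ℂ, τ ≠ 0 → ‖τ‖ < δ₀ → e * ‖τ‖ ≤ τ.re → ∃ C : ℝ,
      ∀ ψ h : ℂ → ℂ, Pool.Agent.Helper26.G4.Sg ψ h → ∀ R : ℝ, 1 < R →
        (1 / (2 * π)) * ∫ θ in (0:ℝ)..(2 * π),
          ‖Complex.exp ((2 - τ) * h ((R : ℂ) * Complex.exp ((θ : ℂ) * Complex.I)))‖ ≤
        C * (R ^ 2 / (R ^ 2 - 1)) ^ (1 - τ.re + (1 / 4 - c * e ^ 2) * ‖τ‖ ^ 2)) :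
    ∃ c : ℝ, 0 < c ∧ ∀ ε : ℝ, 0 < ε → ∃ d : ℝ, 0 < d ∧ ∀ (t : ℂ) (w : ℝ),
      w = max (2 - ‖t‖) 0 → w < d → |t.arg| < d →
      Upper t (‖t‖ - 1 + (1 / 4 - c) * w ^ 2 + ε * t.arg ^ 2) ∧
      ∀ s : ℝ, s < ‖t‖ - 1 → Low t s := by
  obtain ⟨c, hc, hc8, H6⟩ := H6
  refine ⟨c / 4, by positivity, fun ε hε => ?_⟩
  obtain ⟨d, hd, hd1, h⟩ := shape6_up
    (fun ε hε => by
      obtain ⟨d, hd, h⟩ := H4 ε hε
      exact ⟨d, hd, fun τ h0 hτ => upAt_of_sg (h τ h0 hτ)⟩) hc hc8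
    (fun e he he1 => by
      obtain ⟨d, hd, h⟩ := H6 e he he1
      exact ⟨d, hd, fun τ h0 hτ hs => upAt_of_sg (h τ h0 hτ hs)⟩) ε hε
  refine ⟨d, hd, fun t w hw hwd hφ => ⟨(h t w hw hwd hφ).upper, fun s hs => low_all ?_ hs⟩⟩
  have : 2 - ‖t‖ ≤ w := by rw [hw]; exact le_max_left _ _
  linarith

end Pool.Agent.Helper5.TR
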