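import Pool.Agent.Helper5.TR.Shape
import Pool.Agent.Helper39.G4L.Fin
set_option autoImplicit false
open Complex MeasureTheory Metric Set Filter Topology
open scoped Real ComplexConjugate

/-! The spectrum near the ray `[2, ∞)`, from the strict bound for real exponents only: the function
`p` is smaller than `1` near `0`. -/

namespace Pool.Agent.Helper5.TR

open Pool.Agent.Helper39.G4L (Low low_all Upper cone upper_real upper_of_sg)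

theorem upAt_of_upper {t : ℂ} {s : ℝ} (H : Upper t s) : UpAt t s := by
  obtain ⟨C, hC⟩ := H
  exact ⟨C, fun ψ h a R hR => hC ψ h a.diff a.inj a.lim a.hdiff a.hexp a.hlim R hR⟩

theorem shape_real_up
    (G4 : ∀ ε : ℝ, 0 < ε → ∃ d : ℝ, 0 < d ∧ ∀ τ : ℂ, τ ≠ 0 → ‖τ‖ < d →
      UpAt (2 - τ) (1 - τ.re + (1 / 4 + ε) * ‖τ‖ ^ 2))
    (G3 : ∃ c : ℝ, 0 < c ∧ ∃ d : ℝ, 0 < d ∧ ∀ τ : ℂ, τ ≠ 0 → ‖τ‖ < d → |τ.im| ≤ c * τ.re →
      UpAt (2 - τ) (1 - τ.re + (1 / 4 - c) * ‖τ‖ ^ 2)) :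
    ∃ p : ℝ → ℝ, Monotone p ∧ (∀ r : ℝ, p r ≤ 1) ∧ (∃ r : ℝ, 0 < r ∧ p r < 1) ∧
      ∀ ε : ℝ, 0 < ε → ∃ d : ℝ, 0 < d ∧ d ≤ 1 ∧ ∀ (t : ℂ) (w : ℝ), w = max (2 - ‖t‖) 0 →
        w < d → |t.arg| < d →
        UpAt t (‖t‖ - 1 + p (|t.arg| / w) * w ^ 2 / 4 + ε * (w ^ 2 + t.arg ^ 2)) := by
  obtain ⟨c, hc, d₀, hd₀, G3⟩ := G3
  refine ⟨fun r => if r ≤ c / 2 then 1 - 4 * c else 1, ?_, ?_, ⟨c / 2, by positivity, ?_⟩, ?_⟩
  · intro r r' h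
    simp only
    split_ifs
    · exact le_rfl
    · linarith
    · linarith
    · exact le_rfl
  · intro r
    simp only
    split_ifs
    · linarith
    · exact le_rfl
  · simp only [le_refl, if_true]
    linarith
  · intro ε hε
    obtain ⟨d₁, hd₁, h₁⟩ := ray G4 ε hε
    obtain ⟨d₂, hd₂, h₂⟩ := G4 (ε / 8) (by positivity)
    refine ⟨min (min d₁ 1) (min (d₀ / 3) (d₂ / 3)), by positivity,
      (min_le_left _ _).trans (min_le_right _ _), ?_⟩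
    intro t w hw hwd hφd
    have f1 : |t.arg| < d₁ := hφd.trans_le ((min_le_left _ _).trans (min_le_left _ _))
    have f2 : |t.arg| < d₀ / 3 := hφd.trans_le ((min_le_right _ _).trans (min_le_left _ _))
    have f3 : |t.arg| < d₂ / 3 := hφd.trans_le ((min_le_right _ _).trans (min_le_right _ _))
    have w2 : w < d₀ / 3 := hwd.trans_le ((min_le_right _ _).trans (min_le_left _ _))
    have w3 : w < d₂ / 3 := hwd.trans_le ((min_le_right _ _).trans (min_le_right _ _))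
    simp only
    rcases le_or_gt 2 ‖t‖ with ht | ht
    · have hw0 : w = 0 := by rw [hw, max_eq_right (by linarith)]
      rw [hw0]
      refine (h₁ t ht f1).mono (le_of_eq ?_)
      ring
    · have hwe : w = 2 - ‖t‖ := by rw [hw, max_eq_left (by linarith)]
      have hw0 : 0 < w := by linarith
      set φ : ℝ := t.arg with hφ
      set τ : ℂ := 2 - t with hτ
      have hτt : 2 - τ = t := by rw [hτ]; ring
      have htre : ‖t‖ * Real.cos φ = t.re := Complex.norm_mul_cos_arg t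
      have htim : ‖t‖ * Real.sin φ = t.im := Complex.norm_mul_sin_arg t
      have htn : ‖t‖ ^ 2 = t.re ^ 2 + t.im ^ 2 := by
        rw [← Complex.normSq_eq_norm_sq, Complex.normSq_apply]; ring
      have hτre : τ.re = 2 - t.re := by rw [hτ]; simp
      have hτim : τ.im = -t.im := by rw [hτ]; simp
      have hτn : ‖τ‖ ^ 2 = 4 - 4 * t.re + ‖t‖ ^ 2 := by
        rw [htn, ← Complex.normSq_eq_norm_sq, Complex.normSq_apply, hτ]
        simp only [Complex.sub_re, Complex.sub_im, Complex.re_ofNat, Complex.im_ofNat]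
        ring
      have htp : 0 ≤ ‖t‖ := norm_nonneg t
      have hcos1 : Real.cos φ ≤ 1 := Real.cos_le_one φ
      have hcos2 : 1 - Real.cos φ ≤ φ ^ 2 / 2 := by
        have := Real.one_sub_sq_div_two_le_cos (x := φ)
        linarith
      have hτw : w ≤ τ.re := by rw [hτre, hwe]; nlinarith
      have hτ0 : τ ≠ 0 := by
        intro h
        rw [h] at hτw
        simp at hτw
        linarith
      have hup : ‖τ‖ ^ 2 ≤ w ^ 2 + 4 * φ ^ 2 := by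
        rw [hτn, hwe, ← htre]
        nlinarith
      have hlo : w ^ 2 ≤ ‖τ‖ ^ 2 := by
        rw [hτn, hwe, ← htre]
        nlinarith
      have hnn : 0 ≤ ‖τ‖ := norm_nonneg τ
      have hφ2 : |φ| ^ 2 = φ ^ 2 := sq_abs φ
      have hφ0 : 0 ≤ |φ| := abs_nonneg φ
      have hle : ‖τ‖ ≤ w + 2 * |φ| := by
        refine (sq_le_sq₀ hnn (by positivity)).1 (hup.trans ?_)
        rw [← hφ2]
        nlinarith [mul_nonneg hw0.le hφ0]
      have key : 1 - τ.re + 1 / 4 * ‖τ‖ ^ 2 = ‖t‖ - 1 + w ^ 2 / 4 := by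
        rw [hτn, hτre, hwe]
        ring
      split_ifs with hr
      · -- the sector
        have hrn : |φ| ≤ c / 2 * w := by rwa [div_le_iff₀ hw0] at hr
        have hsec : |τ.im| ≤ c * τ.re := by
          rw [hτim, abs_neg, ← htim, abs_mul, abs_of_nonneg htp]
          have h1 : |Real.sin φ| ≤ |φ| := by
            have := Real.abs_sin_le_abs (x := φ)
            exact this
          have h2 : ‖t‖ * |Real.sin φ| ≤ 2 * |φ| :=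
            mul_le_mul ht.le h1 (abs_nonneg _) (by norm_num)
          have h3 : c * w ≤ c * τ.re := mul_le_mul_of_nonneg_left hτw hc.le
          linarith
        have h3 := G3 τ hτ0 (by linarith) hsec
        rw [hτt] at h3
        refine h3.mono ?_
        have e1 : c * w ^ 2 ≤ c * ‖τ‖ ^ 2 := mul_le_mul_of_nonneg_left hlo hc.le
        have e2 : 0 ≤ ε * (w ^ 2 + φ ^ 2) := by positivity
        have e3 : (1 / 4 - c) * ‖τ‖ ^ 2 = 1 / 4 * ‖τ‖ ^ 2 - c * ‖τ‖ ^ 2 := by ring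
        have e4 : (1 - 4 * c) * w ^ 2 / 4 = w ^ 2 / 4 - c * w ^ 2 := by ring
        rw [e3, e4]
        linarith
      · have h3 := h₂ τ hτ0 (by linarith)
        rw [hτt] at h3
        refine h3.mono ?_
        have e4 : (1 / 4 + ε / 8) * ‖τ‖ ^ 2 = 1 / 4 * ‖τ‖ ^ 2 + ε / 8 * ‖τ‖ ^ 2 := by ring
        have e5 : ε / 8 * ‖τ‖ ^ 2 ≤ ε / 8 * (w ^ 2 + 4 * φ ^ 2) :=
          mul_le_mul_of_nonneg_left hup (by positivity)
        rw [e4]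
        have e7 : 0 ≤ ε * w ^ 2 := by positivity
        have e8 : 0 ≤ ε * φ ^ 2 := by positivity
        nlinarith

/-- The spectrum near the ray `[2, ∞)`, without the strict bound in all sectors. -/
theorem shape_real
    (H3 : ∃ c : ℝ, 0 < c ∧ ∃ δ₀ : ℝ, 0 < δ₀ ∧ ∀ δ : ℝ, 0 < δ → δ < δ₀ → ∃ C : ℝ,
      ∀ ψ : ℂ → ℂ, DifferentiableOn ℂ ψ {z : ℂ | 1 < ‖z‖} → Set.InjOn ψ {z : ℂ | 1 < ‖z‖} →
      (∃ b : ℂ, Filter.Tendsto (fun z => ψ z - z) (Bornology.cobounded ℂ) (nhds b)) →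
      ∀ R : ℝ, 1 < R →
        (1 / (2 * π)) * ∫ θ in (0:ℝ)..(2 * π),
          ‖deriv ψ ((R : ℂ) * Complex.exp ((θ : ℂ) * Complex.I))‖ ^ (2 - δ) ≤
        C * (R ^ 2 / (R ^ 2 - 1)) ^ (1 - δ + (1 / 4 - c) * δ ^ 2))
    (H4 : ∀ ε : ℝ, 0 < ε → ∃ δ₀ : ℝ, 0 < δ₀ ∧ ∀ τ : ℂ, τ ≠ 0 → ‖τ‖ < δ₀ → ∃ C : ℝ,
      ∀ ψ h : ℂ → ℂ, Pool.Agent.Helper26.G4.Sg ψ h → ∀ R : ℝ, 1 < R →
        (1 / (2 * π)) * ∫ θ in (0:ℝ)..(2 * π),
          ‖Complex.exp ((2 - τ) * h ((R : ℂ) * Complex.exp ((θ : ℂ) * Complex.I)))‖ ≤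
        C * (R ^ 2 / (R ^ 2 - 1)) ^ (1 - τ.re + (1 / 4 + ε) * ‖τ‖ ^ 2)) :
    ∃ p : ℝ → ℝ, Monotone p ∧ (∀ r : ℝ, p r ≤ 1) ∧ (∃ r : ℝ, 0 < r ∧ p r < 1) ∧
      ∀ ε : ℝ, 0 < ε → ∃ d : ℝ, 0 < d ∧ ∀ (t : ℂ) (w : ℝ), w = max (2 - ‖t‖) 0 →
        w < d → |t.arg| < d →
        Upper t (‖t‖ - 1 + p (|t.arg| / w) * w ^ 2 / 4 + ε * (w ^ 2 + t.arg ^ 2)) ∧
        ∀ s : ℝ, s < ‖t‖ - 1 → Low t s := by
  have K4 : ∀ ε : ℝ, 0 < ε → ∃ δ₀ : ℝ, 0 < δ₀ ∧ ∀ τ : ℂ, τ ≠ 0 → ‖τ‖ < δ₀ →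
      Upper (2 - τ) (1 - τ.re + (1 / 4 + ε) * ‖τ‖ ^ 2) := by
    intro ε hε
    obtain ⟨δ₀, hδ₀, h⟩ := H4 ε hε
    exact ⟨δ₀, hδ₀, fun τ h0 hτ => upper_of_sg (h τ h0 hτ)⟩
  have K3 : ∃ c : ℝ, 0 < c ∧ ∃ δ₀ : ℝ, 0 < δ₀ ∧ ∀ τ : ℂ, τ ≠ 0 → ‖τ‖ < δ₀ →
      |τ.im| ≤ c * τ.re → Upper (2 - τ) (1 - τ.re + (1 / 4 - c) * ‖τ‖ ^ 2) := by
    refine cone ?_ K4
    obtain ⟨c, hc, δ₀, hδ₀, h⟩ := H3
    exact ⟨c, hc, δ₀, hδ₀, fun δ h0 h1 => upper_real (h δ h0 h1)⟩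
  obtain ⟨p, p1, p2, p3, h⟩ := shape_real_up
    (fun ε hε => by
      obtain ⟨d, hd, h⟩ := K4 ε hε
      exact ⟨d, hd, fun τ h0 hτ => upAt_of_upper (h τ h0 hτ)⟩)
    (by
      obtain ⟨c, hc, d, hd, h⟩ := K3
      exact ⟨c, hc, d, hd, fun τ h0 hτ hs => upAt_of_upper (h τ h0 hτ hs)⟩)
  refine ⟨p, p1, p2, p3, fun ε hε => ?_⟩
  obtain ⟨d, hd, hd1, h⟩ := h ε hε
  refine ⟨d, hd, fun t w hw hwd hφ => ⟨(h t w hw hwd hφ).upper, fun s hs => low_all ?_ hs⟩⟩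
  have : 2 - ‖t‖ ≤ w := by rw [hw]; exact le_max_left _ _
  linarith

end Pool.Agent.Helper5.TR
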