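import Pool.Agent.Helper5.TR.Local
set_option autoImplicit false
open Complex MeasureTheory Metric Set Filter Topology
open scoped Real ComplexConjugate

/-! The strong Marshall integral over the set where `|h| ≥ rho * log (R^2/(R^2-1))`, for every
`a < 1`, from exactness of the spectrum at one point of every ray except the positive one. -/

namespace Pool.Agent.Helper5.TR

/-- weak form of `B(t) = |t| - 1` -/
def Ex (t : ℂ) : Prop := ∀ e : ℝ, 0 < e → UpAt t (‖t‖ - 1 + e)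

/-- the exponential integral with parameter `a` over `{h / L ∈ K}` is bounded, uniformly -/
def Bdd (a : ℝ) (K : Set ℂ) : Prop :=
  ∃ C : ℝ, ∀ ψ h : ℂ → ℂ, Sg ψ h → ∀ R : ℝ, 1 < R →
    (2 * π)⁻¹ * (∫ θ in (0:ℝ)..(2 * π), {θ : ℝ | h (R * Complex.exp (θ * I)) /
          (Real.log (R ^ 2 / (R ^ 2 - 1)) : ℂ) ∈ K}.indicator
        (fun θ : ℝ => Real.exp (a * ‖h (R * Complex.exp (θ * I))‖ ^ 2 /
          Real.log (R ^ 2 / (R ^ 2 - 1)))) θ) ≤ C

/-- the aligned choice of `t` -/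
theorem aligned {a k : ℝ} {z : ℂ} (hz : z ≠ 0) (hk : 0 ≤ k) (hEx : Ex (k * (conj z / ‖z‖)))
    (h : a * ‖z‖ ^ 2 < 1 - k * (1 - ‖z‖)) :
    ∃ (t : ℂ) (b : ℝ), UpAt t b ∧ a * ‖z‖ ^ 2 < (t * z).re - b := by
  have hn : 0 < ‖z‖ := norm_pos_iff.2 hz
  set e : ℝ := (1 - k * (1 - ‖z‖) - a * ‖z‖ ^ 2) / 2 with he
  have he0 : 0 < e := by rw [he]; linarith
  have hnorm : ‖(k:ℂ) * (conj z / ‖z‖)‖ = k := by
    rw [norm_mul, norm_div, RCLike.norm_conj, Complex.norm_real, Complex.norm_real, norm_norm,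
      div_self hn.ne', mul_one, Real.norm_of_nonneg hk]
  refine ⟨k * (conj z / ‖z‖), _, hEx e he0, ?_⟩
  have h1 : ((k:ℂ) * (conj z / ‖z‖) * z).re = k * ‖z‖ := by
    have h2 : (k:ℂ) * (conj z / ‖z‖) * z = ((k * ‖z‖ : ℝ) : ℂ) := by
      have h3 : conj z * z = ((‖z‖ : ℝ) : ℂ) ^ 2 := by
        rw [mul_comm, Complex.mul_conj, Complex.normSq_eq_norm_sq]
        push_cast
        rfl
      have hnc : ((‖z‖ : ℝ) : ℂ) ≠ 0 := by exact_mod_cast hn.ne'
      push_cast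
      field_simp
      linear_combination (k:ℂ) * h3
    rw [h2, Complex.ofReal_re]
  rw [h1, hnorm]
  linarith

/-- the positive direction: the area theorem -/
theorem positive {a : ℝ} {z : ℂ} (h : a * ‖z‖ ^ 2 < 2 * z.re - 1) :
    ∃ (t : ℂ) (b : ℝ), UpAt t b ∧ a * ‖z‖ ^ 2 < (t * z).re - b := by
  refine ⟨2, 1, up_two, ?_⟩
  have : ((2:ℂ) * z).re = 2 * z.re := by simp
  rw [this]; exact h

/-- existence of `rho`: exactness at one point of every ray other than the positive one -/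
theorem exists_rho (H : ∀ u : ℂ, ‖u‖ = 1 → u ≠ 1 → ∃ k : ℝ, 0 ≤ k ∧ Ex (k * u))
    {a : ℝ} (ha : a < 1) :
    ∃ ρ : ℝ, 0 < ρ ∧ ρ < 1 ∧ Bdd a {z : ℂ | ρ ≤ ‖z‖ ∧ ‖z‖ ≤ 1} := by
  set U : Set ℂ := ⋃ p ∈ {p : ℂ × ℝ | UpAt p.1 p.2},
    {w : ℂ | a * ‖w‖ ^ 2 < (p.1 * w).re - p.2} with hU
  have hUo : IsOpen U :=
    isOpen_biUnion fun p _ => isOpen_lt (by fun_prop) (by fun_prop)
  have hmem : ∀ z : ℂ, z ∈ U → ∃ (t : ℂ) (b : ℝ), UpAt t b ∧ a * ‖z‖ ^ 2 < (t * z).re - b := by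
    intro z hz
    obtain ⟨p, hp, hz⟩ := mem_iUnion₂.1 hz
    exact ⟨p.1, p.2, hp, hz⟩
  have hcirc : ∀ z : ℂ, ‖z‖ = 1 → z ∈ U := by
    intro z hz
    have hz0 : z ≠ 0 := by
      intro h0; rw [h0, norm_zero] at hz; norm_num at hz
    have hex : ∃ (t : ℂ) (b : ℝ), UpAt t b ∧ a * ‖z‖ ^ 2 < (t * z).re - b := by
      by_cases h1 : z = 1
      · apply positive
        rw [h1, norm_one]
        simp only [Complex.one_re]
        linarith
      · obtain ⟨k, hk, hEx⟩ := H (conj z) (by rw [RCLike.norm_conj, hz]) (by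
          intro h2
          apply h1
          have := congrArg conj h2
          simpa using this)
        apply aligned hz0 hk (by rw [hz]; simpa using hEx)
        rw [hz]; linarith
    obtain ⟨t, b, h1, h2⟩ := hex
    exact mem_iUnion₂.2 ⟨(t, b), h1, h2⟩
  have hKc : IsCompact (closedBall (0:ℂ) 1 \ U) :=
    (isCompact_closedBall (0:ℂ) 1).diff hUo
  have hrho : ∃ ρ : ℝ, 0 < ρ ∧ ρ < 1 ∧ ∀ z : ℂ, ρ ≤ ‖z‖ → ‖z‖ ≤ 1 → z ∈ U := by
    rcases (closedBall (0:ℂ) 1 \ U).eq_empty_or_nonempty with h0 | h0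
    · refine ⟨1 / 2, by norm_num, by norm_num, ?_⟩
      intro z _ hz
      by_contra hzU
      have : z ∈ closedBall (0:ℂ) 1 \ U := ⟨by simpa using hz, hzU⟩
      rw [h0] at this
      exact this
    · obtain ⟨w, hw, hmax⟩ := hKc.exists_isMaxOn h0 continuous_norm.continuousOn
      have hw1 : ‖w‖ < 1 := by
        have h1 : ‖w‖ ≤ 1 := by simpa using hw.1
        rcases h1.lt_or_eq with h2 | h2
        · exact h2
        · exact absurd (hcirc w h2) hw.2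
      have hw0 : 0 ≤ ‖w‖ := norm_nonneg w
      refine ⟨(1 + ‖w‖) / 2, by linarith, by linarith, ?_⟩
      intro z hz1 hz
      by_contra hzU
      have h2 : z ∈ closedBall (0:ℂ) 1 \ U := ⟨by simpa using hz, hzU⟩
      have h3 : ‖z‖ ≤ ‖w‖ := hmax h2
      linarith
  obtain ⟨ρ, h0, h1, h2⟩ := hrho
  refine ⟨ρ, h0, h1, ?_⟩
  apply local_bound
  · have : {z : ℂ | ρ ≤ ‖z‖ ∧ ‖z‖ ≤ 1} = closedBall (0:ℂ) 1 \ ball (0:ℂ) ρ := by
      ext z
      simp only [mem_setOf_eq, mem_diff, mem_closedBall, dist_zero_right, mem_ball, not_lt]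
      tauto
    rw [this]
    exact (isCompact_closedBall (0:ℂ) 1).diff isOpen_ball
  · intro z hz
    exact hmem z (h2 z hz.1 hz.2)

/-- explicit `rho`, in the contracting half plane -/
theorem left_bdd {k a ρ : ℝ} (hk : 2 ≤ k) (H : ∀ t : ℂ, t.re ≤ 0 → ‖t‖ = k → Ex t)
    (ha : a ≤ 1) (hρ : 0 < ρ) (h : a * ρ ^ 2 < 1 - k * (1 - ρ)) :
    Bdd a {z : ℂ | ρ ≤ ‖z‖ ∧ ‖z‖ ≤ 1 ∧ z.re ≤ 0} := by
  apply local_bound
  · have : {z : ℂ | ρ ≤ ‖z‖ ∧ ‖z‖ ≤ 1 ∧ z.re ≤ 0} =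
        (closedBall (0:ℂ) 1 \ ball (0:ℂ) ρ) ∩ {z : ℂ | z.re ≤ 0} := by
      ext z
      simp only [mem_setOf_eq, mem_diff, mem_closedBall, dist_zero_right, mem_ball, not_lt,
        mem_inter_iff]
      tauto
    rw [this]
    exact ((isCompact_closedBall (0:ℂ) 1).diff isOpen_ball).inter_right
      (isClosed_le (by fun_prop) (by fun_prop))
  · rintro z ⟨h1, h2, h3⟩
    have hn : 0 < ‖z‖ := lt_of_lt_of_le hρ h1
    apply aligned (k := k) (norm_pos_iff.1 hn) (by linarith)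
    · apply H
      · have : ((k:ℂ) * (conj z / ‖z‖)).re = k * (z.re / ‖z‖) := by
          rw [Complex.re_ofReal_mul, Complex.div_ofReal_re, Complex.conj_re]
        rw [this]
        exact mul_nonpos_of_nonneg_of_nonpos (by linarith)
          (div_nonpos_of_nonpos_of_nonneg h3 hn.le)
      · rw [norm_mul, norm_div, RCLike.norm_conj, Complex.norm_real, Complex.norm_real, norm_norm,
          div_self hn.ne', mul_one, Real.norm_of_nonneg (by linarith)]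
    · nlinarith [mul_nonneg (sub_nonneg.2 h1) (sub_nonneg.2 h2),
        mul_nonneg (sub_nonneg.2 h1) (by linarith : (0:ℝ) ≤ k - 2),
        mul_nonneg (sub_nonneg.2 h1) (by linarith : (0:ℝ) ≤ 1 - a),
        mul_nonneg (mul_nonneg (sub_nonneg.2 h1) (by linarith : (0:ℝ) ≤ 1 - a)) (by linarith : (0:ℝ) ≤ ‖z‖ + ρ),
        mul_nonneg (sub_nonneg.2 h1) (by linarith : (0:ℝ) ≤ 2 - ‖z‖ - ρ)]

/-- explicit `rho = 1 - η (1 - a)²` in all directions, from exactness in the region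
`(|t| - p) (|t| - Re t) ≥ 2 q |t|` -/
theorem all_bdd {p q η τ a : ℝ} (hp : 0 ≤ p) (hq : 0 < q) (hη : 0 < η) (hτ : 0 < τ)
    (hc1 : τ + 2 * η + η ^ 2 < 1) (hc2 : η * (p + 4 * q / τ) < 1)
    (H : ∀ t : ℂ, t.re < ‖t‖ → 2 * q * ‖t‖ ≤ (‖t‖ - p) * (‖t‖ - t.re) → Ex t)
    (ha0 : 0 ≤ a) (ha1 : a < 1) :
    Bdd a {z : ℂ | 1 - η * (1 - a) ^ 2 ≤ ‖z‖ ∧ ‖z‖ ≤ 1} := by
  have hη1 : η < 1 / 2 := by nlinarith
  have hδ : (1 - a) ^ 2 ≤ 1 := by nlinarith
  have hρ : 1 / 2 < 1 - η * (1 - a) ^ 2 := by nlinarith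
  apply local_bound
  · have : {z : ℂ | 1 - η * (1 - a) ^ 2 ≤ ‖z‖ ∧ ‖z‖ ≤ 1} =
        closedBall (0:ℂ) 1 \ ball (0:ℂ) (1 - η * (1 - a) ^ 2) := by
      ext z
      simp only [mem_setOf_eq, mem_diff, mem_closedBall, dist_zero_right, mem_ball, not_lt]
      tauto
    rw [this]
    exact (isCompact_closedBall (0:ℂ) 1).diff isOpen_ball
  · rintro z ⟨h1, h2⟩
    have hn : 0 < ‖z‖ := by linarith
    set d : ℝ := 1 - a with hd
    have hd0 : 0 < d := by rw [hd]; linarith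
    have hd1 : d ≤ 1 := by rw [hd]; linarith
    set s : ℝ := 1 - ‖z‖ with hs
    have hs0 : 0 ≤ s := by rw [hs]; linarith
    have hs1 : s ≤ η * d ^ 2 := by rw [hs]; linarith
    have hre : z.re ≤ ‖z‖ := Complex.re_le_norm z
    -- `c = 1 - cos`
    set c : ℝ := 1 - z.re / ‖z‖ with hc
    have hc0 : 0 ≤ c := by
      rw [hc, sub_nonneg, div_le_one hn]; exact hre
    have hzr : z.re = ‖z‖ * (1 - c) := by
      rw [hc]; field_simp; ring
    by_cases hcase : c ≤ τ * d / 2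
    · apply positive
      rw [hzr]
      have hz : ‖z‖ = 1 - s := by rw [hs]; ring
      have haa : a = 1 - d := by rw [hd]; ring
      rw [hz, haa]
      have e1 : η * d ^ 2 * d ≤ η * d := by nlinarith [mul_nonneg hη.le hd0.le]
      have e2 : s * d ≤ η * d := by nlinarith
      have e3 : s ≤ η * d := by nlinarith [mul_nonneg hη.le hd0.le]
      have e4 : s ^ 2 ≤ η ^ 2 * d := by
        have : s ^ 2 ≤ (η * d) ^ 2 := by nlinarith
        nlinarith [mul_nonneg (sq_nonneg η) hd0.le]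
      have e5 : d * (τ + 2 * η + η ^ 2) < d * 1 := by
        exact mul_lt_mul_of_pos_left hc1 hd0
      nlinarith [mul_nonneg hc0 hs0, mul_nonneg hd0.le (sq_nonneg s), mul_nonneg hd0.le hs0]
    · push Not at hcase
      have hcp : 0 < c := lt_of_le_of_lt (by positivity) hcase
      set k : ℝ := p + 2 * q / c with hk
      have hk0 : 0 < k := by rw [hk]; positivity
      have hkn : ‖(k:ℂ) * (conj z / ‖z‖)‖ = k := by
        rw [norm_mul, norm_div, RCLike.norm_conj, Complex.norm_real, Complex.norm_real, norm_norm,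
          div_self hn.ne', mul_one, Real.norm_of_nonneg hk0.le]
      have hkr : ((k:ℂ) * (conj z / ‖z‖)).re = k * (1 - c) := by
        rw [Complex.re_ofReal_mul, Complex.div_ofReal_re, Complex.conj_re, hc]
        ring
      apply aligned (k := k) (norm_pos_iff.1 hn) hk0.le
      · apply H
        · rw [hkn, hkr]; nlinarith [mul_pos hk0 hcp]
        · rw [hkn, hkr]
          have e1 : (k - p) * (k - k * (1 - c)) = 2 * q * k := by
            rw [show k - p = 2 * q / c by rw [hk]; ring]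
            field_simp
            ring
          rw [e1]
      · have hk2 : k < p + 4 * q / (τ * d) := by
          rw [hk]
          have : 2 * q / c < 4 * q / (τ * d) := by
            rw [div_lt_div_iff₀ hcp (by positivity)]
            nlinarith
          linarith
        have e1 : k * s ≤ (p + 4 * q / (τ * d)) * (η * d ^ 2) := by
          exact mul_le_mul hk2.le hs1 hs0 (by positivity)
        have e2 : (p + 4 * q / (τ * d)) * (η * d ^ 2) = d * (η * (p * d + 4 * q / τ)) := by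
          field_simp
        have e3 : η * (p * d + 4 * q / τ) ≤ η * (p + 4 * q / τ) := by
          apply mul_le_mul_of_nonneg_left _ hη.le
          nlinarith
        have e4 : k * s < d := by
          rw [e2] at e1
          refine e1.trans_lt ?_
          calc d * (η * (p * d + 4 * q / τ)) ≤ d * (η * (p + 4 * q / τ)) :=
                mul_le_mul_of_nonneg_left e3 hd0.le
            _ < d * 1 := mul_lt_mul_of_pos_left hc2 hd0
            _ = d := mul_one d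
        have e5 : a * ‖z‖ ^ 2 ≤ a := mul_le_of_le_one_right ha0 (pow_le_one₀ hn.le h2)
        rw [show (1:ℝ) - ‖z‖ = s from hs.symm ▸ rfl]
        linarith

/-- from the indicator form to the final form -/
theorem final_form {a : ℝ} {K : Set ℂ} (hK : Bdd a K) (hKc : IsClosed K)
    (P : ℂ → ℝ → Prop) [∀ z L, Decidable (P z L)]
    (hP : ∀ (z : ℂ) (L : ℝ), 0 < L → ‖z‖ ≤ L → P z L → z / (L : ℂ) ∈ K) :
    ∃ C : ℝ, ∀ ψ h : ℂ → ℂ,
      DifferentiableOn ℂ ψ {z : ℂ | 1 < ‖z‖} →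
      InjOn ψ {z : ℂ | 1 < ‖z‖} →
      (∃ b : ℂ, Tendsto (fun z => ψ z - z) (Bornology.cobounded ℂ) (𝓝 b)) →
      DifferentiableOn ℂ h {z : ℂ | 1 < ‖z‖} →
      (∀ z : ℂ, 1 < ‖z‖ → Complex.exp (h z) = deriv ψ z) →
      Tendsto h (Bornology.cobounded ℂ) (𝓝 0) →
      ∀ R : ℝ, 1 < R →
        (1 / (2 * π)) * (∫ θ in (0:ℝ)..(2 * π),
          if P (h ((R:ℂ) * Complex.exp ((θ:ℂ) * I))) (Real.log (R ^ 2 / (R ^ 2 - 1))) then
            Real.exp (a * ‖h ((R:ℂ) * Complex.exp ((θ:ℂ) * I))‖ ^ 2 /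
              Real.log (R ^ 2 / (R ^ 2 - 1)))
          else 0) ≤ C := by
  obtain ⟨C, hC⟩ := hK
  refine ⟨C, ?_⟩
  intro ψ h h1 h2 h3 h4 h5 h6 R hR
  have hs : Sg ψ h := ⟨h1, h2, h3, h4, h5, h6⟩
  have hcont := hs.cont hR
  have hL := log_pos' hR
  set L : ℝ := Real.log (R ^ 2 / (R ^ 2 - 1)) with hLd
  refine le_trans ?_ (hC ψ h hs R hR)
  rw [← hLd, one_div]
  apply mul_le_mul_of_nonneg_left _ (by positivity)
  have hpi : (0:ℝ) ≤ 2 * π := by positivity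
  rw [intervalIntegral.integral_of_le hpi, intervalIntegral.integral_of_le hpi]
  have hc2 : Continuous fun θ : ℝ => Real.exp (a * ‖h ((R:ℂ) * Complex.exp ((θ:ℂ) * I))‖ ^ 2 / L) :=
    Real.continuous_exp.comp ((continuous_const.mul ((continuous_norm.comp hcont).pow 2)).div_const _)
  apply integral_mono_of_nonneg
  · refine Eventually.of_forall fun θ => ?_
    show (0:ℝ) ≤ if _ then _ else _
    split_ifs
    · exact (Real.exp_pos _).le
    · exact le_rfl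
  · apply Integrable.indicator
    · exact (hc2.integrableOn_Icc).mono_set Ioc_subset_Icc_self
    · exact (hKc.preimage (hcont.div_const _)).measurableSet
  · refine Eventually.of_forall fun θ => ?_
    show (if P (h ((R:ℂ) * Complex.exp ((θ:ℂ) * I))) L then
        Real.exp (a * ‖h ((R:ℂ) * Complex.exp ((θ:ℂ) * I))‖ ^ 2 / L) else 0) ≤
      {θ : ℝ | h ((R:ℂ) * Complex.exp ((θ:ℂ) * I)) / (L : ℂ) ∈ K}.indicator
        (fun θ : ℝ => Real.exp (a * ‖h ((R:ℂ) * Complex.exp ((θ:ℂ) * I))‖ ^ 2 / L)) θ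
    split_ifs with hp
    · have hmem : θ ∈ {θ : ℝ | h ((R:ℂ) * Complex.exp ((θ:ℂ) * I)) / (L : ℂ) ∈ K} :=
        hP _ _ hL (hs.le hR θ) hp
      rw [indicator_of_mem hmem]
    · exact indicator_nonneg (fun _ _ => (Real.exp_pos _).le) θ

theorem closed_all (ρ : ℝ) : IsClosed {z : ℂ | ρ ≤ ‖z‖ ∧ ‖z‖ ≤ 1} := by
  have h1 : IsClosed {z : ℂ | ρ ≤ ‖z‖} := isClosed_le continuous_const continuous_norm
  have h2 : IsClosed {z : ℂ | ‖z‖ ≤ 1} := isClosed_le continuous_norm continuous_const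
  exact h1.inter h2

theorem closed_left (ρ : ℝ) : IsClosed {z : ℂ | ρ ≤ ‖z‖ ∧ ‖z‖ ≤ 1 ∧ z.re ≤ 0} := by
  have h1 : IsClosed {z : ℂ | ρ ≤ ‖z‖} := isClosed_le continuous_const continuous_norm
  have h2 : IsClosed {z : ℂ | ‖z‖ ≤ 1} := isClosed_le continuous_norm continuous_const
  have h3 : IsClosed {z : ℂ | z.re ≤ 0} := isClosed_le Complex.continuous_re continuous_const
  exact h1.inter (h2.inter h3)

theorem div_all {ρ : ℝ} (z : ℂ) (L : ℝ) (hL : 0 < L) (hz : ‖z‖ ≤ L) (h : ρ * L ≤ ‖z‖) :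
    z / (L : ℂ) ∈ {z : ℂ | ρ ≤ ‖z‖ ∧ ‖z‖ ≤ 1} := by
  have h1 : ‖z / (L : ℂ)‖ = ‖z‖ / L := by
    rw [norm_div, Complex.norm_real, Real.norm_of_nonneg hL.le]
  refine ⟨?_, ?_⟩
  · rw [h1]; exact (le_div_iff₀ hL).2 h
  · rw [h1]; exact (div_le_one hL).2 hz

theorem div_left {ρ : ℝ} (z : ℂ) (L : ℝ) (hL : 0 < L) (hz : ‖z‖ ≤ L)
    (h : ρ * L ≤ ‖z‖ ∧ z.re ≤ 0) :
    z / (L : ℂ) ∈ {z : ℂ | ρ ≤ ‖z‖ ∧ ‖z‖ ≤ 1 ∧ z.re ≤ 0} := by
  have h1 := div_all z L hL hz h.1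
  refine ⟨h1.1, h1.2, ?_⟩
  rw [Complex.div_ofReal_re]
  exact div_nonpos_of_nonpos_of_nonneg h.2 hL.le

/-- final form, all directions: exactness in the region `(|t| - p) (|t| - Re t) ≥ 2 q |t|` gives the
strong Marshall bound for every `a < 1` over the set where
`|h| ≥ (1 - η (1 - a)²) log (R² / (R² - 1))` -/
theorem marshall_all {p q η τ : ℝ} (hp : 0 ≤ p) (hq : 0 < q) (hη : 0 < η) (hτ : 0 < τ)
    (hc1 : τ + 2 * η + η ^ 2 < 1) (hc2 : η * (p + 4 * q / τ) < 1)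
    (H : ∀ t : ℂ, t.re < ‖t‖ → 2 * q * ‖t‖ ≤ (‖t‖ - p) * (‖t‖ - t.re) → Ex t) :
    ∀ a : ℝ, 0 < a → a < 1 → ∃ C : ℝ, ∀ ψ h : ℂ → ℂ,
      DifferentiableOn ℂ ψ {z : ℂ | 1 < ‖z‖} →
      InjOn ψ {z : ℂ | 1 < ‖z‖} →
      (∃ b : ℂ, Tendsto (fun z => ψ z - z) (Bornology.cobounded ℂ) (𝓝 b)) →
      DifferentiableOn ℂ h {z : ℂ | 1 < ‖z‖} →
      (∀ z : ℂ, 1 < ‖z‖ → Complex.exp (h z) = deriv ψ z) →
      Tendsto h (Bornology.cobounded ℂ) (𝓝 0) →
      ∀ R : ℝ, 1 < R →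
        (1 / (2 * π)) * (∫ θ in (0:ℝ)..(2 * π),
          if (1 - η * (1 - a) ^ 2) * Real.log (R ^ 2 / (R ^ 2 - 1)) ≤
              ‖h ((R:ℂ) * Complex.exp ((θ:ℂ) * I))‖ then
            Real.exp (a * ‖h ((R:ℂ) * Complex.exp ((θ:ℂ) * I))‖ ^ 2 /
              Real.log (R ^ 2 / (R ^ 2 - 1)))
          else 0) ≤ C := by
  intro a ha0 ha1
  exact final_form (all_bdd hp hq hη hτ hc1 hc2 H ha0.le ha1) (closed_all _)
    (fun z L => (1 - η * (1 - a) ^ 2) * L ≤ ‖z‖) (fun z L => div_all z L)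

/-- final form, contracting directions, explicit threshold: every `ρ` in `(0, 1]` with
`a ρ² < 1 - k (1 - ρ)`, where `B(t) = |t| - 1` for `|t| = k`, `Re t ≤ 0` -/
theorem marshall_left {k : ℝ} (hk : 2 ≤ k) (H : ∀ t : ℂ, t.re ≤ 0 → ‖t‖ = k → Ex t) :
    ∀ a ρ : ℝ, a ≤ 1 → 0 < ρ → a * ρ ^ 2 < 1 - k * (1 - ρ) → ∃ C : ℝ, ∀ ψ h : ℂ → ℂ,
      DifferentiableOn ℂ ψ {z : ℂ | 1 < ‖z‖} →
      InjOn ψ {z : ℂ | 1 < ‖z‖} →
      (∃ b : ℂ, Tendsto (fun z => ψ z - z) (Bornology.cobounded ℂ) (𝓝 b)) →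
      DifferentiableOn ℂ h {z : ℂ | 1 < ‖z‖} →
      (∀ z : ℂ, 1 < ‖z‖ → Complex.exp (h z) = deriv ψ z) →
      Tendsto h (Bornology.cobounded ℂ) (𝓝 0) →
      ∀ R : ℝ, 1 < R →
        (1 / (2 * π)) * (∫ θ in (0:ℝ)..(2 * π),
          if ρ * Real.log (R ^ 2 / (R ^ 2 - 1)) ≤ ‖h ((R:ℂ) * Complex.exp ((θ:ℂ) * I))‖ ∧
              (h ((R:ℂ) * Complex.exp ((θ:ℂ) * I))).re ≤ 0 then
            Real.exp (a * ‖h ((R:ℂ) * Complex.exp ((θ:ℂ) * I))‖ ^ 2 /
              Real.log (R ^ 2 / (R ^ 2 - 1)))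
          else 0) ≤ C := by
  intro a ρ ha hρ h
  exact final_form (left_bdd hk H ha hρ h) (closed_left _)
    (fun z L => ρ * L ≤ ‖z‖ ∧ z.re ≤ 0) (fun z L => div_left z L)

end Pool.Agent.Helper5.TR
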