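import Pool.Agent.Helper5.TR.Union
set_option autoImplicit false
open Complex MeasureTheory Metric Set Filter Topology
open scoped Real ComplexConjugate

/-! The union of two regions, with separate constants in the two half planes:
`|t| ≥ p + 2 q |t| / (|t| - Re t)` for `Re t > 0` and
`|t| ≥ c + d (|t| + Re t) / (|t| - Re t)` for `Re t ≤ 0`. -/

namespace Pool.Agent.Helper5.TR

/-- explicit `rho = 1 - η (1 - a)²` in all directions; here `0 < a₀ ≤ a < 1` -/
theorem all_bdd2 {p q k η τ a d₀ : ℝ} (hp : 0 ≤ p) (hq : 0 < q) (hη : 0 < η) (hτ : 0 < τ)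
    (hd0 : 0 < d₀) (hd1 : d₀ ≤ 1)
    (hc1 : τ + 2 * η * d₀ ^ 2 + η ^ 2 * d₀ ^ 3 < 1) (hc2 : η * (p * d₀ + 4 * q / τ) < 1)
    (hk : 0 ≤ k) (hkη : η * k * d₀ < 1)
    (H1 : ∀ t : ℂ, 0 < t.re → t.re < ‖t‖ → 2 * q * ‖t‖ ≤ (‖t‖ - p) * (‖t‖ - t.re) → Ex t)
    (H2 : ∀ t : ℂ, t.re ≤ 0 → ‖t‖ = k → Ex t)
    (ha0 : 0 ≤ a) (had : 1 - d₀ ≤ a) (ha1 : a < 1) :
    Bdd a {z : ℂ | 1 - η * (1 - a) ^ 2 ≤ ‖z‖ ∧ ‖z‖ ≤ 1} := by
  have hηd : η * d₀ ^ 2 < 1 / 2 := by nlinarith [mul_pos (sq_pos_of_pos hη) (pow_pos hd0 3)]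
  have hδ : (1 - a) ^ 2 ≤ d₀ ^ 2 := by nlinarith
  have hρ : 1 / 2 < 1 - η * (1 - a) ^ 2 := by nlinarith
  apply local_bound
  · have : {z : ℂ | 1 - η * (1 - a) ^ 2 ≤ ‖z‖ ∧ ‖z‖ ≤ 1} =
        closedBall (0:ℂ) 1 \ ball (0:ℂ) (1 - η * (1 - a) ^ 2) := by
      ext z
      simp only [mem_setOf_eq, mem_diff, mem_closedBall, dist_zero_right, mem_ball, not_lt]
      tauto
    rw [this]
    exact (isCompact_closedBall (0:ℂ) 1).diff isOpen_ball
  · rintro z ⟨h1, h2⟩
    have hn : 0 < ‖z‖ := by linarith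
    set d : ℝ := 1 - a with hd
    have hdp : 0 < d := by rw [hd]; linarith
    have hdd : d ≤ d₀ := by rw [hd]; linarith
    set s : ℝ := 1 - ‖z‖ with hs
    have hs0 : 0 ≤ s := by rw [hs]; linarith
    have hs1 : s ≤ η * d ^ 2 := by rw [hs]; linarith
    have hre : z.re ≤ ‖z‖ := Complex.re_le_norm z
    have haz : a * ‖z‖ ^ 2 ≤ a := mul_le_of_le_one_right ha0 (pow_le_one₀ hn.le h2)
    rcases le_or_gt z.re 0 with hz0 | hz0
    · -- the contracting half plane
      apply aligned (k := k) (norm_pos_iff.1 hn) hk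
      · apply H2
        · rw [dir_re]
          exact mul_nonpos_of_nonneg_of_nonpos hk (div_nonpos_of_nonpos_of_nonneg hz0 hn.le)
        · exact dir_norm hk (norm_pos_iff.1 hn)
      · have e1 : k * s ≤ k * (η * d ^ 2) := mul_le_mul_of_nonneg_left hs1 hk
        have e2 : k * (η * d ^ 2) < d := by
          have : η * k * d < 1 := lt_of_le_of_lt
            (mul_le_mul_of_nonneg_left hdd (mul_nonneg hη.le hk)) hkη
          nlinarith
        rw [show (1:ℝ) - ‖z‖ = s from hs.symm ▸ rfl]
        linarith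
    · -- `c = 1 - cos`
      set c : ℝ := 1 - z.re / ‖z‖ with hc
      have hc0 : 0 ≤ c := by
        rw [hc, sub_nonneg, div_le_one hn]; exact hre
      have hzr : z.re = ‖z‖ * (1 - c) := by
        rw [hc]; field_simp; ring
      by_cases hcase : c ≤ τ * d / 2
      · apply positive
        rw [hzr]
        have hz : ‖z‖ = 1 - s := by rw [hs]; ring
        have haa : a = 1 - d := by rw [hd]; ring
        rw [hz, haa]
        have e3 : s * d ≤ η * d₀ ^ 2 * d := by
          have : s ≤ η * d₀ ^ 2 := hs1.trans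
            (mul_le_mul_of_nonneg_left (pow_le_pow_left₀ hdp.le hdd 2) hη.le)
          exact mul_le_mul_of_nonneg_right this hdp.le
        have e4 : s ^ 2 ≤ η ^ 2 * d₀ ^ 3 * d := by
          have h3 : s ^ 2 ≤ (η * d ^ 2) ^ 2 := pow_le_pow_left₀ hs0 hs1 2
          have h4 : d ^ 3 ≤ d₀ ^ 3 := pow_le_pow_left₀ hdp.le hdd 3
          have h5 : (η * d ^ 2) ^ 2 = η ^ 2 * d ^ 3 * d := by ring
          rw [h5] at h3
          exact h3.trans (mul_le_mul_of_nonneg_right
            (mul_le_mul_of_nonneg_left h4 (sq_nonneg _)) hdp.le)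
        have e5 : d * (τ + 2 * η * d₀ ^ 2 + η ^ 2 * d₀ ^ 3) < d * 1 := by
          exact mul_lt_mul_of_pos_left hc1 hdp
        nlinarith [mul_nonneg hc0 hs0, mul_nonneg hdp.le (sq_nonneg s), mul_nonneg hdp.le hs0]
      · push Not at hcase
        have hcp : 0 < c := lt_of_le_of_lt (by positivity) hcase
        set k' : ℝ := p + 2 * q / c with hk'
        have hk0 : 0 < k' := by rw [hk']; positivity
        have hkn : ‖(k':ℂ) * (conj z / ‖z‖)‖ = k' := dir_norm hk0.le (norm_pos_iff.1 hn)
        have hkr : ((k':ℂ) * (conj z / ‖z‖)).re = k' * (1 - c) := by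
          rw [dir_re, hc]
          ring
        apply aligned (k := k') (norm_pos_iff.1 hn) hk0.le
        · apply H1
          · rw [dir_re]
            exact mul_pos hk0 (div_pos hz0 hn)
          · rw [hkn, hkr]; nlinarith [mul_pos hk0 hcp]
          · rw [hkn, hkr]
            have e1 : (k' - p) * (k' - k' * (1 - c)) = 2 * q * k' := by
              rw [show k' - p = 2 * q / c by rw [hk']; ring]
              field_simp
              ring
            rw [e1]
        · have hk2 : k' < p + 4 * q / (τ * d) := by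
            rw [hk']
            have : 2 * q / c < 4 * q / (τ * d) := by
              rw [div_lt_div_iff₀ hcp (by positivity)]
              nlinarith
            linarith
          have e1 : k' * s ≤ (p + 4 * q / (τ * d)) * (η * d ^ 2) := by
            exact mul_le_mul hk2.le hs1 hs0 (by positivity)
          have e2 : (p + 4 * q / (τ * d)) * (η * d ^ 2) = d * (η * (p * d + 4 * q / τ)) := by
            field_simp
          have e3 : η * (p * d + 4 * q / τ) ≤ η * (p * d₀ + 4 * q / τ) := by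
            apply mul_le_mul_of_nonneg_left _ hη.le
            nlinarith
          have e4 : k' * s < d := by
            rw [e2] at e1
            refine e1.trans_lt ?_
            calc d * (η * (p * d + 4 * q / τ)) ≤ d * (η * (p * d₀ + 4 * q / τ)) :=
                  mul_le_mul_of_nonneg_left e3 hdp.le
              _ < d * 1 := mul_lt_mul_of_pos_left hc2 hdp
              _ = d := mul_one d
          rw [show (1:ℝ) - ‖z‖ = s from hs.symm ▸ rfl]
          linarith

end Pool.Agent.Helper5.TR
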