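import Pool.Agent.Helper5.TR.Union2
set_option autoImplicit false
open Complex MeasureTheory Metric Set Filter Topology
open scoped Real ComplexConjugate

/-! The strong Marshall bound over the union of two sets (separate constants in the two half
planes). -/

namespace Pool.Agent.Helper5.TR

/-- the strong Marshall bound for every `a < 1` over the set where
`|h| ≥ (1 - η (1 - a)²) L`, or `Re h ≤ 0` and `|h| ≥ σ L`, for every `σ` with
`a σ² < 1 - k (1 - σ)` -/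
theorem marshall_union {p q k η τ d₀ : ℝ} (hp : 0 ≤ p) (hq : 0 < q) (hη : 0 < η) (hτ : 0 < τ)
    (hd0 : 0 < d₀) (hd1 : d₀ ≤ 1)
    (hc1 : τ + 2 * η * d₀ ^ 2 + η ^ 2 * d₀ ^ 3 < 1) (hc2 : η * (p * d₀ + 4 * q / τ) < 1)
    (hk : 2 ≤ k) (hkη : η * k * d₀ < 1)
    (H1 : ∀ t : ℂ, 0 < t.re → t.re < ‖t‖ → 2 * q * ‖t‖ ≤ (‖t‖ - p) * (‖t‖ - t.re) → Ex t)
    (H2 : ∀ t : ℂ, t.re ≤ 0 → ‖t‖ = k → Ex t) :
    ∀ a σ : ℝ, 1 - d₀ ≤ a → a < 1 → 0 < σ → a * σ ^ 2 < 1 - k * (1 - σ) →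
      ∃ C : ℝ, ∀ ψ h : ℂ → ℂ,
      DifferentiableOn ℂ ψ {z : ℂ | 1 < ‖z‖} →
      InjOn ψ {z : ℂ | 1 < ‖z‖} →
      (∃ b : ℂ, Tendsto (fun z => ψ z - z) (Bornology.cobounded ℂ) (𝓝 b)) →
      DifferentiableOn ℂ h {z : ℂ | 1 < ‖z‖} →
      (∀ z : ℂ, 1 < ‖z‖ → Complex.exp (h z) = deriv ψ z) →
      Tendsto h (Bornology.cobounded ℂ) (𝓝 0) →
      ∀ R : ℝ, 1 < R →
        (1 / (2 * π)) * (∫ θ in (0:ℝ)..(2 * π),
          if (1 - η * (1 - a) ^ 2) * Real.log (R ^ 2 / (R ^ 2 - 1)) ≤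
              ‖h ((R:ℂ) * Complex.exp ((θ:ℂ) * I))‖ ∨
              (h ((R:ℂ) * Complex.exp ((θ:ℂ) * I))).re ≤ 0 ∧
              σ * Real.log (R ^ 2 / (R ^ 2 - 1)) ≤ ‖h ((R:ℂ) * Complex.exp ((θ:ℂ) * I))‖ then
            Real.exp (a * ‖h ((R:ℂ) * Complex.exp ((θ:ℂ) * I))‖ ^ 2 /
              Real.log (R ^ 2 / (R ^ 2 - 1)))
          else 0) ≤ C := by
  intro a σ had ha1 hσ hσa
  have ha0 : 0 ≤ a := by linarith
  have hb1 := all_bdd2 hp hq hη hτ hd0 hd1 hc1 hc2 (by linarith : (0:ℝ) ≤ k) hkη H1 H2 ha0 had ha1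
  have hb2 := left_bdd hk H2 ha1.le hσ hσa
  obtain ⟨C1, hC1⟩ := final_form hb1 (closed_all _)
    (fun z L => (1 - η * (1 - a) ^ 2) * L ≤ ‖z‖) (fun z L => div_all z L)
  obtain ⟨C2, hC2⟩ := final_form hb2 (closed_left _)
    (fun z L => σ * L ≤ ‖z‖ ∧ z.re ≤ 0) (fun z L => div_left z L)
  refine ⟨C1 + C2, ?_⟩
  intro ψ h h1 h2 h3 h4 h5 h6 R hR
  have hs : Sg ψ h := ⟨h1, h2, h3, h4, h5, h6⟩
  refine le_trans ?_ (add_le_add (hC1 ψ h h1 h2 h3 h4 h5 h6 R hR)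
    (hC2 ψ h h1 h2 h3 h4 h5 h6 R hR))
  have hcont := hs.cont hR
  have hL := log_pos' hR
  set L : ℝ := Real.log (R ^ 2 / (R ^ 2 - 1)) with hLd
  have hpi : (0:ℝ) ≤ 2 * π := by positivity
  set E : ℝ → ℝ := fun θ => Real.exp (a * ‖h ((R:ℂ) * Complex.exp ((θ:ℂ) * I))‖ ^ 2 / L) with hE
  have hEc : Continuous E :=
    Real.continuous_exp.comp ((continuous_const.mul ((continuous_norm.comp hcont).pow 2)).div_const _)
  have hEi : Integrable E (volume.restrict (Ioc 0 (2 * π))) :=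
    (hEc.integrableOn_Icc).mono_set Ioc_subset_Icc_self
  -- integrability of the two pieces
  have hi1 : Integrable (fun θ : ℝ => if (1 - η * (1 - a) ^ 2) * L ≤
      ‖h ((R:ℂ) * Complex.exp ((θ:ℂ) * I))‖ then E θ else 0)
      (volume.restrict (Ioc 0 (2 * π))) := by
    have hm : MeasurableSet {θ : ℝ | (1 - η * (1 - a) ^ 2) * L ≤
        ‖h ((R:ℂ) * Complex.exp ((θ:ℂ) * I))‖} :=
      (isClosed_le continuous_const (continuous_norm.comp hcont)).measurableSet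
    have := hEi.indicator hm
    refine this.congr (Eventually.of_forall fun θ => ?_)
    simp only [indicator_apply]
    rfl
  have hi2 : Integrable (fun θ : ℝ => if σ * L ≤
      ‖h ((R:ℂ) * Complex.exp ((θ:ℂ) * I))‖ ∧ (h ((R:ℂ) * Complex.exp ((θ:ℂ) * I))).re ≤ 0
      then E θ else 0) (volume.restrict (Ioc 0 (2 * π))) := by
    have hm : MeasurableSet {θ : ℝ | σ * L ≤
        ‖h ((R:ℂ) * Complex.exp ((θ:ℂ) * I))‖ ∧ (h ((R:ℂ) * Complex.exp ((θ:ℂ) * I))).re ≤ 0} :=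
      ((isClosed_le continuous_const (continuous_norm.comp hcont)).inter
        (isClosed_le (Complex.continuous_re.comp hcont) continuous_const)).measurableSet
    have := hEi.indicator hm
    refine this.congr (Eventually.of_forall fun θ => ?_)
    simp only [indicator_apply]
    rfl
  rw [← mul_add, intervalIntegral.integral_of_le hpi, intervalIntegral.integral_of_le hpi,
    intervalIntegral.integral_of_le hpi, ← integral_add hi1 hi2]
  apply mul_le_mul_of_nonneg_left _ (by positivity)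
  apply integral_mono_of_nonneg
  · refine Eventually.of_forall fun θ => ?_
    show (0:ℝ) ≤ if _ then _ else _
    split_ifs
    · exact (Real.exp_pos _).le
    · exact le_rfl
  · exact hi1.add hi2
  · refine Eventually.of_forall fun θ => ?_
    have hE0 : 0 ≤ E θ := (Real.exp_pos _).le
    show (if (1 - η * (1 - a) ^ 2) * L ≤ ‖h ((R:ℂ) * Complex.exp ((θ:ℂ) * I))‖ ∨
        (h ((R:ℂ) * Complex.exp ((θ:ℂ) * I))).re ≤ 0 ∧
          σ * L ≤ ‖h ((R:ℂ) * Complex.exp ((θ:ℂ) * I))‖ then E θ else 0) ≤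
      (if (1 - η * (1 - a) ^ 2) * L ≤ ‖h ((R:ℂ) * Complex.exp ((θ:ℂ) * I))‖ then E θ else 0) +
      (if σ * L ≤ ‖h ((R:ℂ) * Complex.exp ((θ:ℂ) * I))‖ ∧
        (h ((R:ℂ) * Complex.exp ((θ:ℂ) * I))).re ≤ 0 then E θ else 0)
    by_cases hA : (1 - η * (1 - a) ^ 2) * L ≤ ‖h ((R:ℂ) * Complex.exp ((θ:ℂ) * I))‖
    · rw [if_pos (Or.inl hA), if_pos hA]
      have : 0 ≤ (if σ * L ≤ ‖h ((R:ℂ) * Complex.exp ((θ:ℂ) * I))‖ ∧
        (h ((R:ℂ) * Complex.exp ((θ:ℂ) * I))).re ≤ 0 then E θ else 0) := by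
        split_ifs
        · exact hE0
        · exact le_rfl
      linarith
    · by_cases hB : (h ((R:ℂ) * Complex.exp ((θ:ℂ) * I))).re ≤ 0 ∧
          σ * L ≤ ‖h ((R:ℂ) * Complex.exp ((θ:ℂ) * I))‖
      · rw [if_pos (Or.inr hB), if_neg hA, if_pos ⟨hB.2, hB.1⟩, zero_add]
      · rw [if_neg (by tauto), if_neg hA, if_neg (fun h => hB ⟨h.2, h.1⟩), zero_add]

end Pool.Agent.Helper5.TR
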