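import Pool.Agent.Helper5.TR.Union2
set_option autoImplicit false
open Complex MeasureTheory Metric Set Filter Topology
open scoped Real ComplexConjugate

/-! The strong Marshall bound over the union of three sets: all directions, the left half plane, and
a neighbourhood of the positive axis. -/

namespace Pool.Agent.Helper5.TR

/-- the pointwise condition of `local_bound` -/
def Pt (a : ℝ) (z : ℂ) : Prop :=
  ∃ (t : ℂ) (b : ℝ), UpAt t b ∧ a * ‖z‖ ^ 2 < (t * z).re - b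

theorem pt_all {p q k η τ a d₀ : ℝ} (hp : 0 ≤ p) (hq : 0 < q) (hη : 0 < η) (hτ : 0 < τ)
    (hd0 : 0 < d₀)
    (hc1 : τ + 2 * η * d₀ ^ 2 + η ^ 2 * d₀ ^ 3 < 1) (hc2 : η * (p * d₀ + 4 * q / τ) < 1)
    (hk : 0 ≤ k) (hkη : η * k * d₀ < 1)
    (H1 : ∀ t : ℂ, 0 < t.re → t.re < ‖t‖ → 2 * q * ‖t‖ ≤ (‖t‖ - p) * (‖t‖ - t.re) → Ex t)
    (H2 : ∀ t : ℂ, t.re ≤ 0 → ‖t‖ = k → Ex t)
    (ha0 : 0 ≤ a) (had : 1 - d₀ ≤ a) (ha1 : a < 1) {z : ℂ}
    (h1 : 1 - η * (1 - a) ^ 2 ≤ ‖z‖) (h2 : ‖z‖ ≤ 1) : Pt a z := by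
  have hηd : η * d₀ ^ 2 < 1 / 2 := by nlinarith [mul_pos (sq_pos_of_pos hη) (pow_pos hd0 3)]
  have hδ : (1 - a) ^ 2 ≤ d₀ ^ 2 := by nlinarith
  have hρ : 1 / 2 < 1 - η * (1 - a) ^ 2 := by nlinarith
  have hn : 0 < ‖z‖ := by linarith
  set d : ℝ := 1 - a with hd
  have hdp : 0 < d := by rw [hd]; linarith
  have hdd : d ≤ d₀ := by rw [hd]; linarith
  set s : ℝ := 1 - ‖z‖ with hs
  have hs0 : 0 ≤ s := by rw [hs]; linarith
  have hs1 : s ≤ η * d ^ 2 := by rw [hs]; linarith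
  have hre : z.re ≤ ‖z‖ := Complex.re_le_norm z
  have haz : a * ‖z‖ ^ 2 ≤ a := mul_le_of_le_one_right ha0 (pow_le_one₀ hn.le h2)
  rcases le_or_gt z.re 0 with hz0 | hz0
  · -- the contracting half plane
    apply aligned (k := k) (norm_pos_iff.1 hn) hk
    · apply H2
      · rw [dir_re]
        exact mul_nonpos_of_nonneg_of_nonpos hk (div_nonpos_of_nonpos_of_nonneg hz0 hn.le)
      · exact dir_norm hk (norm_pos_iff.1 hn)
    · have e1 : k * s ≤ k * (η * d ^ 2) := mul_le_mul_of_nonneg_left hs1 hk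
      have e2 : k * (η * d ^ 2) < d := by
        have : η * k * d < 1 := lt_of_le_of_lt
          (mul_le_mul_of_nonneg_left hdd (mul_nonneg hη.le hk)) hkη
        nlinarith
      rw [show (1:ℝ) - ‖z‖ = s from hs.symm ▸ rfl]
      linarith
  · -- `c = 1 - cos`
    set c : ℝ := 1 - z.re / ‖z‖ with hc
    have hc0 : 0 ≤ c := by
      rw [hc, sub_nonneg, div_le_one hn]; exact hre
    have hzr : z.re = ‖z‖ * (1 - c) := by
      rw [hc]; field_simp; ring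
    by_cases hcase : c ≤ τ * d / 2
    · apply positive
      rw [hzr]
      have hz : ‖z‖ = 1 - s := by rw [hs]; ring
      have haa : a = 1 - d := by rw [hd]; ring
      rw [hz, haa]
      have e3 : s * d ≤ η * d₀ ^ 2 * d := by
        have : s ≤ η * d₀ ^ 2 := hs1.trans
          (mul_le_mul_of_nonneg_left (pow_le_pow_left₀ hdp.le hdd 2) hη.le)
        exact mul_le_mul_of_nonneg_right this hdp.le
      have e4 : s ^ 2 ≤ η ^ 2 * d₀ ^ 3 * d := by
        have h3 : s ^ 2 ≤ (η * d ^ 2) ^ 2 := pow_le_pow_left₀ hs0 hs1 2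
        have h4 : d ^ 3 ≤ d₀ ^ 3 := pow_le_pow_left₀ hdp.le hdd 3
        have h5 : (η * d ^ 2) ^ 2 = η ^ 2 * d ^ 3 * d := by ring
        rw [h5] at h3
        exact h3.trans (mul_le_mul_of_nonneg_right
          (mul_le_mul_of_nonneg_left h4 (sq_nonneg _)) hdp.le)
      have e5 : d * (τ + 2 * η * d₀ ^ 2 + η ^ 2 * d₀ ^ 3) < d * 1 := by
        exact mul_lt_mul_of_pos_left hc1 hdp
      nlinarith [mul_nonneg hc0 hs0, mul_nonneg hdp.le (sq_nonneg s), mul_nonneg hdp.le hs0]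
    · push Not at hcase
      have hcp : 0 < c := lt_of_le_of_lt (by positivity) hcase
      set k' : ℝ := p + 2 * q / c with hk'
      have hk0 : 0 < k' := by rw [hk']; positivity
      have hkn : ‖(k':ℂ) * (conj z / ‖z‖)‖ = k' := dir_norm hk0.le (norm_pos_iff.1 hn)
      have hkr : ((k':ℂ) * (conj z / ‖z‖)).re = k' * (1 - c) := by
        rw [dir_re, hc]
        ring
      apply aligned (k := k') (norm_pos_iff.1 hn) hk0.le
      · apply H1
        · rw [dir_re]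
          exact mul_pos hk0 (div_pos hz0 hn)
        · rw [hkn, hkr]; nlinarith [mul_pos hk0 hcp]
        · rw [hkn, hkr]
          have e1 : (k' - p) * (k' - k' * (1 - c)) = 2 * q * k' := by
            rw [show k' - p = 2 * q / c by rw [hk']; ring]
            field_simp
            ring
          rw [e1]
      · have hk2 : k' < p + 4 * q / (τ * d) := by
          rw [hk']
          have : 2 * q / c < 4 * q / (τ * d) := by
            rw [div_lt_div_iff₀ hcp (by positivity)]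
            nlinarith
          linarith
        have e1 : k' * s ≤ (p + 4 * q / (τ * d)) * (η * d ^ 2) := by
          exact mul_le_mul hk2.le hs1 hs0 (by positivity)
        have e2 : (p + 4 * q / (τ * d)) * (η * d ^ 2) = d * (η * (p * d + 4 * q / τ)) := by
          field_simp
        have e3 : η * (p * d + 4 * q / τ) ≤ η * (p * d₀ + 4 * q / τ) := by
          apply mul_le_mul_of_nonneg_left _ hη.le
          nlinarith
        have e4 : k' * s < d := by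
          rw [e2] at e1
          refine e1.trans_lt ?_
          calc d * (η * (p * d + 4 * q / τ)) ≤ d * (η * (p * d₀ + 4 * q / τ)) :=
                mul_le_mul_of_nonneg_left e3 hdp.le
            _ < d * 1 := mul_lt_mul_of_pos_left hc2 hdp
            _ = d := mul_one d
        rw [show (1:ℝ) - ‖z‖ = s from hs.symm ▸ rfl]
        linarith

theorem pt_left {k a ρ : ℝ} (hk : 2 ≤ k) (H : ∀ t : ℂ, t.re ≤ 0 → ‖t‖ = k → Ex t)
    (ha : a ≤ 1) (hρ : 0 < ρ) (h : a * ρ ^ 2 < 1 - k * (1 - ρ)) {z : ℂ} (h1 : ρ ≤ ‖z‖)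
    (h2 : ‖z‖ ≤ 1) (h3 : z.re ≤ 0) : Pt a z := by
  have hn : 0 < ‖z‖ := lt_of_lt_of_le hρ h1
  apply aligned (k := k) (norm_pos_iff.1 hn) (by linarith)
  · apply H
    · rw [dir_re]
      exact mul_nonpos_of_nonneg_of_nonpos (by linarith)
        (div_nonpos_of_nonpos_of_nonneg h3 hn.le)
    · exact dir_norm (by linarith) (norm_pos_iff.1 hn)
  · nlinarith [mul_nonneg (sub_nonneg.2 h1) (sub_nonneg.2 h2),
      mul_nonneg (sub_nonneg.2 h1) (by linarith : (0:ℝ) ≤ k - 2),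
      mul_nonneg (sub_nonneg.2 h1) (by linarith : (0:ℝ) ≤ 1 - a),
      mul_nonneg (mul_nonneg (sub_nonneg.2 h1) (by linarith : (0:ℝ) ≤ 1 - a)) (by linarith : (0:ℝ) ≤ ‖z‖ + ρ),
      mul_nonneg (sub_nonneg.2 h1) (by linarith : (0:ℝ) ≤ 2 - ‖z‖ - ρ)]

/-- a neighbourhood of the positive axis, from the moments `2 x`, `1 - δ ≤ x < 1` -/
theorem pt_pos {a β δ : ℝ} (hδ1 : δ < 1)
    (H3 : ∀ x : ℝ, 1 - δ ≤ x → x < 1 → UpAt ((2 * x : ℝ) : ℂ) (x ^ 2))
    (ha0 : 0 ≤ a) (hab : a * β < 1) {z : ℂ} (h1 : 1 - δ ≤ z.re) (h2 : ‖z‖ ≤ 1)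
    (h3 : ‖z‖ ^ 2 ≤ β * z.re ^ 2) : Pt a z := by
  have hx0 : 0 < z.re := by linarith
  have hx1 : z.re ≤ 1 := (Complex.re_le_norm z).trans h2
  have hx2 : 0 < z.re ^ 2 := by positivity
  have h4 : a * ‖z‖ ^ 2 < z.re ^ 2 := by
    calc a * ‖z‖ ^ 2 ≤ a * (β * z.re ^ 2) := mul_le_mul_of_nonneg_left h3 ha0
      _ = (a * β) * z.re ^ 2 := by ring
      _ < 1 * z.re ^ 2 := mul_lt_mul_of_pos_right hab hx2
      _ = z.re ^ 2 := one_mul _
  rcases hx1.lt_or_eq with hx | hx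
  · refine ⟨_, _, H3 z.re h1 hx, ?_⟩
    rw [Complex.re_ofReal_mul]
    nlinarith
  · apply positive
    rw [hx] at h4 ⊢
    linarith

/-- the compact set of the three regions -/
def KK (η k a σ β δ : ℝ) : Set ℂ :=
  {z : ℂ | ‖z‖ ≤ 1 ∧ (1 - η * (1 - a) ^ 2 ≤ ‖z‖ ∨ (z.re ≤ 0 ∧ σ ≤ ‖z‖) ∨
    (1 - δ ≤ z.re ∧ ‖z‖ ^ 2 ≤ β * z.re ^ 2)) ∧ 0 ≤ k}

theorem isClosed_KK (η k a σ β δ : ℝ) : IsClosed (KK η k a σ β δ) := by
  apply IsClosed.inter (isClosed_le continuous_norm continuous_const)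
  apply IsClosed.inter _ isClosed_const
  apply IsClosed.union (isClosed_le continuous_const continuous_norm)
  apply IsClosed.union
  · exact (isClosed_le Complex.continuous_re continuous_const).inter
      (isClosed_le continuous_const continuous_norm)
  · exact (isClosed_le continuous_const Complex.continuous_re).inter
      (isClosed_le (continuous_norm.pow 2) (continuous_const.mul (Complex.continuous_re.pow 2)))

theorem isCompact_KK (η k a σ β δ : ℝ) : IsCompact (KK η k a σ β δ) := by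
  apply IsCompact.of_isClosed_subset (isCompact_closedBall (0:ℂ) 1) (isClosed_KK η k a σ β δ)
  rintro z ⟨h1, -⟩
  rwa [mem_closedBall, dist_zero_right]

/-- the strong Marshall bound over the union of three sets -/
theorem marshall_union5 {p q k η τ δ : ℝ} (hp : 0 ≤ p) (hq : 0 < q) (hη : 0 < η) (hτ : 0 < τ)
    (hc1 : τ + 2 * η + η ^ 2 < 1) (hc2 : η * (p + 4 * q / τ) < 1)
    (hk : 2 ≤ k) (hkη : η * k < 1) (hδ : δ < 1)
    (H1 : ∀ t : ℂ, 0 < t.re → t.re < ‖t‖ → 2 * q * ‖t‖ ≤ (‖t‖ - p) * (‖t‖ - t.re) → Ex t)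
    (H2 : ∀ t : ℂ, t.re ≤ 0 → ‖t‖ = k → Ex t)
    (H3 : ∀ x : ℝ, 1 - δ ≤ x → x < 1 → UpAt ((2 * x : ℝ) : ℂ) (x ^ 2)) :
    ∀ a σ β : ℝ, 0 < a → a < 1 → 0 < σ → a * σ ^ 2 < 1 - k * (1 - σ) → a * β < 1 →
      ∃ C : ℝ, ∀ ψ h : ℂ → ℂ,
      DifferentiableOn ℂ ψ {z : ℂ | 1 < ‖z‖} →
      InjOn ψ {z : ℂ | 1 < ‖z‖} →
      (∃ b : ℂ, Tendsto (fun z => ψ z - z) (Bornology.cobounded ℂ) (𝓝 b)) →
      DifferentiableOn ℂ h {z : ℂ | 1 < ‖z‖} →
      (∀ z : ℂ, 1 < ‖z‖ → Complex.exp (h z) = deriv ψ z) →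
      Tendsto h (Bornology.cobounded ℂ) (𝓝 0) →
      ∀ R : ℝ, 1 < R →
        (1 / (2 * π)) * (∫ θ in (0:ℝ)..(2 * π),
          if (1 - η * (1 - a) ^ 2) * Real.log (R ^ 2 / (R ^ 2 - 1)) ≤
              ‖h ((R:ℂ) * Complex.exp ((θ:ℂ) * I))‖ ∨
              ((h ((R:ℂ) * Complex.exp ((θ:ℂ) * I))).re ≤ 0 ∧
              σ * Real.log (R ^ 2 / (R ^ 2 - 1)) ≤ ‖h ((R:ℂ) * Complex.exp ((θ:ℂ) * I))‖) ∨
              ((1 - δ) * Real.log (R ^ 2 / (R ^ 2 - 1)) ≤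
                (h ((R:ℂ) * Complex.exp ((θ:ℂ) * I))).re ∧
              ‖h ((R:ℂ) * Complex.exp ((θ:ℂ) * I))‖ ^ 2 ≤
                β * (h ((R:ℂ) * Complex.exp ((θ:ℂ) * I))).re ^ 2) then
            Real.exp (a * ‖h ((R:ℂ) * Complex.exp ((θ:ℂ) * I))‖ ^ 2 /
              Real.log (R ^ 2 / (R ^ 2 - 1)))
          else 0) ≤ C := by
  intro a σ β ha0 ha1 hσ hσa hab
  have hb : Bdd a (KK η k a σ β δ) := by
    apply local_bound (isCompact_KK η k a σ β δ)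
    rintro z ⟨h1, h2, -⟩
    rcases h2 with h2 | ⟨h2, h3⟩ | ⟨h2, h3⟩
    · exact pt_all (d₀ := 1) hp hq hη hτ one_pos (by linarith) (by linarith) (by linarith)
        (by linarith) H1 H2 ha0.le (by linarith) ha1 h2 h1
    · exact pt_left hk H2 ha1.le hσ hσa h3 h1 h2
    · exact pt_pos hδ H3 ha0.le hab h2 h1 h3
  exact final_form hb (isClosed_KK η k a σ β δ)
    (fun z L => (1 - η * (1 - a) ^ 2) * L ≤ ‖z‖ ∨ (z.re ≤ 0 ∧ σ * L ≤ ‖z‖) ∨
      ((1 - δ) * L ≤ z.re ∧ ‖z‖ ^ 2 ≤ β * z.re ^ 2)) (by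
      intro z L hL hz hP
      have hn : ‖z / (L : ℂ)‖ = ‖z‖ / L := by
        rw [norm_div, Complex.norm_real, Real.norm_of_nonneg hL.le]
      have hr : (z / (L : ℂ)).re = z.re / L := Complex.div_ofReal_re z L
      refine ⟨?_, ?_, by linarith⟩
      · rw [hn]; exact (div_le_one hL).2 hz
      · rw [hn, hr]
        rcases hP with h | ⟨h1, h2⟩ | ⟨h1, h2⟩
        · exact Or.inl ((le_div_iff₀ hL).2 h)
        · exact Or.inr (Or.inl ⟨div_nonpos_of_nonpos_of_nonneg h1 hL.le, (le_div_iff₀ hL).2 h2⟩)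
        · refine Or.inr (Or.inr ⟨(le_div_iff₀ hL).2 h1, ?_⟩)
          rw [div_pow, div_pow, ← mul_div_assoc]
          exact div_le_div_of_nonneg_right h2 (by positivity))

end Pool.Agent.Helper5.TR
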